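import Mathlib

/-!
# The numerical part of the argument
-/

namespace Pool.Agent.MP_dd0645_co

open Finset

/-- the pairs that may be wrong for the threshold `h` -/
def pw (l : ℕ) (f : ℕ → ℤ) (h : ℕ) : Finset (ℕ × ℕ) :=
  ((range (2 * l + 1)) ×ˢ (range (2 * l + 1))).filter (fun x => x.1 < x.2 ∧ x.1 % 2 = x.2 % 2 ∧
    ((x.2 < h ∧ (x.2 = 2 * l ∨ f (x.1 + 1) + f (x.2 + 1) ≤ 0)) ∨
      (h ≤ x.1 ∧ (x.1 = 0 ∨ 0 ≤ f (x.1 - 1) + f (x.2 - 1)))))

lemma mem_pw {l : ℕ} {f : ℕ → ℤ} {h : ℕ} {a b : ℕ} : (a, b) ∈ pw l f h ↔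
    (a < 2 * l + 1 ∧ b < 2 * l + 1) ∧ a < b ∧ a % 2 = b % 2 ∧
    ((b < h ∧ (b = 2 * l ∨ f (a + 1) + f (b + 1) ≤ 0)) ∨
      (h ≤ a ∧ (a = 0 ∨ 0 ≤ f (a - 1) + f (b - 1)))) := by
  simp only [pw, mem_filter, mem_product, mem_range]

/-- the numerical data of a maximal configuration -/
structure Num (l : ℕ) (f : ℕ → ℤ) : Prop where
  hl : 1 ≤ l
  anti : ∀ i j, i ≤ j → j ≤ 2 * l → f j ≤ f i
  plat : ∀ j, j + 3 ≤ 2 * l → f j = f (j + 3) → f j ≤ -2 ∨ 2 ≤ f j
  count : ∀ h : ℕ, h ≤ 2 * l + 1 → (∀ i < h, 0 ≤ f i) → (∀ i, h ≤ i → i ≤ 2 * l → f i ≤ 0) →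
    ∑ i ∈ range (2 * l + 1), |f i| + ((h : ℤ) - l) * ((h : ℤ) - l - 1) ≤
      l + 2 * ((pw l f h).card : ℤ)

lemma exists_threshold (N : ℕ) (P : ℕ → Prop) (hP : ∀ i j, i ≤ j → j < N → P j → P i) :
    ∃ e ≤ N, ∀ i < N, (P i ↔ i < e) := by
  classical
  induction N with
  | zero => exact ⟨0, le_rfl, fun i hi => absurd hi (by omega)⟩
  | succ N ih =>
    obtain ⟨e, he, hPe⟩ := ih (fun i j hij hj => hP i j hij (by omega))
    by_cases hN : P N
    · refine ⟨N + 1, le_rfl, fun i hi => ⟨fun _ => hi, fun _ => hP i N (by omega) (by omega) hN⟩⟩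
    · refine ⟨e, by omega, fun i hi => ?_⟩
      rcases Nat.lt_succ_iff_lt_or_eq.1 hi with h | h
      · exact hPe i h
      · subst h
        exact ⟨fun h => absurd h hN, fun h => absurd h (by omega)⟩

lemma card_le_of_image {α : Type} [DecidableEq α] {s : Finset α} {g : ℕ → α} {k : ℕ}
    (h : ∀ x ∈ s, ∃ i, 1 ≤ i ∧ i ≤ k ∧ g i = x) : s.card ≤ k := by
  have : s ⊆ (Icc 1 k).image g := by
    intro x hx
    obtain ⟨i, h1, h2, h3⟩ := h x hx
    rw [mem_image]
    exact ⟨i, mem_Icc.2 ⟨h1, h2⟩, h3⟩
  refine (card_le_card this).trans (card_image_le.trans ?_)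
  simp

variable {l : ℕ} {f : ℕ → ℤ}

lemma Num.card_value (H : Num l f) {v : ℤ} (hv : -1 ≤ v ∧ v ≤ 1) :
    ((range (2 * l + 1)).filter (fun i => f i = v)).card ≤ 3 := by
  by_cases hne : ((range (2 * l + 1)).filter (fun i => f i = v)).Nonempty
  · set m := ((range (2 * l + 1)).filter (fun i => f i = v)).min' hne with hm
    have hmm : m ∈ (range (2 * l + 1)).filter (fun i => f i = v) := min'_mem _ _
    rw [mem_filter, mem_range] at hmm
    have hsub : (range (2 * l + 1)).filter (fun i => f i = v) ⊆ Icc m (m + 2) := by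
      intro i hi
      have hmi : m ≤ i := min'_le _ _ hi
      rw [mem_filter, mem_range] at hi
      rw [mem_Icc]
      refine ⟨hmi, ?_⟩
      by_contra hcon
      have h1 := H.anti m (m + 3) (by omega) (by omega)
      have h2 := H.anti (m + 3) i (by omega) (by omega)
      have h3 := H.plat m (by omega) (by omega)
      omega
    refine (card_le_card hsub).trans ?_
    rw [Nat.card_Icc]
    omega
  · rw [not_nonempty_iff_eq_empty] at hne
    rw [hne]
    simp

lemma Num.sum_ge_two (H : Num l f) : 2 * (2 * (l : ℤ) + 1) - 6 -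
    2 * (((range (2 * l + 1)).filter (fun i => f i = 0)).card : ℤ) ≤
      ∑ i ∈ range (2 * l + 1), |f i| := by
  have h1 := H.card_value (v := 1) (by norm_num)
  have h2 := H.card_value (v := -1) (by norm_num)
  have h3 : ∑ i ∈ range (2 * l + 1), ((2 : ℤ) - (if f i = 1 then 1 else 0) -
      (if f i = -1 then 1 else 0) - 2 * (if f i = 0 then 1 else 0)) ≤
      ∑ i ∈ range (2 * l + 1), |f i| := by
    apply sum_le_sum
    intro i _
    rcases le_total 0 (f i) with h | h
    · rw [abs_of_nonneg h]
      split_ifs <;> omega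
    · rw [abs_of_nonpos h]
      split_ifs <;> omega
  rw [sum_sub_distrib, sum_sub_distrib, sum_sub_distrib, ← mul_sum, sum_boole, sum_boole,
    sum_boole, sum_const, card_range, nsmul_eq_mul] at h3
  push_cast at h3
  have h1' : (((range (2 * l + 1)).filter (fun i => f i = 1)).card : ℤ) ≤ 3 := by
    exact_mod_cast h1
  have h2' : (((range (2 * l + 1)).filter (fun i => f i = -1)).card : ℤ) ≤ 3 := by
    exact_mod_cast h2
  linarith

lemma sum_ge_one (l : ℕ) (f : ℕ → ℤ) : (2 * (l : ℤ) + 1) -
    (((range (2 * l + 1)).filter (fun i => f i = 0)).card : ℤ) ≤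
      ∑ i ∈ range (2 * l + 1), |f i| := by
  have h3 : ∑ i ∈ range (2 * l + 1), ((1 : ℤ) - (if f i = 0 then 1 else 0)) ≤
      ∑ i ∈ range (2 * l + 1), |f i| := by
    apply sum_le_sum
    intro i _
    split_ifs with h
    · simp
    · have := Int.one_le_abs h
      omega
  rw [sum_sub_distrib, sum_boole, sum_const, card_range, nsmul_eq_mul] at h3
  push_cast at h3
  linarith

/-- the sum minus the absolute value of one term -/
lemma sum_ge_one_of {l : ℕ} {f : ℕ → ℤ} {k : ℕ} (hk : k ≤ 2 * l) :
    (2 * (l : ℤ) + 1) - (((range (2 * l + 1)).filter (fun i => f i = 0)).card : ℤ) +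
      (|f k| - 1) ≤ ∑ i ∈ range (2 * l + 1), |f i| := by
  have h3 : ∑ i ∈ range (2 * l + 1), ((1 : ℤ) - (if f i = 0 then 1 else 0) +
      (if i = k then (|f k| - 1) else 0)) ≤ ∑ i ∈ range (2 * l + 1), |f i| := by
    apply sum_le_sum
    intro i _
    by_cases hik : i = k
    · subst hik
      rw [if_pos rfl]
      split_ifs with h
      · rw [h]; simp
      · omega
    · rw [if_neg hik]
      split_ifs with h
      · simp
      · have := Int.one_le_abs h
        omega
  rw [sum_add_distrib, sum_sub_distrib, sum_boole, sum_const, card_range, nsmul_eq_mul,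
    sum_ite_eq', if_pos (mem_range.2 (by omega))] at h3
  push_cast at h3
  linarith

/-- **The numerical conclusion.** -/
theorem Num.cases (H : Num l f) :
    (l = 1 ∧ f 0 = 0 ∧ f 1 = 0 ∧ -1 ≤ f 2) ∨ (l = 1 ∧ f 1 = 0 ∧ f 2 = 0 ∧ f 0 ≤ 1) ∨
    (l = 2 ∧ f 0 = 1 ∧ f 1 = 1 ∧ f 3 = -1 ∧ f 4 = -1) ∨
    ∃ e, e + 2 ≤ 2 * l ∧ f e = 0 ∧ f (e + 1) = 0 ∧ f (e + 2) = 0 ∧ (∀ i < e, 0 < f i) ∧
      (∀ i, e + 3 ≤ i → i ≤ 2 * l → f i < 0) ∧
      (l = 2 ∨ (l = 3 ∧ e = 2) ∨ (l = 4 ∧ e = 3 ∧ f 1 = 1 ∧ f 7 = -1)) := by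
  have hl := H.hl
  set T := ∑ i ∈ range (2 * l + 1), |f i| with hT
  obtain ⟨e0, he0, hpos⟩ := exists_threshold (2 * l + 1) (fun i => 0 < f i)
    (fun i j hij hj hjp => lt_of_lt_of_le hjp (H.anti i j hij (by omega)))
  obtain ⟨e1, he1, hnn⟩ := exists_threshold (2 * l + 1) (fun i => 0 ≤ f i)
    (fun i j hij hj hjp => le_trans hjp (H.anti i j hij (by omega)))
  have h01 : e0 ≤ e1 := by
    by_contra hcon
    have h1 := hpos e1 (by omega)
    have h2 := hnn e1 (by omega)
    omega
  have hzero : ∀ i, i < 2 * l + 1 → (f i = 0 ↔ e0 ≤ i ∧ i < e1) := by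
    intro i hi
    have h1 := hpos i hi
    have h2 := hnn i hi
    omega
  have hZ : ((range (2 * l + 1)).filter (fun i => f i = 0)).card = e1 - e0 := by
    have : (range (2 * l + 1)).filter (fun i => f i = 0) = Ico e0 e1 := by
      ext i
      rw [mem_filter, mem_range, mem_Ico]
      constructor
      · rintro ⟨h1, h2⟩
        exact (hzero i h1).1 h2
      · rintro ⟨h1, h2⟩
        exact ⟨by omega, (hzero i (by omega)).2 ⟨h1, h2⟩⟩
    rw [this, Nat.card_Ico]
  have h3 : e1 ≤ e0 + 3 := by
    by_contra hcon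
    have h1 := (hzero e0 (by omega)).2 (by omega)
    have h2 := (hzero (e0 + 3) (by omega)).2 (by omega)
    have := H.plat e0 (by omega) (by omega)
    omega
  have hB1 := sum_ge_one l f
  have hB2 := H.sum_ge_two
  rw [hZ, ← hT] at hB1 hB2
  have hcount : ∀ h : ℕ, e0 ≤ h → h ≤ e1 → T + ((h : ℤ) - l) * ((h : ℤ) - l - 1) ≤
      l + 2 * ((pw l f h).card : ℤ) := by
    intro h h1 h2
    apply H.count h (by omega)
    · intro i hi
      have := hnn i (by omega)
      omega
    · intro i hi hi'
      have := hpos i (by omega)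
      omega
  have hprod : ∀ x : ℤ, 0 ≤ x * (x - 1) := by
    intro x
    rcases le_or_gt x 0 with h | h
    · nlinarith
    · nlinarith
  rcases (show e1 = e0 ∨ e1 = e0 + 1 ∨ e1 = e0 + 2 ∨ e1 = e0 + 3 by omega) with h | h | h | h
  · -- no zeros
    exfalso
    subst h
    have hc := hcount e1 le_rfl le_rfl
    have hp := hprod ((e1 : ℤ) - l)
    simp only [Nat.sub_self, Nat.cast_zero] at hB1 hB2
    by_cases hz : e1 = 0
    · have hcard : (pw l f e1).card ≤ l := by
        apply card_le_of_image (g := fun k => (0, 2 * k))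
        rintro ⟨a, b⟩ hab
        rw [mem_pw] at hab
        obtain ⟨⟨ha, hb⟩, hlt, hpar, hor⟩ := hab
        have ha0 : a = 0 := by
          by_contra hne
          have g1 := hpos (a - 1) (by omega)
          have g2 := hpos (b - 1) (by omega)
          have g3 := hnn (a - 1) (by omega)
          have g4 := hnn (b - 1) (by omega)
          omega
        refine ⟨b / 2, by omega, by omega, ?_⟩
        simp only [Prod.mk.injEq]
        omega
      have hcard' : ((pw l f e1).card : ℤ) ≤ l := by exact_mod_cast hcard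
      rw [hz] at hc hcard'
      push_cast at hc
      nlinarith
    by_cases hN : e1 = 2 * l + 1
    · have hcard : (pw l f e1).card ≤ l := by
        apply card_le_of_image (g := fun k => (2 * (k - 1), 2 * l))
        rintro ⟨a, b⟩ hab
        rw [mem_pw] at hab
        obtain ⟨⟨ha, hb⟩, hlt, hpar, hor⟩ := hab
        have hb0 : b = 2 * l := by
          by_contra hne
          have g1 := hpos (a + 1) (by omega)
          have g2 := hpos (b + 1) (by omega)
          omega
        refine ⟨a / 2 + 1, by omega, by omega, ?_⟩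
        simp only [Prod.mk.injEq]
        omega
      have hcard' : ((pw l f e1).card : ℤ) ≤ l := by exact_mod_cast hcard
      have he : (e1 : ℤ) = 2 * l + 1 := by rw [hN]; push_cast; ring
      rw [he] at hc
      nlinarith
    · have hcard : (pw l f e1).card ≤ (e1 - 1) / 2 + (2 * l - e1) / 2 := by
        have hsub : pw l f e1 ⊆ (Icc 1 ((e1 - 1) / 2)).image (fun k => (e1 - 1 - 2 * k, e1 - 1)) ∪
            (Icc 1 ((2 * l - e1) / 2)).image (fun k => (e1, e1 + 2 * k)) := by
          rintro ⟨a, b⟩ hab
          rw [mem_pw] at hab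
          obtain ⟨⟨ha, hb⟩, hlt, hpar, hor⟩ := hab
          rw [mem_union, mem_image, mem_image]
          rcases hor with ⟨hbh, hor⟩ | ⟨hah, hor⟩
          · left
            have hb0 : b = e1 - 1 := by
              by_contra hne
              have g1 := hpos (a + 1) (by omega)
              have g2 := hpos (b + 1) (by omega)
              omega
            refine ⟨(e1 - 1 - a) / 2, mem_Icc.2 ⟨by omega, by omega⟩, ?_⟩
            simp only [Prod.mk.injEq]
            omega
          · right
            have ha0 : a = e1 := by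
              by_contra hne
              have g1 := hpos (a - 1) (by omega)
              have g2 := hpos (b - 1) (by omega)
              have g3 := hnn (a - 1) (by omega)
              have g4 := hnn (b - 1) (by omega)
              omega
            refine ⟨(b - e1) / 2, mem_Icc.2 ⟨by omega, by omega⟩, ?_⟩
            simp only [Prod.mk.injEq]
            omega
        refine (card_le_card hsub).trans ((card_union_le _ _).trans ?_)
        refine Nat.add_le_add (card_image_le.trans ?_) (card_image_le.trans ?_)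
        · simp
        · simp
      have hcard2 : (pw l f e1).card + 1 ≤ l := by omega
      have hcard' : ((pw l f e1).card : ℤ) + 1 ≤ l := by exact_mod_cast hcard2
      omega
  · -- one zero
    have hc := hcount e0 le_rfl (by omega)
    have hcard : (pw l f e0).card ≤ (2 * l - e0) / 2 := by
      apply card_le_of_image (g := fun k => (e0, e0 + 2 * k))
      rintro ⟨a, b⟩ hab
      rw [mem_pw] at hab
      obtain ⟨⟨ha, hb⟩, hlt, hpar, hor⟩ := hab
      have ha0 : a = e0 := by
        rcases hor with ⟨hbh, hor⟩ | ⟨hah, hor⟩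
        · exfalso
          have g1 := hpos (a + 1) (by omega)
          have g2 := hnn (b + 1) (by omega)
          omega
        · by_contra hne
          have g1 := hpos (a - 1) (by omega)
          have g2 := hpos (b - 1) (by omega)
          have g4 := hnn (b - 1) (by omega)
          omega
      refine ⟨(b - e0) / 2, by omega, by omega, ?_⟩
      simp only [Prod.mk.injEq]
      omega
    have he0l : e0 ≤ 2 * l := by omega
    have hB1' : 2 * (l : ℤ) ≤ T := by
      have : ((e1 - e0 : ℕ) : ℤ) = 1 := by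
        rw [h]; simp
      rw [this] at hB1
      linarith
    have hB2' : 4 * (l : ℤ) - 6 ≤ T := by
      have : ((e1 - e0 : ℕ) : ℤ) = 1 := by
        rw [h]; simp
      rw [this] at hB2
      linarith
    have hj : e0 = l := by
      have hcard2 : 2 * (pw l f e0).card + e0 ≤ 2 * l := by omega
      have hcard' : 2 * ((pw l f e0).card : ℤ) + e0 ≤ 2 * l := by exact_mod_cast hcard2
      have h5 : ((e0 : ℤ) - l) ^ 2 ≤ 0 := by nlinarith
      have h6 : (e0 : ℤ) - l = 0 := by
        have := sq_nonneg ((e0 : ℤ) - l)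
        have h7 : ((e0 : ℤ) - l) ^ 2 = 0 := le_antisymm h5 this
        exact pow_eq_zero_iff (two_ne_zero) |>.1 h7
      omega
    subst hj
    simp only [sub_self, zero_mul, add_zero] at hc
    have hl2 : e0 = 2 := by
      have hcard' : ((pw e0 f e0).card : ℤ) ≤ ((2 * e0 - e0) / 2 : ℕ) := by exact_mod_cast hcard
      omega
    subst hl2
    have hcard' : ((pw 2 f 2).card : ℤ) ≤ ((2 * 2 - 2) / 2 : ℕ) := by exact_mod_cast hcard
    have hT4 : T ≤ 4 := by omega
    right; right; left
    have k0 := sum_ge_one_of (l := 2) (f := f) (k := 0) (by omega)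
    have k1 := sum_ge_one_of (l := 2) (f := f) (k := 1) (by omega)
    have k3 := sum_ge_one_of (l := 2) (f := f) (k := 3) (by omega)
    have k4 := sum_ge_one_of (l := 2) (f := f) (k := 4) (by omega)
    rw [hZ, ← hT, h] at k0 k1 k3 k4
    have p0 := hpos 0 (by omega)
    have p1 := hpos 1 (by omega)
    have p3 := hnn 3 (by omega)
    have p4 := hnn 4 (by omega)
    have a0 : 0 < f 0 := by omega
    have a1 : 0 < f 1 := by omega
    have a3 : f 3 < 0 := by omega
    have a4 : f 4 < 0 := by omega
    rw [abs_of_pos a0] at k0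
    rw [abs_of_pos a1] at k1
    rw [abs_of_neg a3] at k3
    rw [abs_of_neg a4] at k4
    push_cast at k0 k1 k3 k4
    refine ⟨rfl, ?_, ?_, ?_, ?_⟩ <;> omega
  · -- two zeros
    have hc := hcount (e0 + 1) (by omega) (by omega)
    have hcard : (pw l f (e0 + 1)).card ≤ 0 := by
      apply card_le_of_image (g := fun k => (k, k))
      rintro ⟨a, b⟩ hab
      exfalso
      rw [mem_pw] at hab
      obtain ⟨⟨ha, hb⟩, hlt, hpar, hor⟩ := hab
      rcases hor with ⟨hbh, hor⟩ | ⟨hah, hor⟩
      · have g1 := hpos (a + 1) (by omega)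
        have g2 := hnn (b + 1) (by omega)
        omega
      · have g1 := hpos (a - 1) (by omega)
        have g4 := hnn (b - 1) (by omega)
        omega
    have hcard' : ((pw l f (e0 + 1)).card : ℤ) ≤ 0 := by exact_mod_cast hcard
    have hp := hprod (((e0 + 1 : ℕ) : ℤ) - l)
    have hB1' : 2 * (l : ℤ) - 1 ≤ T := by
      have : ((e1 - e0 : ℕ) : ℤ) = 2 := by
        rw [h]; simp
      rw [this] at hB1
      linarith
    have hl1 : l = 1 := by omega
    subst hl1
    have k0 := sum_ge_one_of (l := 1) (f := f) (k := 0) (by omega)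
    have k2 := sum_ge_one_of (l := 1) (f := f) (k := 2) (by omega)
    rw [hZ, ← hT, h] at k0 k2
    have z0 := hzero 0 (by omega)
    have z1 := hzero 1 (by omega)
    have z2 := hzero 2 (by omega)
    have p0 := hpos 0 (by omega)
    have p2 := hnn 2 (by omega)
    have e0' : e0 = 0 ∨ e0 = 1 := by omega
    rcases e0' with h' | h'
    · left
      have a2 : f 2 < 0 := by omega
      rw [abs_of_neg a2] at k2
      push_cast at k2
      refine ⟨rfl, by omega, by omega, by omega⟩
    · right; left
      have a0 : 0 < f 0 := by omega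
      rw [abs_of_pos a0] at k0
      push_cast at k0
      refine ⟨rfl, by omega, by omega, by omega⟩
  · -- three zeros
    have hB1' : 2 * (l : ℤ) - 2 ≤ T := by
      have : ((e1 - e0 : ℕ) : ℤ) = 3 := by
        rw [h]; simp
      rw [this] at hB1
      linarith
    have hc1 := hcount (e0 + 1) (by omega) (by omega)
    have hc2 := hcount (e0 + 2) (by omega) (by omega)
    have hcard1 : (pw l f (e0 + 1)).card ≤ 1 := by
      apply card_le_of_image (g := fun _ => (e0 + 1, e0 + 3))
      rintro ⟨a, b⟩ hab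
      rw [mem_pw] at hab
      obtain ⟨⟨ha, hb⟩, hlt, hpar, hor⟩ := hab
      rcases hor with ⟨hbh, hor⟩ | ⟨hah, hor⟩
      · exfalso
        have g1 := hpos (a + 1) (by omega)
        have g2 := hnn (b + 1) (by omega)
        omega
      · have g1 := hpos (a - 1) (by omega)
        have g4 := hnn (b - 1) (by omega)
        refine ⟨1, le_rfl, le_rfl, ?_⟩
        simp only [Prod.mk.injEq]
        omega
    have hcard2 : (pw l f (e0 + 2)).card ≤ 1 := by
      apply card_le_of_image (g := fun _ => (e0 - 1, e0 + 1))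
      rintro ⟨a, b⟩ hab
      rw [mem_pw] at hab
      obtain ⟨⟨ha, hb⟩, hlt, hpar, hor⟩ := hab
      rcases hor with ⟨hbh, hor⟩ | ⟨hah, hor⟩
      · have g1 := hpos (a + 1) (by omega)
        have g2 := hnn (b + 1) (by omega)
        refine ⟨1, le_rfl, le_rfl, ?_⟩
        simp only [Prod.mk.injEq]
        omega
      · exfalso
        have g1 := hpos (a - 1) (by omega)
        have g4 := hnn (b - 1) (by omega)
        omega
    have hcard1' : ((pw l f (e0 + 1)).card : ℤ) ≤ 1 := by exact_mod_cast hcard1
    have hcard2' : ((pw l f (e0 + 2)).card : ℤ) ≤ 1 := by exact_mod_cast hcard2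
    have hp1 := hprod (((e0 + 1 : ℕ) : ℤ) - l)
    have hp2 := hprod (((e0 + 2 : ℕ) : ℤ) - l)
    have hd1 : (((e0 + 1 : ℕ) : ℤ) - l) * (((e0 + 1 : ℕ) : ℤ) - l - 1) ≤ l + 2 - T := by
      linarith
    have hd2 : (((e0 + 2 : ℕ) : ℤ) - l) * (((e0 + 2 : ℕ) : ℤ) - l - 1) ≤ l + 2 - T := by
      linarith
    have hz0 := (hzero e0 (by omega)).2 (by omega)
    have hz1 := (hzero (e0 + 1) (by omega)).2 (by omega)
    have hz2 := (hzero (e0 + 2) (by omega)).2 (by omega)
    have hl4 : l ≤ 4 := by omega
    rcases (show l = 1 ∨ l = 2 ∨ l = 3 ∨ l = 4 by omega) with h' | h' | h' | h'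
    · subst h'
      left
      have : e0 = 0 := by omega
      subst this
      refine ⟨rfl, hz0, hz1, ?_⟩
      simp only [Nat.zero_add] at hz2
      omega
    · right; right; right
      refine ⟨e0, by omega, hz0, hz1, hz2, fun i hi => (hpos i (by omega)).2 hi, ?_, Or.inl h'⟩
      intro i hi hi'
      have := hnn i (by omega)
      omega
    · right; right; right
      refine ⟨e0, by omega, hz0, hz1, hz2, fun i hi => (hpos i (by omega)).2 hi, ?_,
        Or.inr (Or.inl ⟨h', ?_⟩)⟩
      · intro i hi hi'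
        have := hnn i (by omega)
        omega
      · subst h'
        have he : e0 ≤ 4 := by omega
        interval_cases e0 <;> first | rfl | (exfalso; push_cast at hd1 hd2; omega)
    · right; right; right
      have he3 : e0 = 3 := by
        subst h'
        have he : e0 ≤ 6 := by omega
        interval_cases e0 <;> first | rfl | (exfalso; push_cast at hd1 hd2; omega)
      have hT6 : T ≤ 6 := by
        subst h'
        subst he3
        push_cast at hc1
        omega
      refine ⟨e0, by omega, hz0, hz1, hz2, fun i hi => (hpos i (by omega)).2 hi, ?_,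
        Or.inr (Or.inr ⟨h', he3, ?_, ?_⟩)⟩
      · intro i hi hi'
        have := hnn i (by omega)
        omega
      · subst h'
        subst he3
        have k := sum_ge_one_of (l := 4) (f := f) (k := 1) (by omega)
        rw [hZ, ← hT, h] at k
        have p := hpos 1 (by omega)
        have a : 0 < f 1 := by omega
        rw [abs_of_pos a] at k
        push_cast at k
        omega
      · subst h'
        subst he3
        have k := sum_ge_one_of (l := 4) (f := f) (k := 7) (by omega)
        rw [hZ, ← hT, h] at k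
        have p := hnn 7 (by omega)
        have a : f 7 < 0 := by omega
        rw [abs_of_neg a] at k
        push_cast at k
        omega

end Pool.Agent.MP_dd0645_co
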