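import Mathlib

/-!
# Maximal configurations: first consequences of the exchange properties
-/

namespace Pool.Agent.MP_dd0645_co

open Finset

/-- The colour of the `i`-th edge of the path: red (`false`) for even `i`. -/
def col (i : ℕ) : Bool := decide (i % 2 = 1)

lemma col_succ (i : ℕ) : col (i + 1) = !col i := by
  unfold col
  rcases Nat.mod_two_eq_zero_or_one i with h | h
  · have : (i + 1) % 2 = 1 := by omega
    simp [h, this]
  · have : (i + 1) % 2 = 0 := by omega
    simp [h, this]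

lemma col_add_two (i : ℕ) : col (i + 2) = col i := by
  rw [col_succ, col_succ, Bool.not_not]

lemma col_eq_iff (i j : ℕ) : col i = col j ↔ i % 2 = j % 2 := by
  unfold col
  rcases Nat.mod_two_eq_zero_or_one i with h | h <;>
    rcases Nat.mod_two_eq_zero_or_one j with h' | h' <;> simp [h, h']

lemma not_col_ne (i : ℕ) : (!col i) ≠ col i := by cases col i <;> decide

lemma bool_eq_not_iff {a b : Bool} : a = !b ↔ ¬ a = b := by cases a <;> cases b <;> decide

/-- A maximal configuration. `c` is the colouring, `p 0, …, p (2l)` is the path, `τ g` is the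
matching of colour `g` outside of the path; the fields `E1`–`E4` say that no exchange enlarges the
component of the path. -/
structure Config (V : Type) [Fintype V] [DecidableEq V] where
  c : V → V → Bool
  n : ℕ
  l : ℕ
  p : ℕ → V
  τ : Bool → V → V
  symm : ∀ x y, c x y = c y x
  deg : ∀ x g, (univ.filter (fun y => y ≠ x ∧ c x y = g)).card = n
  inj : ∀ i j, i ≤ 2 * l → j ≤ 2 * l → p i = p j → i = j
  ττ : ∀ g x, τ g (τ g x) = x
  τW : ∀ g x, (∀ i ≤ 2 * l, p i ≠ x) → ∀ i ≤ 2 * l, p i ≠ τ g x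
  τne : ∀ g x, (∀ i ≤ 2 * l, p i ≠ x) → τ g x ≠ x
  τcol : ∀ g x, (∀ i ≤ 2 * l, p i ≠ x) → c x (τ g x) = g
  nonempty : ∃ x, ∀ i ≤ 2 * l, p i ≠ x
  E1 : ∀ i, i < 2 * l → ∀ x, (∀ k ≤ 2 * l, p k ≠ x) → c (p (i + 1)) x = col i →
    c (p i) (τ (col i) x) = col i → False
  E2a : ∀ i j, i < j → j < 2 * l → col i = col j → ∀ x, (∀ k ≤ 2 * l, p k ≠ x) →
    c (p i) x = col i → c (p j) (τ (col i) x) = col i → c (p (i + 1)) (p (j + 1)) = col i → False
  E2b : ∀ i j, i < j → j < 2 * l → col i = col j → ∀ x, (∀ k ≤ 2 * l, p k ≠ x) →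
    c (p (i + 1)) x = col i → c (p (j + 1)) (τ (col i) x) = col i → c (p i) (p j) = col i → False
  E3 : ∀ i, i < 2 * l → ∀ y z, (∀ k ≤ 2 * l, p k ≠ y) → (∀ k ≤ 2 * l, p k ≠ z) → y ≠ z →
    τ (col i) y ≠ z → c (p i) (τ (col i) y) = col i → c (p (i + 1)) (τ (col i) z) = col i →
    c y z = col i → False
  E4 : ∀ j, j + 3 ≤ 2 * l → ∀ y z, (∀ k ≤ 2 * l, p k ≠ y) → (∀ k ≤ 2 * l, p k ≠ z) → y ≠ z →
    τ (col j) y ≠ z → c (p j) y = col j → c (p (j + 1)) (τ (col j) z) = col j →
    c (p (j + 2)) z = col j → c (p (j + 3)) (τ (col j) y) = col j → False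

variable {V : Type} [Fintype V] [DecidableEq V]

namespace Config

variable (C : Config V)

/-- the vertices outside of the path -/
def W : Finset V := univ.filter (fun x => ∀ i ≤ 2 * C.l, C.p i ≠ x)

lemma mem_W {x : V} : x ∈ C.W ↔ ∀ i ≤ 2 * C.l, C.p i ≠ x := by simp [W]

lemma τ_mem {g : Bool} {x : V} (hx : x ∈ C.W) : C.τ g x ∈ C.W :=
  C.mem_W.2 (C.τW g x (C.mem_W.1 hx))

lemma p_notMem {i : ℕ} (hi : i ≤ 2 * C.l) : C.p i ∉ C.W := fun h => C.mem_W.1 h i hi rfl

/-- half of the number of vertices outside of the path -/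
def w : ℕ := C.n - C.l

lemma cardV : Fintype.card V = 2 * C.n + 1 := by
  have x := C.p 0
  have h1 := C.deg x true
  have h2 := C.deg x false
  have h3 : (univ : Finset V) = insert x ((univ.filter (fun y => y ≠ x ∧ C.c x y = true)) ∪
      (univ.filter (fun y => y ≠ x ∧ C.c x y = false))) := by
    ext y
    simp only [mem_univ, mem_insert, mem_union, mem_filter, true_and, true_iff]
    by_cases h : y = x
    · exact Or.inl h
    · right
      cases C.c x y <;> simp [h]
  rw [← card_univ, h3, card_insert_of_notMem (by simp), card_union_of_disjoint, h1, h2]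
  · ring
  · rw [disjoint_left]
    intro y hy hy'
    simp only [mem_filter, mem_univ, true_and] at hy hy'
    rw [hy.2] at hy'
    exact absurd hy'.2 (by decide)

/-- the path as a set -/
def K : Finset V := (range (2 * C.l + 1)).image C.p

lemma cardK : C.K.card = 2 * C.l + 1 := by
  rw [K, card_image_of_injOn, card_range]
  intro i hi j hj h
  rw [mem_coe, mem_range] at hi hj
  exact C.inj i j (by omega) (by omega) h

lemma K_disj : Disjoint C.K C.W := by
  rw [disjoint_left]
  intro x hx hx'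
  rw [K, mem_image] at hx
  obtain ⟨i, hi, rfl⟩ := hx
  rw [mem_range] at hi
  exact C.p_notMem (by omega) hx'

lemma K_union : C.K ∪ C.W = univ := by
  ext x
  simp only [mem_union, mem_univ, iff_true]
  by_cases h : x ∈ C.W
  · exact Or.inr h
  · left
    rw [C.mem_W] at h
    push Not at h
    obtain ⟨i, hi, rfl⟩ := h
    rw [K, mem_image]
    exact ⟨i, by rw [mem_range]; omega, rfl⟩

lemma cardW_add : C.W.card + (2 * C.l + 1) = 2 * C.n + 1 := by
  rw [← C.cardK, ← C.cardV, ← card_univ, ← C.K_union, card_union_of_disjoint C.K_disj, add_comm]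

lemma n_eq : C.n = C.l + C.w := by
  have := C.cardW_add
  unfold w
  omega

lemma cardW : C.W.card = 2 * C.w := by
  have := C.cardW_add
  unfold w
  omega

lemma two_le_w : 2 ≤ C.w := by
  obtain ⟨x, hx⟩ := C.nonempty
  have hx' := C.mem_W.2 hx
  have h1 : C.τ false x ≠ x := C.τne false x hx
  have h2 : C.τ true x ≠ x := C.τne true x hx
  have h3 : C.τ false x ≠ C.τ true x := by
    intro h
    have e1 := C.τcol false x hx
    have e2 := C.τcol true x hx
    rw [h, e2] at e1
    exact absurd e1 (by decide)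
  have h4 : ({x, C.τ false x, C.τ true x} : Finset V) ⊆ C.W := by
    intro y hy
    simp only [mem_insert, mem_singleton] at hy
    rcases hy with rfl | rfl | rfl
    · exact hx'
    · exact C.τ_mem hx'
    · exact C.τ_mem hx'
  have h5 := card_le_card h4
  rw [card_insert_of_notMem, card_insert_of_notMem, card_singleton, C.cardW] at h5
  · omega
  · simpa using h3
  · simp [h1.symm, h2.symm]

/-- The set `A_i`: the vertices outside of the path joined to `p_i` in the colour different from
that of the `i`-th edge. -/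
def A (i : ℕ) : Finset V := C.W.filter (fun x => C.c (C.p i) x = !col i)

lemma mem_A {i : ℕ} {x : V} : x ∈ C.A i ↔ x ∈ C.W ∧ C.c (C.p i) x = !col i := by
  rw [A, mem_filter]

lemma A_sub (i : ℕ) : C.A i ⊆ C.W := filter_subset _ _

lemma notMem_A {i : ℕ} {x : V} (hx : x ∈ C.W) : x ∉ C.A i ↔ C.c (C.p i) x = col i := by
  rw [C.mem_A]
  constructor
  · intro h
    have h2 : ¬ C.c (C.p i) x = !col i := fun h' => h ⟨hx, h'⟩
    revert h2
    cases C.c (C.p i) x <;> cases col i <;> decide
  · rintro h ⟨-, h'⟩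
    rw [h] at h'
    exact not_col_ne i h'.symm

/-- the size of `A_i` -/
def S (i : ℕ) : ℕ := (C.A i).card

lemma S_le (i : ℕ) : C.S i ≤ 2 * C.w := by
  rw [← C.cardW]
  exact card_le_card (C.A_sub i)

/-- the sets `A_i` shrink along the path -/
lemma F1 {i : ℕ} (hi : i < 2 * C.l) {x : V} (hx : x ∈ C.A (i + 1)) : C.τ (col i) x ∈ C.A i := by
  rw [C.mem_A] at hx
  by_contra h
  rw [C.notMem_A (C.τ_mem hx.1)] at h
  refine C.E1 i hi x (C.mem_W.1 hx.1) ?_ h
  rw [hx.2, col_succ, Bool.not_not]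

lemma τ_inj (g : Bool) : Function.Injective (C.τ g) := by
  intro x y h
  rw [← C.ττ g x, h, C.ττ]

lemma S_succ_le {i : ℕ} (hi : i < 2 * C.l) : C.S (i + 1) ≤ C.S i := by
  unfold S
  rw [← card_image_of_injective _ (C.τ_inj (col i))]
  apply card_le_card
  intro y hy
  rw [mem_image] at hy
  obtain ⟨x, hx, rfl⟩ := hy
  exact C.F1 hi hx

lemma S_anti {i j : ℕ} (hij : i ≤ j) (hj : j ≤ 2 * C.l) : C.S j ≤ C.S i := by
  induction j, hij using Nat.le_induction with
  | base => exact le_rfl
  | succ j hij ih => exact (C.S_succ_le (by omega)).trans (ih (by omega))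

/-- **The star lemma.** -/
lemma star {i : ℕ} (hi : i < 2 * C.l) {y z : V} (hy : y ∈ C.W) (hy' : C.τ (col i) y ∉ C.A i)
    (hz : z ∈ C.W) (hz' : C.τ (col i) z ∈ C.A (i + 1)) (hyz : y ≠ z) : C.c y z = !col i := by
  rw [bool_eq_not_iff]
  intro h
  have h1 : C.τ (col i) y ≠ z := by
    intro h'
    apply hy'
    rw [h']
    have := C.F1 hi hz'
    rwa [C.ττ] at this
  rw [C.notMem_A (C.τ_mem hy)] at hy'
  rw [C.mem_A, col_succ, Bool.not_not] at hz'
  exact C.E3 i hi y z (C.mem_W.1 hy) (C.mem_W.1 hz) hyz h1 hy' hz'.2 h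

/-- tight edges -/
lemma tight {i : ℕ} (hi : i < 2 * C.l) (h : C.S i = C.S (i + 1)) {x : V} :
    x ∈ C.A i ↔ C.τ (col i) x ∈ C.A (i + 1) := by
  have h1 : (C.A (i + 1)).image (C.τ (col i)) = C.A i := by
    apply eq_of_subset_of_card_le
    · intro y hy
      rw [mem_image] at hy
      obtain ⟨x, hx, rfl⟩ := hy
      exact C.F1 hi hx
    · rw [card_image_of_injective _ (C.τ_inj _)]
      exact le_of_eq h
  constructor
  · intro hx
    rw [← h1, mem_image] at hx
    obtain ⟨y, hy, rfl⟩ := hx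
    rwa [C.ττ]
  · intro hx
    rw [← h1, mem_image]
    exact ⟨_, hx, C.ττ _ _⟩

/-- the star lemma at a tight edge -/
lemma star_tight {i : ℕ} (hi : i < 2 * C.l) (h : C.S i = C.S (i + 1)) {x y : V}
    (hx : x ∈ C.A i) (hy : y ∈ C.W) (hy' : y ∉ C.A (i + 1)) (hxy : x ≠ y) :
    C.c x y = !col i := by
  rw [C.symm]
  apply C.star hi hy _ (C.A_sub _ hx) ((C.tight hi h).1 hx) hxy.symm
  rw [C.tight hi h, C.ττ]
  exact hy'

/-- the number of path vertices joined to `x` in colour `g` -/
def cnt (g : Bool) (x : V) : ℕ := ((range (2 * C.l + 1)).filter (fun i => C.c (C.p i) x = g)).card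

lemma degW (g : Bool) {x : V} (hx : x ∈ C.W) :
    C.n = (C.W.filter (fun y => y ≠ x ∧ C.c x y = g)).card + C.cnt g x := by
  rw [← C.deg x g]
  have e1 : univ.filter (fun y => y ≠ x ∧ C.c x y = g) =
      (C.W.filter (fun y => y ≠ x ∧ C.c x y = g)) ∪
      ((range (2 * C.l + 1)).filter (fun i => C.c (C.p i) x = g)).image C.p := by
    ext y
    simp only [mem_filter, mem_univ, true_and, mem_union, mem_image, mem_range]
    constructor
    · intro h
      by_cases hy : y ∈ C.W
      · exact Or.inl ⟨hy, h⟩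
      · right
        rw [C.mem_W] at hy
        push Not at hy
        obtain ⟨i, hi, rfl⟩ := hy
        exact ⟨i, ⟨by omega, by rw [C.symm]; exact h.2⟩, rfl⟩
    · rintro (h | ⟨i, ⟨hi, hc⟩, rfl⟩)
      · exact h.2
      · refine ⟨?_, by rw [C.symm]; exact hc⟩
        rintro rfl
        exact C.p_notMem (by omega) hx
  rw [e1, card_union_of_disjoint]
  · congr 1
    rw [cnt, card_image_of_injOn]
    intro i hi j hj h
    rw [mem_coe, mem_filter, mem_range] at hi hj
    exact C.inj i j (by omega) (by omega) h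
  · rw [disjoint_left]
    intro y hy hy'
    rw [mem_filter] at hy
    rw [mem_image] at hy'
    obtain ⟨i, hi, rfl⟩ := hy'
    rw [mem_filter, mem_range] at hi
    exact C.p_notMem (by omega) hy.1

/-- a lower bound for the degree in colour `g` -/
lemma degW_ge (g : Bool) {x : V} (hx : x ∈ C.W) (D : Finset V) (hD : D ⊆ C.W)
    (hc : ∀ y ∈ D, y ≠ x → C.c x y = g) : D.card ≤ C.n - C.cnt g x + 1 := by
  have h := C.degW g hx
  have h1 : D ⊆ insert x (C.W.filter (fun y => y ≠ x ∧ C.c x y = g)) := by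
    intro y hy
    rw [mem_insert, mem_filter]
    by_cases hyx : y = x
    · exact Or.inl hyx
    · exact Or.inr ⟨hD hy, hyx, hc y hy hyx⟩
  have h2 := (card_le_card h1).trans (card_insert_le _ _)
  omega

/-- a lower bound for the degree in colour `g`, when `x` is not in the set -/
lemma degW_ge' (g : Bool) {x : V} (hx : x ∈ C.W) (D : Finset V) (hD : D ⊆ C.W) (hxD : x ∉ D)
    (hc : ∀ y ∈ D, C.c x y = g) : D.card + C.cnt g x ≤ C.n := by
  have h := C.degW g hx
  have h1 : D ⊆ C.W.filter (fun y => y ≠ x ∧ C.c x y = g) := by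
    intro y hy
    rw [mem_filter]
    exact ⟨hD hy, fun h => hxD (h ▸ hy), hc y hy⟩
  have h2 := card_le_card h1
  omega

lemma card_compl_A (i : ℕ) : (C.W \ C.A i).card = 2 * C.w - C.S i := by
  rw [card_sdiff_of_subset (C.A_sub i), C.cardW]
  rfl

end Config

end Pool.Agent.MP_dd0645_co
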