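import Mathlib
import Pool.Agent.Lib.MP_dd0645_co.Config

/-!
# No long plateaus
-/

namespace Pool.Agent.MP_dd0645_co

open Finset

namespace Config

variable {V : Type} [Fintype V] [DecidableEq V] (C : Config V)

/-- **No domination.** Three consecutive sets of the same size with `A_{j+2} = A_j` are equal. -/
lemma dom {j : ℕ} (hj : j + 2 ≤ 2 * C.l) (h1 : C.S j = C.S (j + 1))
    (h2 : C.S (j + 1) = C.S (j + 2)) (h3 : C.A (j + 2) = C.A j) : C.A (j + 1) = C.A j := by
  by_contra hne
  set g := col j with hg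
  have hg1 : col (j + 1) = !g := col_succ j
  have hj0 : j < 2 * C.l := by omega
  have hj1 : j + 1 < 2 * C.l := by omega
  -- a vertex of `X`
  obtain ⟨x, hxA, hxA'⟩ : ∃ x ∈ C.A j, x ∉ C.A (j + 1) := by
    by_contra hcon
    push Not at hcon
    exact hne (eq_of_subset_of_card_le hcon (le_of_eq h1.symm)).symm
  have hT1 : ∀ z, z ∈ C.A j ↔ C.τ g z ∈ C.A (j + 1) := fun z => C.tight hj0 h1
  have hT2 : ∀ z, z ∈ C.A (j + 1) ↔ C.τ (!g) z ∈ C.A j := by
    intro z
    have := C.tight hj1 h2 (x := z)
    rwa [hg1, h3] at this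
  -- both matchings exchange `X` and `Y`
  have hXY : ∀ g' z, z ∈ C.A j → z ∉ C.A (j + 1) → C.τ g' z ∈ C.A (j + 1) ∧ C.τ g' z ∉ C.A j := by
    intro g' z hz hz'
    have a1 : C.τ g z ∈ C.A (j + 1) := (hT1 z).1 hz
    have a2 : C.τ g z ∉ C.A j := fun h => hz' (by have := (hT1 _).1 h; rwa [C.ττ] at this)
    have b1 : C.τ (!g) z ∈ C.A (j + 1) := by
      rw [hT2, C.ττ]; exact hz
    have b2 : C.τ (!g) z ∉ C.A j := fun h => hz' ((hT2 z).2 h)
    by_cases hgg : g' = g
    · rw [hgg]; exact ⟨a1, a2⟩
    · have : g' = !g := bool_eq_not_iff.2 hgg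
      rw [this]; exact ⟨b1, b2⟩
  have hYX : ∀ g' z, z ∈ C.A (j + 1) → z ∉ C.A j → C.τ g' z ∈ C.A j ∧ C.τ g' z ∉ C.A (j + 1) := by
    intro g' z hz hz'
    have a1 : C.τ g z ∈ C.A j := by rw [hT1, C.ττ]; exact hz
    have a2 : C.τ g z ∉ C.A (j + 1) := fun h => hz' ((hT1 z).2 h)
    have b1 : C.τ (!g) z ∈ C.A j := (hT2 z).1 hz
    have b2 : C.τ (!g) z ∉ C.A (j + 1) := by
      intro h
      rw [hT2, C.ττ] at h
      exact hz' h
    by_cases hgg : g' = g
    · rw [hgg]; exact ⟨a1, a2⟩
    · have : g' = !g := bool_eq_not_iff.2 hgg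
      rw [this]; exact ⟨b1, b2⟩
  -- downwards along the path
  have hdown : ∀ k, k ≤ j → ((k % 2 = 0 → ∀ z, z ∈ C.A j → z ∉ C.A (j + 1) → z ∈ C.A (j - k)) ∧
      (k % 2 = 1 → ∀ z, z ∈ C.A (j + 1) → z ∉ C.A j → z ∈ C.A (j - k))) := by
    intro k
    induction k with
    | zero =>
      intro _
      exact ⟨fun _ z hz _ => hz, fun h => absurd h (by decide)⟩
    | succ k ih =>
      intro hk
      obtain ⟨ih1, ih2⟩ := ih (by omega)
      have e1 : j - k = (j - (k + 1)) + 1 := by omega
      constructor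
      · intro hpar z hz hz'
        have hy := hXY (col (j - (k + 1))) z hz hz'
        have := ih2 (by omega) _ hy.1 hy.2
        rw [e1] at this
        have h4 := C.F1 (by omega) this
        rwa [C.ττ] at h4
      · intro hpar z hz hz'
        have hy := hYX (col (j - (k + 1))) z hz hz'
        have := ih1 (by omega) _ hy.1 hy.2
        rw [e1] at this
        have h4 := C.F1 (by omega) this
        rwa [C.ττ] at h4
  -- upwards along the path
  have hup : ∀ k, j + k ≤ 2 * C.l →
      ((k % 2 = 0 → ∀ z, z ∈ C.A (j + 1) → z ∉ C.A j → z ∉ C.A (j + k)) ∧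
      (k % 2 = 1 → ∀ z, z ∈ C.A j → z ∉ C.A (j + 1) → z ∉ C.A (j + k))) := by
    intro k
    induction k with
    | zero =>
      intro _
      exact ⟨fun _ z _ hz => hz, fun h => absurd h (by decide)⟩
    | succ k ih =>
      intro hk
      obtain ⟨ih1, ih2⟩ := ih (by omega)
      constructor
      · intro hpar z hz hz' hzA
        have hy := hYX (col (j + k)) z hz hz'
        have h4 := C.F1 (i := j + k) (by omega) hzA
        exact ih2 (by omega) _ hy.1 hy.2 h4
      · intro hpar z hz hz' hzA
        have hy := hXY (col (j + k)) z hz hz'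
        have h4 := C.F1 (i := j + k) (by omega) hzA
        exact ih1 (by omega) _ hy.1 hy.2 h4
  set y := C.τ g x with hy
  obtain ⟨hyA', hyA⟩ := hXY g x hxA hxA'
  have hxW : x ∈ C.W := C.A_sub _ hxA
  have hyW : y ∈ C.W := C.A_sub _ hyA'
  -- the colours from the path
  have hpath : ∀ i ≤ 2 * C.l, C.c (C.p i) x = !g ∨ C.c (C.p i) y = g := by
    intro i hi
    rcases le_total i j with hij | hij
    · obtain ⟨d1, d2⟩ := hdown (j - i) (by omega)
      have e1 : j - (j - i) = i := by omega
      rw [e1] at d1 d2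
      rcases Nat.mod_two_eq_zero_or_one (j - i) with hp | hp
      · left
        have := (C.mem_A.1 (d1 hp x hxA hxA')).2
        rw [this, (col_eq_iff i j).2 (by omega)]
      · right
        have := (C.mem_A.1 (d2 hp y hyA' hyA)).2
        have e2 : col i = !g := by
          rw [← hg1, col_eq_iff]
          omega
        rw [this, e2, Bool.not_not]
    · obtain ⟨d1, d2⟩ := hup (i - j) (by omega)
      have e1 : j + (i - j) = i := by omega
      rw [e1] at d1 d2
      rcases Nat.mod_two_eq_zero_or_one (i - j) with hp | hp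
      · right
        have := (C.notMem_A hyW).1 (d1 hp y hyA' hyA)
        rw [this, (col_eq_iff i j).2 (by omega)]
      · left
        have := (C.notMem_A hxW).1 (d2 hp x hxA hxA')
        rw [this, ← hg1, col_eq_iff]
        omega
  have hthree : ∀ i, i = j ∨ i = j + 1 ∨ i = j + 2 → C.c (C.p i) x = !g ∧ C.c (C.p i) y = g := by
    intro i hi
    rcases hi with rfl | rfl | rfl
    · exact ⟨(C.mem_A.1 hxA).2, (C.notMem_A hyW).1 hyA⟩
    · have a1 := (C.notMem_A hxW).1 hxA'
      have a2 := (C.mem_A.1 hyA').2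
      rw [hg1] at a1 a2
      rw [Bool.not_not] at a2
      exact ⟨a1, a2⟩
    · rw [← h3] at hxA hyA
      have a1 := (C.mem_A.1 hxA).2
      have a2 := (C.notMem_A hyW).1 hyA
      rw [col_add_two] at a1 a2
      exact ⟨a1, a2⟩
  have hcnt : 2 * C.l + 1 + 3 ≤ C.cnt (!g) x + C.cnt g y := by
    unfold cnt
    rw [← card_union_add_card_inter]
    have u1 : range (2 * C.l + 1) ⊆ (range (2 * C.l + 1)).filter (fun i => C.c (C.p i) x = !g) ∪
        (range (2 * C.l + 1)).filter (fun i => C.c (C.p i) y = g) := by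
      intro i hi
      rw [mem_union, mem_filter, mem_filter]
      rcases hpath i (by rw [mem_range] at hi; omega) with h | h
      · exact Or.inl ⟨hi, h⟩
      · exact Or.inr ⟨hi, h⟩
    have u2 : ({j, j + 1, j + 2} : Finset ℕ) ⊆
        (range (2 * C.l + 1)).filter (fun i => C.c (C.p i) x = !g) ∩
        (range (2 * C.l + 1)).filter (fun i => C.c (C.p i) y = g) := by
      intro i hi
      simp only [mem_insert, mem_singleton] at hi
      rw [mem_inter, mem_filter, mem_filter, mem_range]
      have := hthree i hi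
      refine ⟨⟨?_, this.1⟩, ?_, this.2⟩ <;> omega
    have v1 := card_le_card u1
    have v2 := card_le_card u2
    rw [card_range] at v1
    have v3 : ({j, j + 1, j + 2} : Finset ℕ).card = 3 := by
      rw [card_insert_of_notMem, card_insert_of_notMem, card_singleton]
      · simp
      · simp
    omega
  -- the colours inside `W`
  have hX : (C.A j \ C.A (j + 1)).card = (C.A (j + 1) \ C.A j).card := card_sdiff_comm h1
  have hq : (C.A j \ C.A (j + 1)).card + (C.A (j + 1) \ C.A j).card ≤ 2 * C.w := by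
    rw [← C.cardW, ← card_union_of_disjoint]
    · apply card_le_card
      intro z hz
      rw [mem_union, mem_sdiff, mem_sdiff] at hz
      rcases hz with h | h
      · exact C.A_sub _ h.1
      · exact C.A_sub _ h.1
    · rw [disjoint_left]
      intro z hz hz'
      rw [mem_sdiff] at hz hz'
      exact hz.2 hz'.1
  have hx1 := C.degW_ge (!g) hxW (C.W \ (C.A (j + 1) \ C.A j)) sdiff_subset (by
    intro z hz hzx
    rw [mem_sdiff, mem_sdiff] at hz
    by_cases hzA : z ∈ C.A j
    · rw [C.symm]
      exact C.star_tight hj0 h1 hzA hxW hxA' hzx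
    · have hzA' : z ∉ C.A (j + 1) := fun h => hz.2 ⟨h, hzA⟩
      exact C.star_tight hj0 h1 hxA hz.1 hzA' hzx.symm)
  have hy1 := C.degW_ge g hyW (C.W \ (C.A j \ C.A (j + 1))) sdiff_subset (by
    intro z hz hzy
    rw [mem_sdiff, mem_sdiff] at hz
    have hgg : g = !col (j + 1) := by rw [hg1, Bool.not_not]
    rw [hgg]
    by_cases hzA : z ∈ C.A j
    · have hzA' : z ∈ C.A (j + 1) := by
        by_contra h
        exact hz.2 ⟨hzA, h⟩
      rw [C.symm]
      exact C.star_tight hj1 h2 hzA' hyW (by rw [h3]; exact hyA) hzy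
    · exact C.star_tight hj1 h2 hyA' hz.1 (by rw [h3]; exact hzA) hzy.symm)
  have s1 : (C.W \ (C.A (j + 1) \ C.A j)).card = 2 * C.w - (C.A (j + 1) \ C.A j).card := by
    rw [card_sdiff_of_subset, C.cardW]
    exact sdiff_subset.trans (C.A_sub _)
  have s2 : (C.W \ (C.A j \ C.A (j + 1))).card = 2 * C.w - (C.A j \ C.A (j + 1)).card := by
    rw [card_sdiff_of_subset, C.cardW]
    exact sdiff_subset.trans (C.A_sub _)
  have n1 := C.degW (!g) hxW
  have n2 := C.degW g hyW
  have n3 := C.n_eq
  rw [s1] at hx1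
  rw [s2] at hy1
  omega

/-- **No long plateaus.** -/
lemma plateau {j : ℕ} (hj : j + 3 ≤ 2 * C.l) (h : C.S j = C.S (j + 3)) :
    C.S j = 0 ∨ C.S j = 2 * C.w := by
  have m1 : C.S (j + 1) ≤ C.S j := C.S_succ_le (by omega)
  have m2 : C.S (j + 2) ≤ C.S (j + 1) := C.S_succ_le (by omega)
  have m3 : C.S (j + 3) ≤ C.S (j + 2) := C.S_succ_le (by omega)
  have h1 : C.S j = C.S (j + 1) := by omega
  have h2 : C.S (j + 1) = C.S (j + 2) := by omega
  have h3 : C.S (j + 2) = C.S (j + 3) := by omega
  have hj0 : j < 2 * C.l := by omega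
  have hj1 : j + 1 < 2 * C.l := by omega
  have hj2 : j + 2 < 2 * C.l := by omega
  set g := col j with hg
  have hg1 : col (j + 1) = !g := col_succ j
  have hg2 : col (j + 2) = g := col_add_two j
  have hT1 : ∀ z, z ∈ C.A j ↔ C.τ g z ∈ C.A (j + 1) := fun z => C.tight hj0 h1
  have hT2 : ∀ z, z ∈ C.A (j + 1) ↔ C.τ (!g) z ∈ C.A (j + 2) := by
    intro z
    have := C.tight hj1 h2 (x := z)
    rwa [hg1] at this
  have hT3 : ∀ z, z ∈ C.A (j + 2) ↔ C.τ g z ∈ C.A (j + 3) := by
    intro z
    have := C.tight hj2 h3 (x := z)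
    rwa [hg2] at this
  -- E4
  have hE4 : ∀ y z, y ∈ C.A (j + 2) → y ∉ C.A j → z ∈ C.A j → z ∉ C.A (j + 2) → C.τ g y = z := by
    intro y z hy hy' hz hz'
    by_contra hne
    have hyW := C.A_sub _ hy
    have hzW := C.A_sub _ hz
    refine C.E4 j hj y z (C.mem_W.1 hyW) (C.mem_W.1 hzW) ?_ hne ((C.notMem_A hyW).1 hy') ?_ ?_ ?_
    · rintro rfl
      exact hy' hz
    · have := (C.mem_A.1 ((hT1 z).1 hz)).2
      rw [hg1, Bool.not_not] at this
      exact this
    · have := (C.notMem_A hzW).1 hz'
      rw [hg2] at this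
      exact this
    · have := (C.mem_A.1 ((hT3 y).1 hy)).2
      rw [show j + 3 = (j + 2) + 1 from rfl, col_succ, hg2, Bool.not_not] at this
      exact this
  by_cases heq : C.A (j + 2) = C.A j
  · have h4 := C.dom (by omega) h1 h2 heq
    by_contra hcon
    push Not at hcon
    have hne1 : (C.A j).Nonempty := by
      rw [← card_pos]
      have := hcon.1
      unfold S at this
      omega
    have hne2 : ∃ y ∈ C.W, y ∉ C.A j := by
      by_contra hc
      push Not at hc
      have : C.W.card ≤ (C.A j).card := card_le_card hc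
      rw [C.cardW] at this
      have h5 := C.S_le j
      unfold S at hcon h5
      omega
    obtain ⟨x, hx⟩ := hne1
    obtain ⟨y, hy, hy'⟩ := hne2
    have hxy : x ≠ y := by
      rintro rfl
      exact hy' hx
    have e1 := C.star_tight hj0 h1 hx hy (by rw [h4]; exact hy') hxy
    have e2 := C.star_tight hj1 h2 (by rw [h4]; exact hx) hy (by rw [heq]; exact hy') hxy
    rw [hg1, Bool.not_not, e1] at e2
    exact not_col_ne j e2
  · exfalso
    -- exactly one exceptional element
    obtain ⟨y, hy, hy'⟩ : ∃ y ∈ C.A (j + 2), y ∉ C.A j := by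
      by_contra hcon
      push Not at hcon
      exact heq (eq_of_subset_of_card_le hcon (by unfold S at h1 h2; omega))
    obtain ⟨z, hz, hz'⟩ : ∃ z ∈ C.A j, z ∉ C.A (j + 2) := by
      by_contra hcon
      push Not at hcon
      exact heq (eq_of_subset_of_card_le hcon (by unfold S at h1 h2; omega)).symm
    have hτ : C.τ g y = z := hE4 y z hy hy' hz hz'
    have hτ' : C.τ g z = y := by rw [← hτ, C.ττ]
    have hzuniq : ∀ z', z' ∈ C.A j → z' ∉ C.A (j + 2) → z' = z := by
      intro z' h5 h6
      rw [← hE4 y z' hy hy' h5 h6, hτ]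
    have hyW := C.A_sub _ hy
    have hzW := C.A_sub _ hz
    have hyz : y ≠ z := by
      rintro rfl
      exact hy' hz
    have hzA1 : z ∉ C.A (j + 1) := by
      intro h5
      apply hy'
      rw [hT1, hτ]
      exact h5
    have hyA1 : y ∈ C.A (j + 1) := by
      rw [← hτ']
      exact (hT1 z).1 hz
    have hyA3 : y ∉ C.A (j + 3) := by
      intro h5
      apply hz'
      rw [hT3, hτ']
      exact h5
    -- `A_j` and `A_{j+1}` are disjoint
    have hd1 : ∀ x, x ∈ C.A j → x ∉ C.A (j + 1) := by
      intro x hx hx'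
      have hxz : x ≠ z := by
        rintro rfl
        exact hzA1 hx'
      have e1 := C.star_tight hj0 h1 hx hzW hzA1 hxz
      have e2 := C.star_tight hj1 h2 hx' hzW hz' hxz
      rw [hg1, Bool.not_not, e1] at e2
      exact not_col_ne j e2
    -- the complements of `A_{j+2}` and `A_{j+3}` are disjoint
    have hd2 : ∀ x, x ∈ C.W → x ∉ C.A (j + 2) → x ∈ C.A (j + 3) := by
      intro x hx hx'
      by_contra hx''
      have hxy : y ≠ x := by
        rintro rfl
        exact hx' hy
      have e1 := C.star_tight hj2 h3 hy hx hx'' hxy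
      have e2 := C.star_tight hj1 h2 hyA1 hx hx' hxy
      rw [hg2] at e1
      rw [hg1, Bool.not_not, e1] at e2
      exact not_col_ne j e2
    have c1 : C.S j + C.S (j + 1) ≤ 2 * C.w := by
      unfold S
      rw [← C.cardW, ← card_union_of_disjoint (disjoint_left.2 hd1)]
      exact card_le_card (union_subset (C.A_sub _) (C.A_sub _))
    have c2 : 2 * C.w ≤ C.S (j + 2) + C.S (j + 3) := by
      rw [← C.cardW]
      unfold S
      refine le_trans (card_le_card ?_) (card_union_le _ _)
      intro x hx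
      rw [mem_union]
      by_cases hx' : x ∈ C.A (j + 2)
      · exact Or.inl hx'
      · exact Or.inr (hd2 x hx hx')
    have hS : C.S j = C.w := by omega
    -- `A_{j+1}` is the complement of `A_j`
    have hcompl : ∀ x ∈ C.W, x ∉ C.A j → x ∈ C.A (j + 1) := by
      have : C.A (j + 1) = C.W \ C.A j := by
        apply eq_of_subset_of_card_le
        · intro x hx
          rw [mem_sdiff]
          exact ⟨C.A_sub _ hx, fun h5 => hd1 x h5 hx⟩
        · rw [C.card_compl_A]
          change 2 * C.w - C.S j ≤ C.S (j + 1)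
          omega
      intro x hx hx'
      rw [this, mem_sdiff]
      exact ⟨hx, hx'⟩
    -- the partner of `z`
    have hzτ : C.τ (!g) z ∈ C.A j := by
      by_contra h5
      have h6 := hcompl _ (C.τ_mem hzW) h5
      rw [hT2, C.ττ] at h6
      exact hz' h6
    have hzτ' : C.τ (!g) z ∉ C.A (j + 2) := by
      intro h5
      rw [← hT2] at h5
      exact hzA1 h5
    have := hzuniq _ hzτ hzτ'
    exact C.τne (!g) z (C.mem_W.1 hzW) this

end Config

end Pool.Agent.MP_dd0645_co
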