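import Mathlib
import Pool.Agent.Lib.MP_dd0645_co.Plateau
import Pool.Agent.Lib.MP_dd0645_co.Numeric

/-!
# The counting inequality
-/

namespace Pool.Agent.MP_dd0645_co

open Finset

/-- blue counts `1`, red counts `-1` -/
def chi (b : Bool) : ℤ := if b then 1 else -1

/-- the sign of an index -/
def sgn (i : ℕ) : ℤ := if col i then -1 else 1

lemma sgn_sq (i : ℕ) : sgn i = 1 ∨ sgn i = -1 := by
  unfold sgn
  cases col i <;> simp

lemma chi_sq (b : Bool) : chi b = 1 ∨ chi b = -1 := by
  cases b <;> simp [chi]

lemma sgn_succ (i : ℕ) : sgn (i + 1) = - sgn i := by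
  unfold sgn
  rw [col_succ]
  cases col i <;> simp

lemma sum_sgn (l : ℕ) : ∑ i ∈ range (2 * l + 1), sgn i = 1 := by
  induction l with
  | zero => simp [sgn, col]
  | succ l ih =>
    rw [show 2 * (l + 1) + 1 = (2 * l + 1) + 1 + 1 by ring, sum_range_succ, sum_range_succ, ih,
      sgn_succ (2 * l + 1)]
    ring

/-- the part of an index -/
def prt (h i : ℕ) : ℤ := if i < h then 1 else -1

lemma prt_sq (h i : ℕ) : prt h i = 1 ∨ prt h i = -1 := by
  unfold prt
  split_ifs <;> simp

lemma sum_prt {h N : ℕ} (hN : h ≤ N) : ∑ i ∈ range N, prt h i = 2 * h - N := by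
  induction N, hN using Nat.le_induction with
  | base =>
    have : ∑ i ∈ range h, prt h i = ∑ i ∈ range h, (1 : ℤ) := by
      apply sum_congr rfl
      intro i hi
      rw [mem_range] at hi
      simp [prt, hi]
    rw [this, sum_const, card_range]
    simp
    ring
  | succ N hN ih =>
    rw [sum_range_succ, ih]
    have : prt h N = -1 := by
      simp [prt, hN]
    rw [this]
    push_cast
    ring

lemma sum_erase_mul (N : ℕ) (q : ℕ → ℤ) (hq : ∀ i, q i = 1 ∨ q i = -1) :
    ∑ a ∈ range N, ∑ b ∈ (range N).erase a, q a * q b = (∑ i ∈ range N, q i) ^ 2 - N := by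
  have h1 : ∀ a ∈ range N, ∑ b ∈ (range N).erase a, q a * q b =
      q a * (∑ i ∈ range N, q i) - 1 := by
    intro a ha
    rw [← mul_sum, ← add_sum_erase _ _ ha]
    rcases hq a with h | h <;> rw [h] <;> ring
  rw [sum_congr rfl h1, sum_sub_distrib, ← sum_mul, sum_const, card_range]
  simp
  ring

lemma sum_erase_comm (N : ℕ) (F : ℕ → ℕ → ℤ) :
    ∑ a ∈ range N, ∑ b ∈ (range N).erase a, F a b =
      ∑ a ∈ range N, ∑ b ∈ (range N).erase a, F b a := by
  apply sum_comm'
  intro a b
  simp only [mem_erase]
  constructor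
  · rintro ⟨h1, h2, h3⟩
    exact ⟨⟨h2.symm, h1⟩, h3⟩
  · rintro ⟨⟨h1, h2⟩, h3⟩
    exact ⟨h2, h1.symm, h3⟩

namespace Config

variable {V : Type} [Fintype V] [DecidableEq V] (C : Config V)

/-- the deviation of the size of `A_i` from `w` -/
def f (i : ℕ) : ℤ := (C.S i : ℤ) - C.w

lemma f_anti {i j : ℕ} (hij : i ≤ j) (hj : j ≤ 2 * C.l) : C.f j ≤ C.f i := by
  have := C.S_anti hij hj
  unfold f
  omega

lemma sum_chi_all (x : V) : ∑ y ∈ univ.erase x, chi (C.c x y) = 0 := by
  have h1 := C.deg x true
  have h2 := C.deg x false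
  have e : ∀ y, chi (C.c x y) = (if C.c x y = true then 1 else 0) -
      (if C.c x y = false then 1 else 0) := by
    intro y
    cases C.c x y <;> simp [chi]
  rw [sum_congr rfl (fun y _ => e y), sum_sub_distrib, sum_boole, sum_boole]
  have e1 : (univ.erase x).filter (fun y => C.c x y = true) =
      univ.filter (fun y => y ≠ x ∧ C.c x y = true) := by
    ext y; simp
  have e2 : (univ.erase x).filter (fun y => C.c x y = false) =
      univ.filter (fun y => y ≠ x ∧ C.c x y = false) := by
    ext y; simp
  rw [e1, e2, h1, h2, sub_self]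

lemma sum_chi_W (a : ℕ) : ∑ y ∈ C.W, chi (C.c (C.p a) y) = 2 * sgn a * C.f a := by
  have e : ∀ y ∈ C.W, chi (C.c (C.p a) y) = sgn a * (if y ∈ C.A a then 1 else -1) := by
    intro y hy
    by_cases h : y ∈ C.A a
    · rw [if_pos h, (C.mem_A.1 h).2]
      unfold chi sgn
      cases col a <;> simp
    · rw [if_neg h, (C.notMem_A hy).1 h]
      unfold chi sgn
      cases col a <;> simp
  rw [sum_congr rfl e, ← mul_sum]
  have e2 : ∑ y ∈ C.W, (if y ∈ C.A a then (1 : ℤ) else -1) = 2 * C.f a := by
    have e3 : ∀ y ∈ C.W, (if y ∈ C.A a then (1 : ℤ) else -1) =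
        2 * (if y ∈ C.A a then 1 else 0) - 1 := by
      intro y _
      split_ifs <;> norm_num
    rw [sum_congr rfl e3, sum_sub_distrib, ← mul_sum, sum_boole, sum_const, C.cardW]
    have e4 : C.W.filter (fun y => y ∈ C.A a) = C.A a := by
      ext y
      rw [mem_filter]
      exact ⟨fun h => h.2, fun h => ⟨C.A_sub _ h, h⟩⟩
    rw [e4]
    unfold f S
    push_cast
    simp
    ring
  rw [e2]
  ring

lemma row {a : ℕ} (ha : a ≤ 2 * C.l) :
    ∑ b ∈ (range (2 * C.l + 1)).erase a, chi (C.c (C.p a) (C.p b)) = -(2 * sgn a * C.f a) := by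
  have h1 := C.sum_chi_all (C.p a)
  have e1 : univ.erase (C.p a) = (C.K.erase (C.p a)) ∪ C.W := by
    ext y
    rw [mem_erase, mem_union, mem_erase]
    have hy : y ∈ C.K ∪ C.W := by rw [C.K_union]; exact mem_univ _
    rw [mem_union] at hy
    constructor
    · rintro ⟨h, -⟩
      rcases hy with hy | hy
      · exact Or.inl ⟨h, hy⟩
      · exact Or.inr hy
    · rintro (h | h)
      · exact ⟨h.1, mem_univ _⟩
      · refine ⟨?_, mem_univ _⟩
        rintro rfl
        exact C.p_notMem ha h
  rw [e1, sum_union, C.sum_chi_W] at h1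
  · have e2 : C.K.erase (C.p a) = ((range (2 * C.l + 1)).erase a).image C.p := by
      ext y
      rw [mem_erase, K, mem_image, mem_image]
      constructor
      · rintro ⟨h, b, hb, rfl⟩
        refine ⟨b, ?_, rfl⟩
        rw [mem_erase]
        exact ⟨fun h' => h (by rw [h']), hb⟩
      · rintro ⟨b, hb, rfl⟩
        rw [mem_erase, mem_range] at hb
        refine ⟨?_, b, by rw [mem_range]; exact hb.2, rfl⟩
        intro h
        exact hb.1 (C.inj b a (by omega) ha h)
    rw [e2, sum_image] at h1
    · linarith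
    · intro b hb b' hb' h
      rw [mem_coe, mem_erase, mem_range] at hb hb'
      exact C.inj b b' (by omega) (by omega) h
  · rw [disjoint_left]
    intro y hy hy'
    exact disjoint_left.1 C.K_disj (mem_of_mem_erase hy) hy'

/-- the indicator of a wrong pair -/
def wr (h a b : ℕ) : ℤ :=
  if sgn a = sgn b ∧ prt h a = prt h b ∧ sgn a * prt h a * chi (C.c (C.p a) (C.p b)) = -1
    then 1 else 0

lemma wr_symm (h a b : ℕ) : C.wr h a b = C.wr h b a := by
  unfold wr
  congr 1
  rw [C.symm (C.p b) (C.p a)]
  apply propext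
  constructor
  · rintro ⟨h1, h2, h3⟩
    exact ⟨h1.symm, h2.symm, by rw [← h1, ← h2]; exact h3⟩
  · rintro ⟨h1, h2, h3⟩
    exact ⟨h1.symm, h2.symm, by rw [← h1, ← h2]; exact h3⟩

lemma pair_ge (h a b : ℕ) :
    sgn a * sgn b + prt h a * prt h b - 4 * C.wr h a b ≤
      (sgn a * prt h a + sgn b * prt h b) * chi (C.c (C.p a) (C.p b)) := by
  unfold wr
  rcases sgn_sq a with h1 | h1 <;> rcases sgn_sq b with h2 | h2 <;>
    rcases prt_sq h a with h3 | h3 <;> rcases prt_sq h b with h4 | h4 <;>
    rcases chi_sq (C.c (C.p a) (C.p b)) with h5 | h5 <;>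
    rw [h1, h2, h3, h4, h5] <;> norm_num

lemma sum_wr_le (h : ℕ) (hpos : ∀ i < h, 0 ≤ C.f i)
    (hneg : ∀ i, h ≤ i → i ≤ 2 * C.l → C.f i ≤ 0) :
    ∑ a ∈ range (2 * C.l + 1), ∑ b ∈ (range (2 * C.l + 1)).erase a, C.wr h a b ≤
      2 * ((pw C.l C.f h).card : ℤ) := by
  have hsplit : ∀ a b : ℕ, a ≠ b → C.wr h a b ≤
      (if a < b then C.wr h a b else 0) + (if b < a then C.wr h b a else 0) := by
    intro a b hab
    rcases lt_or_gt_of_ne hab with hlt | hlt
    · rw [if_pos hlt, if_neg (by omega), add_zero]
    · rw [if_neg (by omega), if_pos hlt, zero_add, C.wr_symm]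
  have h1 : ∑ a ∈ range (2 * C.l + 1), ∑ b ∈ (range (2 * C.l + 1)).erase a, C.wr h a b ≤
      ∑ a ∈ range (2 * C.l + 1), ∑ b ∈ (range (2 * C.l + 1)).erase a,
        ((if a < b then C.wr h a b else 0) + (if b < a then C.wr h b a else 0)) := by
    apply sum_le_sum
    intro a _
    apply sum_le_sum
    intro b hb
    exact hsplit a b (ne_of_mem_erase hb).symm
  refine h1.trans ?_
  simp only [sum_add_distrib]
  rw [sum_erase_comm (2 * C.l + 1) (fun a b => if b < a then C.wr h b a else 0), ← two_mul]
  apply mul_le_mul_of_nonneg_left _ (by norm_num)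
  -- now count
  have h2 : ∑ a ∈ range (2 * C.l + 1), ∑ b ∈ (range (2 * C.l + 1)).erase a,
      (if a < b then C.wr h a b else 0) ≤ ∑ a ∈ range (2 * C.l + 1),
      ∑ b ∈ range (2 * C.l + 1), (if (a, b) ∈ pw C.l C.f h then (1 : ℤ) else 0) := by
    apply sum_le_sum
    intro a ha
    refine le_trans (sum_le_sum (g := fun b => if (a, b) ∈ pw C.l C.f h then (1 : ℤ) else 0) ?_)
      (sum_le_sum_of_subset_of_nonneg (erase_subset _ _) ?_)
    · intro b hb
      rw [mem_erase] at hb
      rw [mem_range] at ha hb
      by_cases hab : a < b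
      swap
      · rw [if_neg hab]
        split_ifs <;> norm_num
      rw [if_pos hab]
      by_cases hwr : sgn a = sgn b ∧ prt h a = prt h b ∧
          sgn a * prt h a * chi (C.c (C.p a) (C.p b)) = -1
      swap
      · unfold wr
        rw [if_neg hwr]
        split_ifs <;> norm_num
      rw [wr, if_pos hwr, if_pos]
      obtain ⟨e1, e2, e3⟩ := hwr
      have ecol : col a = col b := by
        unfold sgn at e1
        cases ha' : col a <;> cases hb' : col b <;> rw [ha', hb'] at e1 <;>
          first | rfl | (exfalso; norm_num at e1)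
      have hpar := (col_eq_iff a b).1 ecol
      rw [mem_pw]
      refine ⟨⟨ha, hb.2⟩, hab, hpar, ?_⟩
      by_cases hbh : b < h
      · left
        refine ⟨hbh, ?_⟩
        by_cases hbl : b = 2 * C.l
        · exact Or.inl hbl
        right
        have hah : a < h := by omega
        have hp : prt h a = 1 := by simp [prt, hah]
        rw [hp, mul_one] at e3
        have hlow : C.c (C.p a) (C.p b) = col a := by
          unfold sgn chi at e3
          cases ha' : col a <;> cases hc' : C.c (C.p a) (C.p b) <;> rw [ha', hc'] at e3 <;>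
            first | rfl | (exfalso; norm_num at e3)
        have hdisj : Disjoint ((C.A (a + 1)).image (C.τ (col a))) (C.A (b + 1)) := by
          rw [disjoint_left]
          intro y hy hy'
          rw [mem_image] at hy
          obtain ⟨x, hx, rfl⟩ := hy
          have hx' := C.mem_A.1 hx
          have hy'' := C.mem_A.1 hy'
          rw [col_succ, Bool.not_not] at hx' hy''
          rw [← ecol] at hy''
          exact C.E2b a b hab (by omega) ecol x (C.mem_W.1 hx'.1) hx'.2 hy''.2 hlow
        have hle : C.S (a + 1) + C.S (b + 1) ≤ 2 * C.w := by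
          unfold S
          rw [← C.cardW, ← card_image_of_injective (C.A (a + 1)) (C.τ_inj (col a)),
            ← card_union_of_disjoint hdisj]
          apply card_le_card
          intro y hy
          rw [mem_union, mem_image] at hy
          rcases hy with ⟨x, hx, rfl⟩ | hy
          · exact C.τ_mem (C.A_sub _ hx)
          · exact C.A_sub _ hy
        unfold f
        omega
      · right
        have hah : h ≤ a := by
          by_contra hcon
          unfold prt at e2
          rw [if_pos (by omega), if_neg hbh] at e2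
          norm_num at e2
        refine ⟨hah, ?_⟩
        by_cases ha0 : a = 0
        · exact Or.inl ha0
        right
        have hp : prt h a = -1 := by simp [prt, hah]
        rw [hp] at e3
        have hhigh : C.c (C.p a) (C.p b) = !col a := by
          unfold sgn chi at e3
          cases ha' : col a <;> cases hc' : C.c (C.p a) (C.p b) <;> rw [ha', hc'] at e3 <;>
            first | rfl | (exfalso; norm_num at e3)
        obtain ⟨a', rfl⟩ : ∃ a', a = a' + 1 := ⟨a - 1, by omega⟩
        obtain ⟨b', rfl⟩ : ∃ b', b = b' + 1 := ⟨b - 1, by omega⟩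
        rw [Nat.add_sub_cancel, Nat.add_sub_cancel]
        rw [col_succ, Bool.not_not] at hhigh
        have ecol' : col a' = col b' := by
          rw [col_eq_iff]; omega
        have hdisj : Disjoint ((C.W \ C.A a').image (C.τ (col a'))) (C.W \ C.A b') := by
          rw [disjoint_left]
          intro y hy hy'
          rw [mem_image] at hy
          obtain ⟨x, hx, rfl⟩ := hy
          rw [mem_sdiff] at hx hy'
          have h5 := (C.notMem_A hx.1).1 hx.2
          have h6 := (C.notMem_A hy'.1).1 hy'.2
          rw [← ecol'] at h6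
          exact C.E2a a' b' (by omega) (by omega) ecol' x (C.mem_W.1 hx.1) h5 h6 hhigh
        have hle : (2 * C.w - C.S a') + (2 * C.w - C.S b') ≤ 2 * C.w := by
          rw [← C.card_compl_A, ← C.card_compl_A,
            ← card_image_of_injective (C.W \ C.A a') (C.τ_inj (col a')),
            ← card_union_of_disjoint hdisj, ← C.cardW]
          apply card_le_card
          intro y hy
          rw [mem_union, mem_image] at hy
          rcases hy with ⟨x, hx, rfl⟩ | hy
          · exact C.τ_mem (sdiff_subset hx)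
          · exact sdiff_subset hy
        have s1 := C.S_le a'
        have s2 := C.S_le b'
        unfold f
        omega
    · intro b _ _
      split_ifs <;> norm_num
  refine h2.trans (le_of_eq ?_)
  rw [← sum_product', sum_boole]
  congr 2
  ext ⟨a, b⟩
  simp only [mem_filter, mem_product, mem_range]
  constructor
  · rintro ⟨-, h⟩
    exact h
  · intro h
    exact ⟨(mem_pw.1 h).1, h⟩

/-- **The counting inequality.** -/
lemma count (h : ℕ) (hh : h ≤ 2 * C.l + 1) (hpos : ∀ i < h, 0 ≤ C.f i)
    (hneg : ∀ i, h ≤ i → i ≤ 2 * C.l → C.f i ≤ 0) :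
    ∑ i ∈ range (2 * C.l + 1), |C.f i| + ((h : ℤ) - C.l) * ((h : ℤ) - C.l - 1) ≤
      C.l + 2 * ((pw C.l C.f h).card : ℤ) := by
  set N := 2 * C.l + 1 with hN
  set T := ∑ i ∈ range N, |C.f i| with hT
  -- the sum of all rows
  have r1 : ∑ a ∈ range N, ∑ b ∈ (range N).erase a,
      (sgn a * prt h a) * chi (C.c (C.p a) (C.p b)) = -(2 * T) := by
    rw [hT, mul_sum, ← sum_neg_distrib]
    apply sum_congr rfl
    intro a ha
    rw [mem_range] at ha
    rw [← mul_sum, C.row (by omega)]
    have : prt h a * C.f a = |C.f a| := by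
      unfold prt
      split_ifs with hah
      · rw [abs_of_nonneg (hpos a hah), one_mul]
      · rw [abs_of_nonpos (hneg a (by omega) (by omega))]
        ring
    rw [← this]
    rcases sgn_sq a with h1 | h1 <;> rw [h1] <;> ring
  have r2 : ∑ a ∈ range N, ∑ b ∈ (range N).erase a,
      (sgn b * prt h b) * chi (C.c (C.p a) (C.p b)) = -(2 * T) := by
    rw [← r1, sum_erase_comm]
    apply sum_congr rfl
    intro a _
    apply sum_congr rfl
    intro b _
    rw [C.symm (C.p b) (C.p a)]
  have r3 : ∑ a ∈ range N, ∑ b ∈ (range N).erase a,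
      (sgn a * sgn b + prt h a * prt h b - 4 * C.wr h a b) ≤ -(4 * T) := by
    calc _ ≤ ∑ a ∈ range N, ∑ b ∈ (range N).erase a,
          (sgn a * prt h a + sgn b * prt h b) * chi (C.c (C.p a) (C.p b)) := by
          apply sum_le_sum
          intro a _
          apply sum_le_sum
          intro b _
          exact C.pair_ge h a b
      _ = -(4 * T) := by
          simp only [add_mul, sum_add_distrib]
          rw [r1, r2]
          ring
  simp only [sum_sub_distrib, sum_add_distrib, ← mul_sum] at r3
  have r4 := sum_erase_mul N sgn sgn_sq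
  have r5 := sum_erase_mul N (prt h) (prt_sq h)
  rw [hN, sum_sgn, ← hN] at r4
  rw [sum_prt (by omega)] at r5
  simp only [← mul_sum] at r4 r5
  have r6 := C.sum_wr_le h hpos hneg
  rw [← hN] at r6
  rw [r4, r5] at r3
  have hNc : (N : ℤ) = 2 * C.l + 1 := by rw [hN]; push_cast; ring
  rw [hNc] at r3
  nlinarith

/-- a configuration gives numerical data -/
lemma num (hl : 1 ≤ C.l) : Num C.l C.f where
  hl := hl
  anti := fun i j hij hj => C.f_anti hij hj
  plat := by
    intro j hj h
    have h1 : C.S j = C.S (j + 3) := by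
      unfold f at h
      omega
    have h2 := C.two_le_w
    unfold f
    rcases C.plateau hj h1 with h3 | h3
    · left; omega
    · right; omega
  count := C.count

end Config

end Pool.Agent.MP_dd0645_co
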