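import Mathlib
import Pool.Agent.Lib.MP_dd0645_co.Count

/-!
# The remaining small cases; maximal configurations do not exist
-/

namespace Pool.Agent.MP_dd0645_co

open Finset

lemma col_zero : col 0 = false := by decide
lemma col_one : col 1 = true := by decide
lemma col_two : col 2 = false := by decide
lemma col_three : col 3 = true := by decide

lemma bflip {a b : Bool} (h : (!a) = b) : a = !b := by
  rw [← h, Bool.not_not]

namespace Config

variable {V : Type} [Fintype V] [DecidableEq V]

/-- The reversed path, with the colours exchanged. -/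
def mirror (C : Config V) : Config V where
  c := fun x y => !C.c x y
  n := C.n
  l := C.l
  p := fun i => C.p (2 * C.l - i)
  τ := fun g => C.τ (!g)
  symm := fun x y => by simp only [C.symm x y]
  deg := by
    intro x g
    rw [← C.deg x (!g)]
    congr 1
    ext y
    simp only [mem_filter, mem_univ, true_and]
    cases C.c x y <;> cases g <;> simp
  inj := by
    intro i j hi hj h
    have := C.inj _ _ (by omega) (by omega) h
    omega
  ττ := fun g x => C.ττ _ _
  τW := by
    intro g x hx i hi
    exact C.τW (!g) x (fun k hk => by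
      have := hx (2 * C.l - k) (by omega)
      rwa [show 2 * C.l - (2 * C.l - k) = k by omega] at this) _ (by omega)
  τne := by
    intro g x hx
    exact C.τne (!g) x (fun k hk => by
      have := hx (2 * C.l - k) (by omega)
      rwa [show 2 * C.l - (2 * C.l - k) = k by omega] at this)
  τcol := by
    intro g x hx
    rw [C.τcol (!g) x (fun k hk => by
      have := hx (2 * C.l - k) (by omega)
      rwa [show 2 * C.l - (2 * C.l - k) = k by omega] at this), Bool.not_not]
  nonempty := by
    obtain ⟨x, hx⟩ := C.nonempty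
    exact ⟨x, fun i hi => hx _ (by omega)⟩
  E1 := by
    intro i hi x hx h1 h2
    have hx' : ∀ k ≤ 2 * C.l, C.p k ≠ x := fun k hk => by
      have := hx (2 * C.l - k) (by omega)
      rwa [show 2 * C.l - (2 * C.l - k) = k by omega] at this
    have hc : col (2 * C.l - (i + 1)) = !col i := by
      rw [← col_succ, col_eq_iff]; omega
    have e1 : 2 * C.l - (i + 1) + 1 = 2 * C.l - i := by omega
    apply C.E1 (2 * C.l - (i + 1)) (by omega) (C.τ (!col i) x) (C.τW _ x hx')
    · rw [e1, hc]; exact bflip h2
    · rw [hc, C.ττ]; exact bflip h1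
  E2a := by
    intro i j hij hj hcol x hx h1 h2 h3
    have hx' : ∀ k ≤ 2 * C.l, C.p k ≠ x := fun k hk => by
      have := hx (2 * C.l - k) (by omega)
      rwa [show 2 * C.l - (2 * C.l - k) = k by omega] at this
    have hpar := (col_eq_iff i j).1 hcol
    have hc : col (2 * C.l - (j + 1)) = !col i := by
      rw [← col_succ, col_eq_iff]; omega
    have hc' : col (2 * C.l - (i + 1)) = !col i := by
      rw [← col_succ, col_eq_iff]; omega
    apply C.E2b (2 * C.l - (j + 1)) (2 * C.l - (i + 1)) (by omega) (by omega)
      (by rw [hc, hc']) (C.τ (!col i) x) (C.τW _ x hx')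
    · rw [show 2 * C.l - (j + 1) + 1 = 2 * C.l - j by omega, hc]; exact bflip h2
    · rw [show 2 * C.l - (i + 1) + 1 = 2 * C.l - i by omega, hc, C.ττ]; exact bflip h1
    · rw [hc, C.symm]; exact bflip h3
  E2b := by
    intro i j hij hj hcol x hx h1 h2 h3
    have hx' : ∀ k ≤ 2 * C.l, C.p k ≠ x := fun k hk => by
      have := hx (2 * C.l - k) (by omega)
      rwa [show 2 * C.l - (2 * C.l - k) = k by omega] at this
    have hpar := (col_eq_iff i j).1 hcol
    have hc : col (2 * C.l - (j + 1)) = !col i := by
      rw [← col_succ, col_eq_iff]; omega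
    have hc' : col (2 * C.l - (i + 1)) = !col i := by
      rw [← col_succ, col_eq_iff]; omega
    apply C.E2a (2 * C.l - (j + 1)) (2 * C.l - (i + 1)) (by omega) (by omega)
      (by rw [hc, hc']) (C.τ (!col i) x) (C.τW _ x hx')
    · rw [hc]; exact bflip h2
    · rw [hc, C.ττ]; exact bflip h1
    · rw [show 2 * C.l - (j + 1) + 1 = 2 * C.l - j by omega,
        show 2 * C.l - (i + 1) + 1 = 2 * C.l - i by omega, hc, C.symm]; exact bflip h3
  E3 := by
    intro i hi y z hy hz hyz hτ h1 h2 h3
    have hy' : ∀ k ≤ 2 * C.l, C.p k ≠ y := fun k hk => by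
      have := hy (2 * C.l - k) (by omega)
      rwa [show 2 * C.l - (2 * C.l - k) = k by omega] at this
    have hz' : ∀ k ≤ 2 * C.l, C.p k ≠ z := fun k hk => by
      have := hz (2 * C.l - k) (by omega)
      rwa [show 2 * C.l - (2 * C.l - k) = k by omega] at this
    have hc : col (2 * C.l - (i + 1)) = !col i := by
      rw [← col_succ, col_eq_iff]; omega
    apply C.E3 (2 * C.l - (i + 1)) (by omega) z y hz' hy' hyz.symm
    · rw [hc]
      intro h
      apply hτ
      rw [← h, C.ττ]
    · rw [hc]; exact bflip h2
    · rw [show 2 * C.l - (i + 1) + 1 = 2 * C.l - i by omega, hc]; exact bflip h1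
    · rw [hc, C.symm]; exact bflip h3
  E4 := by
    intro j hj y z hy hz hyz hτ h1 h2 h3 h4
    have hy' : ∀ k ≤ 2 * C.l, C.p k ≠ y := fun k hk => by
      have := hy (2 * C.l - k) (by omega)
      rwa [show 2 * C.l - (2 * C.l - k) = k by omega] at this
    have hz' : ∀ k ≤ 2 * C.l, C.p k ≠ z := fun k hk => by
      have := hz (2 * C.l - k) (by omega)
      rwa [show 2 * C.l - (2 * C.l - k) = k by omega] at this
    have hc : col (2 * C.l - (j + 3)) = !col j := by
      rw [← col_succ, col_eq_iff]; omega
    apply C.E4 (2 * C.l - (j + 3)) (by omega) (C.τ (!col j) y) (C.τ (!col j) z)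
      (C.τW _ y hy') (C.τW _ z hz')
    · intro h
      exact hyz (C.τ_inj _ h)
    · rw [hc, C.ττ]
      intro h
      apply hτ
      rw [h, C.ττ]
    · rw [hc]; exact bflip h4
    · rw [show 2 * C.l - (j + 3) + 1 = 2 * C.l - (j + 2) by omega, hc, C.ττ]; exact bflip h3
    · rw [show 2 * C.l - (j + 3) + 2 = 2 * C.l - (j + 1) by omega, hc]; exact bflip h2
    · rw [show 2 * C.l - (j + 3) + 3 = 2 * C.l - j by omega, hc, C.ττ]; exact bflip h1

variable (C : Config V)

lemma mirror_l : C.mirror.l = C.l := rfl

lemma mirror_w : C.mirror.w = C.w := rfl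

lemma mirror_W : C.mirror.W = C.W := by
  ext x
  rw [mem_W, mem_W]
  constructor
  · intro h i hi
    have := h (2 * C.l - i) (by rw [mirror_l]; omega)
    simp only [mirror] at this
    rwa [show 2 * C.l - (2 * C.l - i) = i by omega] at this
  · intro h i hi
    exact h _ (by omega)

lemma mirror_mem_A {i : ℕ} (hi : i ≤ 2 * C.l) {x : V} :
    x ∈ C.mirror.A i ↔ x ∈ C.W ∧ x ∉ C.A (2 * C.l - i) := by
  rw [mem_A, mirror_W]
  constructor
  · rintro ⟨h1, h2⟩
    refine ⟨h1, ?_⟩
    rw [C.notMem_A h1]
    have h3 : (!C.c (C.p (2 * C.l - i)) x) = !col i := h2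
    have h4 := congrArg (fun b => !b) h3
    simp only [Bool.not_not] at h4
    rw [h4, col_eq_iff]
    omega
  · rintro ⟨h1, h2⟩
    refine ⟨h1, ?_⟩
    rw [C.notMem_A h1] at h2
    change (!C.c (C.p (2 * C.l - i)) x) = !col i
    rw [h2]
    congr 1
    rw [col_eq_iff]
    omega

lemma mirror_f {i : ℕ} (hi : i ≤ 2 * C.l) : C.mirror.f i = - C.f (2 * C.l - i) := by
  have h1 : C.mirror.A i = C.W \ C.A (2 * C.l - i) := by
    ext x
    rw [C.mirror_mem_A hi, mem_sdiff]
  have h2 := C.card_compl_A (2 * C.l - i)
  have h3 := C.S_le (2 * C.l - i)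
  have h4 : C.mirror.S i = 2 * C.w - C.S (2 * C.l - i) := by
    rw [← h2, ← h1]
    rfl
  unfold f
  rw [h4, mirror_w]
  omega

lemma cnt_ge {g : Bool} {x : V} (I : Finset ℕ) (hI : ∀ i ∈ I, i ≤ 2 * C.l)
    (h : ∀ i ∈ I, C.c (C.p i) x = g) : I.card ≤ C.cnt g x := by
  apply card_le_card
  intro i hi
  rw [mem_filter, mem_range]
  exact ⟨by have := hI i hi; omega, h i hi⟩

lemma S_of_f {i : ℕ} {v : ℤ} (h : C.f i = v) : (C.S i : ℤ) = C.w + v := by
  unfold f at h
  omega

/-- the path has three vertices -/
lemma case1 (hl : C.l = 1) (h0 : C.f 0 = 0) (h1 : C.f 1 = 0) (h2 : -1 ≤ C.f 2) : False := by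
  have s0 := C.S_of_f h0
  have s1 := C.S_of_f h1
  have hw := C.two_le_w
  have hn := C.n_eq
  have h01 : C.S 0 = C.S 1 := by omega
  have e0 : (!col 0) = true := by decide
  have e1 : col 1 = true := by decide
  have st : ∀ x y, x ∈ C.A 0 → y ∈ C.W → y ∉ C.A 1 → x ≠ y → C.c x y = true := by
    intro x y hx hy hy' hxy
    rw [← e0]
    exact C.star_tight (by omega) h01 hx hy hy' hxy
  have c0 : ∀ z, z ∈ C.A 0 → C.c (C.p 0) z = true := by
    intro z hz
    rw [← e0]
    exact (C.mem_A.1 hz).2
  have c1 : ∀ z, z ∈ C.W → z ∉ C.A 1 → C.c (C.p 1) z = true := by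
    intro z hz hz'
    rw [← e1]
    exact (C.notMem_A hz).1 hz'
  by_cases hcase : ∃ z ∈ C.A 0, z ∉ C.A 1
  · obtain ⟨z, hz, hz'⟩ := hcase
    have hzW := C.A_sub _ hz
    have hcnt : 2 ≤ C.cnt true z := by
      apply C.cnt_ge {0, 1}
      · intro i hi; simp only [mem_insert, mem_singleton] at hi; omega
      · intro i hi
        simp only [mem_insert, mem_singleton] at hi
        rcases hi with rfl | rfl
        · exact c0 z hz
        · exact c1 z hzW hz'
    have hle := C.degW_ge true hzW (C.A 0 ∪ (C.W \ C.A 1))
      (union_subset (C.A_sub _) sdiff_subset) (by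
        intro y hy hyz
        rw [mem_union, mem_sdiff] at hy
        rcases hy with hy | hy
        · rw [C.symm]; exact st y z hy hzW hz' hyz
        · exact st z y hz hy.1 hy.2 hyz.symm)
    have hdeg := C.degW true hzW
    have heq : C.A 0 = C.A 0 ∪ (C.W \ C.A 1) := by
      apply eq_of_subset_of_card_le subset_union_left
      change _ ≤ C.S 0
      omega
    have hsub : ∀ y ∈ C.W, y ∉ C.A 1 → y ∈ C.A 0 := by
      intro y hy hy'
      rw [heq, mem_union, mem_sdiff]
      exact Or.inr ⟨hy, hy'⟩
    have hsub' : ∀ y ∈ C.A 0, y ∉ C.A 1 := by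
      have : C.W \ C.A 1 = C.A 0 := by
        apply eq_of_subset_of_card_le
        · intro y hy
          rw [mem_sdiff] at hy
          exact hsub y hy.1 hy.2
        · rw [C.card_compl_A]
          change C.S 0 ≤ _
          omega
      intro y hy
      rw [← this, mem_sdiff] at hy
      exact hy.2
    obtain ⟨x, hx, hx'⟩ : ∃ x ∈ C.W, x ∉ C.A 0 := by
      by_contra hcon
      push Not at hcon
      have := card_le_card hcon
      rw [C.cardW] at this
      change _ ≤ C.S 0 at this
      omega
    have hxA1 : x ∈ C.A 1 := by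
      by_contra h
      exact hx' (hsub x hx h)
    have hred : ∀ q ∈ C.A 0, C.c x q = false := by
      intro q hq
      by_contra hne
      have hne' : C.c q x = true := by
        rw [C.symm]
        cases h : C.c x q
        · exact absurd h hne
        · rfl
      have hqW := C.A_sub _ hq
      have hcnt' : 2 ≤ C.cnt true q := by
        apply C.cnt_ge {0, 1}
        · intro i hi; simp only [mem_insert, mem_singleton] at hi; omega
        · intro i hi
          simp only [mem_insert, mem_singleton] at hi
          rcases hi with rfl | rfl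
          · exact c0 q hq
          · exact c1 q hqW (hsub' q hq)
      have hle' := C.degW_ge true hqW (insert x (C.A 0))
        (insert_subset hx (C.A_sub _)) (by
          intro y hy hyq
          rw [mem_insert] at hy
          rcases hy with rfl | hy
          · exact hne'
          · rw [C.symm]; exact st y q hy hqW (hsub' q hq) hyq)
      rw [card_insert_of_notMem hx'] at hle'
      have := C.degW true hqW
      change C.S 0 + 1 ≤ _ at hle'
      omega
    have hcx : 2 ≤ C.cnt false x := by
      apply C.cnt_ge {0, 1}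
      · intro i hi; simp only [mem_insert, mem_singleton] at hi; omega
      · intro i hi
        simp only [mem_insert, mem_singleton] at hi
        rcases hi with rfl | rfl
        · have := (C.notMem_A hx).1 hx'
          rw [this]; decide
        · have := (C.mem_A.1 hxA1).2
          rw [this]; decide
    have := C.degW_ge' false hx (C.A 0) (C.A_sub _) hx' hred
    change C.S 0 + _ ≤ _ at this
    omega
  · push Not at hcase
    have h10 : ∀ x ∈ C.A 1, x ∈ C.A 0 := by
      have : C.A 0 = C.A 1 := eq_of_subset_of_card_le hcase (by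
        change C.S 1 ≤ C.S 0
        omega)
      intro x hx
      rw [this]
      exact hx
    have hA2 : ∀ z ∈ C.W, z ∉ C.A 2 := by
      intro z hz hz2
      have h3 := (C.mem_A.1 hz2).2
      have h3' : C.c (C.p 2) z = true := by rw [h3]; decide
      by_cases hz0 : z ∈ C.A 0
      · have hcnt : 2 ≤ C.cnt true z := by
          apply C.cnt_ge {0, 2}
          · intro i hi; simp only [mem_insert, mem_singleton] at hi; omega
          · intro i hi
            simp only [mem_insert, mem_singleton] at hi
            rcases hi with rfl | rfl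
            · exact c0 z hz0
            · exact h3'
        have := C.degW_ge' true hz (C.W \ C.A 0) sdiff_subset (by
          rw [mem_sdiff]; exact fun h => h.2 hz0) (by
          intro y hy
          rw [mem_sdiff] at hy
          exact st z y hz0 hy.1 (fun h => hy.2 (h10 y h)) (by
            rintro rfl
            exact hy.2 hz0))
        rw [C.card_compl_A] at this
        omega
      · have hz1 : z ∉ C.A 1 := fun h => hz0 (h10 z h)
        have hcnt : 2 ≤ C.cnt true z := by
          apply C.cnt_ge {1, 2}
          · intro i hi; simp only [mem_insert, mem_singleton] at hi; omega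
          · intro i hi
            simp only [mem_insert, mem_singleton] at hi
            rcases hi with rfl | rfl
            · exact c1 z hz hz1
            · exact h3'
        have := C.degW_ge' true hz (C.A 0) (C.A_sub _) hz0 (by
          intro y hy
          rw [C.symm]
          exact st y z hy hz hz1 (by
            rintro rfl
            exact hz0 hy))
        change C.S 0 + _ ≤ _ at this
        omega
    have : C.S 2 = 0 := by
      unfold S
      rw [card_eq_zero, eq_empty_iff_forall_notMem]
      intro z hz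
      exact hA2 z (C.A_sub _ hz) hz
    unfold f at h2
    omega

/-- the path has five vertices: a step -/
lemma case2_step (hl : C.l = 2) (h0 : C.f 0 = 1) (h1 : C.f 1 = 1) (h3 : C.f 3 = -1) :
    (∀ z ∈ C.A 3, C.c (C.p 2) z = false) ∧ ∀ z ∈ C.W, z ∈ C.A 3 ↔ z ∉ C.A 1 := by
  have s0 := C.S_of_f h0
  have s1 := C.S_of_f h1
  have s3 := C.S_of_f h3
  have hw := C.two_le_w
  have hn := C.n_eq
  have h01 : C.S 0 = C.S 1 := by omega
  have e0 : (!col 0) = true := by decide
  have e1 : col 1 = true := by decide
  have st : ∀ x y, x ∈ C.A 0 → y ∈ C.W → y ∉ C.A 1 → x ≠ y → C.c x y = true := by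
    intro x y hx hy hy' hxy
    rw [← e0]
    exact C.star_tight (by omega) h01 hx hy hy' hxy
  have key : ∀ z ∈ C.W, z ∉ C.A 1 → ∀ i, i = 2 ∨ i = 3 → C.c (C.p i) z = false := by
    intro z hz hz1 i hi
    by_contra hne
    have hne' : C.c (C.p i) z = true := by
      cases h : C.c (C.p i) z
      · exact absurd h hne
      · rfl
    have hc1 : C.c (C.p 1) z = true := by
      rw [← e1]
      exact (C.notMem_A hz).1 hz1
    by_cases hz0 : z ∈ C.A 0
    · have hcnt : 3 ≤ C.cnt true z := by
        have : ({0, 1, i} : Finset ℕ).card = 3 := by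
          rw [card_insert_of_notMem, card_insert_of_notMem, card_singleton]
          · rw [mem_singleton]; omega
          · simp only [mem_insert, mem_singleton]; omega
        rw [← this]
        apply C.cnt_ge
        · intro k hk; simp only [mem_insert, mem_singleton] at hk; omega
        · intro k hk
          simp only [mem_insert, mem_singleton] at hk
          rcases hk with rfl | rfl | rfl
          · rw [(C.mem_A.1 hz0).2]; decide
          · exact hc1
          · exact hne'
      have hle := C.degW_ge true hz (C.A 0) (C.A_sub _) (by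
        intro y hy hyz
        rw [C.symm]
        exact st y z hy hz hz1 hyz)
      have := C.degW true hz
      change C.S 0 ≤ _ at hle
      omega
    · have hcnt : 2 ≤ C.cnt true z := by
        have : ({1, i} : Finset ℕ).card = 2 := by
          rw [card_pair]; omega
        rw [← this]
        apply C.cnt_ge
        · intro k hk; simp only [mem_insert, mem_singleton] at hk; omega
        · intro k hk
          simp only [mem_insert, mem_singleton] at hk
          rcases hk with rfl | rfl
          · exact hc1
          · exact hne'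
      have hle := C.degW_ge' true hz (C.A 0) (C.A_sub _) hz0 (by
        intro y hy
        rw [C.symm]
        exact st y z hy hz hz1 (by rintro rfl; exact hz0 hy))
      change C.S 0 + _ ≤ _ at hle
      omega
  have hsub : C.W \ C.A 1 ⊆ C.A 3 := by
    intro z hz
    rw [mem_sdiff] at hz
    rw [C.mem_A]
    refine ⟨hz.1, ?_⟩
    rw [key z hz.1 hz.2 3 (Or.inr rfl)]
    decide
  have heq : C.W \ C.A 1 = C.A 3 := by
    apply eq_of_subset_of_card_le hsub
    rw [C.card_compl_A]
    change C.S 3 ≤ _
    omega
  constructor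
  · intro z hz
    rw [← heq, mem_sdiff] at hz
    exact key z hz.1 hz.2 2 (Or.inl rfl)
  · intro z hz
    rw [← heq, mem_sdiff]
    exact ⟨fun h => h.2, fun h => ⟨hz, h⟩⟩

/-- the path has five vertices -/
lemma case2 (hl : C.l = 2) (h0 : C.f 0 = 1) (h1 : C.f 1 = 1) (h3 : C.f 3 = -1)
    (h4 : C.f 4 = -1) : False := by
  obtain ⟨a1, a2⟩ := C.case2_step hl h0 h1 h3
  have m0 := C.mirror_f (i := 0) (by omega)
  have m1 := C.mirror_f (i := 1) (by omega)
  have m3 := C.mirror_f (i := 3) (by omega)
  rw [hl] at m0 m1 m3
  norm_num at m0 m1 m3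
  obtain ⟨b1, b2⟩ := C.mirror.case2_step hl (by rw [m0, h4]; norm_num) (by rw [m1, h3]; norm_num)
    (by rw [m3, h1])
  have s3 := C.S_of_f h3
  have hw := C.two_le_w
  obtain ⟨z, hz⟩ : (C.A 3).Nonempty := by
    rw [← card_pos]
    change 0 < C.S 3
    omega
  have c1 := a1 z hz
  have hzW := C.A_sub _ hz
  have hz1 := (a2 z hzW).1 hz
  have c2 := b1 z (by
    rw [C.mirror_mem_A (by omega), hl]
    exact ⟨hzW, hz1⟩)
  have c3 : (!C.c (C.p (2 * C.l - 2)) z) = false := c2
  rw [hl] at c3
  norm_num at c3
  rw [c3] at c1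
  exact absurd c1 (by decide)

/-- a plateau of three zeros, the first edge being full -/
lemma case3 {e : ℕ} (he : e + 2 ≤ 2 * C.l) (h0 : C.f e = 0) (h1 : C.f (e + 1) = 0)
    (h2 : C.f (e + 2) = 0) (hlow : ∀ i < e, 0 < C.f i)
    (hhigh : ∀ i, e + 3 ≤ i → i ≤ 2 * C.l → C.f i < 0)
    (hfull : ∀ x ∈ C.W, x ∈ C.A e ↔ x ∉ C.A (e + 1))
    (hcase : C.l = 2 ∨ (C.l = 3 ∧ e = 2) ∨ (C.l = 4 ∧ e = 3 ∧ C.f 1 = 1)) : False := by
  have s0 := C.S_of_f h0
  have s1 := C.S_of_f h1
  have s2 := C.S_of_f h2
  have hw := C.two_le_w
  have hn := C.n_eq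
  have t0 : C.S e = C.S (e + 1) := by omega
  have t1 : C.S (e + 1) = C.S (e + 2) := by omega
  set g := col e with hg
  have hg1 : col (e + 1) = !g := col_succ e
  have hg2 : col (e + 2) = g := col_add_two e
  have hT0 : ∀ z, z ∈ C.A e ↔ C.τ g z ∈ C.A (e + 1) := fun z => C.tight (by omega) t0
  have hT1 : ∀ z, z ∈ C.A (e + 1) ↔ C.τ (!g) z ∈ C.A (e + 2) := by
    intro z
    have := C.tight (i := e + 1) (by omega) t1 (x := z)
    rwa [hg1] at this
  have st0 : ∀ x y, x ∈ C.A e → y ∈ C.W → y ∉ C.A (e + 1) → x ≠ y → C.c x y = !g :=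
    fun x y hx hy hy' hxy => C.star_tight (by omega) t0 hx hy hy' hxy
  have st1 : ∀ x y, x ∈ C.A (e + 1) → y ∈ C.W → y ∉ C.A (e + 2) → x ≠ y → C.c x y = g := by
    intro x y hx hy hy' hxy
    have := C.star_tight (i := e + 1) (by omega) t1 hx hy hy' hxy
    rwa [hg1, Bool.not_not] at this
  have hgg : (!g) ≠ g := by cases g <;> decide
  -- `Q` is a clique
  have hQ : ∀ x y, x ∈ C.A e → y ∈ C.A e → x ≠ y → C.c x y = !g :=
    fun x y hx hy hxy => st0 x y hx (C.A_sub _ hy) ((hfull y (C.A_sub _ hy)).1 hy) hxy
  -- two elements of `Q` outside of `A_{e+2}`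
  have hne : C.A (e + 2) ≠ C.A e := by
    intro h
    have h5 := C.dom he t0 t1 h
    obtain ⟨x, hx⟩ : (C.A e).Nonempty := by
      rw [← card_pos]
      change 0 < C.S e
      omega
    exact (hfull x (C.A_sub _ hx)).1 hx (by rw [h5]; exact hx)
  obtain ⟨q1, hq1, hq1'⟩ : ∃ x ∈ C.A e, x ∉ C.A (e + 2) := by
    by_contra hcon
    push Not at hcon
    exact hne (eq_of_subset_of_card_le hcon (by
      change C.S (e + 2) ≤ C.S e
      omega)).symm
  have hq1W := C.A_sub _ hq1
  set q2 := C.τ (!g) q1 with hq2def
  have hq2W : q2 ∈ C.W := C.τ_mem hq1W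
  have hq2 : q2 ∈ C.A e := by
    rw [hfull q2 hq2W, hT1, hq2def, C.ττ]
    exact hq1'
  have hq2' : q2 ∉ C.A (e + 2) := by
    intro h
    rw [hq2def, ← hT1] at h
    exact (hfull q1 hq1W).1 hq1 h
  have hq12 : q2 ≠ q1 := C.τne _ _ (C.mem_W.1 hq1W)
  -- membership in `τ̄ Q`, `τ̄ Z`
  have hτQ : ∀ x ∈ C.W, (C.τ (!g) x ∈ C.A e ↔ x ∉ C.A (e + 2)) := by
    intro x hx
    rw [hfull _ (C.τ_mem hx), hT1, C.ττ]
  rcases hcase with hl | ⟨hl, he2⟩ | ⟨hl, he3, hf1⟩
  -- the case `l ≤ 3`: first `A_{e+2} = Z`
  case inr.inr =>
    -- `l = 4`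
    subst he3
    have hs2 : 0 < C.f 2 := hlow 2 (by omega)
    -- edge `2`
    have hcol2 : col 2 = !g := by rw [hg]; decide
    have hcol1 : col 1 = g := by rw [hg]; decide
    have hY2 : ∀ y ∈ C.W, C.τ (!g) y ∉ C.A 2 → y ∉ C.A 3 := by
      intro y hy hy' hyQ
      -- pick an element of `{q1, q2}` different from `y`
      obtain ⟨q, hq, hqQ, hqτ, hqy⟩ : ∃ q, q ∈ C.W ∧ q ∈ C.A 3 ∧ C.τ (!g) q ∈ C.A 3 ∧
          y ≠ q := by
        by_cases h : y = q1
        · exact ⟨q2, hq2W, hq2, (hτQ q2 hq2W).2 hq2', by rw [h]; exact hq12.symm⟩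
        · exact ⟨q1, hq1W, hq1, (hτQ q1 hq1W).2 hq1', h⟩
      have e1 := C.star (i := 2) (by omega) hy (by rw [hcol2]; exact hy') hq
        (by rw [hcol2]; exact hqτ) hqy
      rw [hcol2, Bool.not_not] at e1
      have e2 := hQ y q hyQ hqQ hqy
      rw [e1] at e2
      exact hgg e2.symm
    -- edge `1`
    have hY1 : ∀ y ∈ C.W, C.τ g y ∉ C.A 1 → y ∈ C.A 3 ∧ y ∈ C.A 5 := by
      intro y hy hy'
      have star1 : ∀ z, z ∈ C.W → C.τ g z ∈ C.A 2 → y ≠ z → C.c y z = !g := by
        intro z hz hz' hyz
        have := C.star (i := 1) (by omega) hy (by rw [hcol1]; exact hy') hz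
          (by rw [hcol1]; exact hz') hyz
        rwa [hcol1] at this
      -- elements `τ q` for `q ∈ {q1, q2}`
      have hX : ∀ q, q ∈ C.A 3 → q ∉ C.A 5 → C.τ g q ∈ C.W ∧ C.τ g (C.τ g q) ∈ C.A 2 ∧
          C.τ g q ∈ C.A 4 := by
        intro q hq hq'
        have hqW := C.A_sub _ hq
        refine ⟨C.τ_mem hqW, ?_, (hT0 q).1 hq⟩
        rw [C.ττ]
        by_contra h
        have h5 := hY2 (C.τ (!g) q) (C.τ_mem hqW) (by rw [C.ττ]; exact h)
        exact h5 ((hτQ q hqW).2 hq')
      have hZ4 : ∀ z, z ∈ C.A 4 → z ∉ C.A 3 := by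
        intro z hz h
        exact (hfull z (C.A_sub _ hz)).1 h hz
      by_cases hyQ : y ∈ C.A 3
      · refine ⟨hyQ, ?_⟩
        by_contra hy5
        obtain ⟨w1, w2, w3⟩ := hX q1 hq1 hq1'
        have hyne : y ≠ C.τ g q1 := by
          rintro rfl
          exact hZ4 _ w3 hyQ
        have e1 := star1 _ w1 w2 hyne
        have e2 := st1 _ _ w3 hy hy5 hyne.symm
        rw [C.symm, e1] at e2
        exact hgg e2
      · exfalso
        have hyZ : y ∈ C.A 4 := by
          by_contra h
          exact hyQ ((hfull y hy).2 h)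
        by_cases hy5 : y ∈ C.A 5
        · -- `y ∈ Z₁`
          have hsub : ∀ z, z ∈ C.W → C.τ g z ∈ C.A 2 → z ∈ C.A 5 := by
            intro z hz hz'
            by_contra hz5
            have hyz : y ≠ z := by
              rintro rfl
              exact hz5 hy5
            have e1 := star1 z hz hz' hyz
            have e2 := st1 y z hyZ hz hz5 hyz
            rw [e1] at e2
            exact hgg e2
          have hle : C.S 2 ≤ C.S 5 := by
            unfold S
            rw [← card_image_of_injective (C.A 2) (C.τ_inj g)]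
            apply card_le_card
            intro z hz
            rw [mem_image] at hz
            obtain ⟨x, hx, rfl⟩ := hz
            exact hsub _ (C.τ_mem (C.A_sub _ hx)) (by rw [C.ττ]; exact hx)
          unfold f at hs2
          have s5 : (C.S 5 : ℤ) = C.w + 0 := s2
          omega
        · -- `y ∈ Z₀`
          obtain ⟨q, hq, hq', hqy⟩ : ∃ q, q ∈ C.A 3 ∧ q ∉ C.A 5 ∧ y ≠ C.τ g q := by
            by_cases h : y = C.τ g q1
            · refine ⟨q2, hq2, hq2', ?_⟩
              rw [h]
              intro h'
              exact hq12 (C.τ_inj g h').symm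
            · exact ⟨q1, hq1, hq1', h⟩
          obtain ⟨w1, w2, w3⟩ := hX q hq hq'
          have e1 := star1 _ w1 w2 hqy
          have e2 := st1 _ _ w3 hy hy5 hqy.symm
          rw [C.symm, e1] at e2
          exact hgg e2
    have hle : 2 * C.w - C.S 1 + 2 ≤ C.S 3 := by
      rw [← C.card_compl_A, ← card_image_of_injective (C.W \ C.A 1) (C.τ_inj g)]
      have hsub : insert q1 (insert q2 ((C.W \ C.A 1).image (C.τ g))) ⊆ C.A 3 := by
        intro z hz
        rw [mem_insert, mem_insert, mem_image] at hz
        rcases hz with rfl | rfl | ⟨x, hx, rfl⟩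
        · exact hq1
        · exact hq2
        · rw [mem_sdiff] at hx
          exact (hY1 _ (C.τ_mem hx.1) (by rw [C.ττ]; exact hx.2)).1
      have hnot : ∀ q, q ∉ C.A 5 → q ∉ (C.W \ C.A 1).image (C.τ g) := by
        intro q hq h
        rw [mem_image] at h
        obtain ⟨x, hx, rfl⟩ := h
        rw [mem_sdiff] at hx
        exact hq (hY1 _ (C.τ_mem hx.1) (by rw [C.ττ]; exact hx.2)).2
      have := card_le_card hsub
      rw [card_insert_of_notMem, card_insert_of_notMem (hnot q2 hq2')] at this
      · exact this
      · rw [mem_insert]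
        rintro (h | h)
        · exact hq12 h.symm
        · exact hnot q1 hq1' h
    have sf1 := C.S_of_f hf1
    have s3 : (C.S 3 : ℤ) = C.w + 0 := s0
    omega
  all_goals
    have hl3 : C.l ≤ 3 := by omega
    -- `A_{e+2} = Z`
    have hZsub : ∀ z ∈ C.A (e + 1), z ∈ C.A (e + 2) := by
      intro z hz
      by_contra hz'
      have hzW := C.A_sub _ hz
      have hzQ : z ∉ C.A e := fun h => (hfull z hzW).1 h hz
      have hcnt : 3 ≤ C.cnt g z := by
        have : ({e, e + 1, e + 2} : Finset ℕ).card = 3 := by
          rw [card_insert_of_notMem, card_insert_of_notMem, card_singleton]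
          · simp
          · simp
        rw [← this]
        apply C.cnt_ge
        · intro k hk; simp only [mem_insert, mem_singleton] at hk; omega
        · intro k hk
          simp only [mem_insert, mem_singleton] at hk
          rcases hk with rfl | rfl | rfl
          · exact (C.notMem_A hzW).1 hzQ
          · have := (C.mem_A.1 hz).2
            rwa [hg1, Bool.not_not] at this
          · have := (C.notMem_A hzW).1 hz'
            rwa [hg2] at this
      have hle := C.degW_ge g hzW (C.A (e + 1) ∪ (C.W \ C.A (e + 2)))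
        (union_subset (C.A_sub _) sdiff_subset) (by
          intro y hy hyz
          rw [mem_union, mem_sdiff] at hy
          rcases hy with hy | hy
          · rw [C.symm]; exact st1 y z hy hzW hz' hyz
          · exact st1 z y hz hy.1 hy.2 hyz.symm)
      have hdeg := C.degW g hzW
      have hcard : C.w + 2 ≤ (C.A (e + 1) ∪ (C.W \ C.A (e + 2))).card := by
        have hsub : insert q1 (insert q2 (C.A (e + 1))) ⊆ C.A (e + 1) ∪ (C.W \ C.A (e + 2)) := by
          intro y hy
          rw [mem_insert, mem_insert] at hy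
          rw [mem_union, mem_sdiff]
          rcases hy with rfl | rfl | hy
          · exact Or.inr ⟨hq1W, hq1'⟩
          · exact Or.inr ⟨hq2W, hq2'⟩
          · exact Or.inl hy
        have := card_le_card hsub
        rw [card_insert_of_notMem, card_insert_of_notMem] at this
        · change C.S (e + 1) + 1 + 1 ≤ _ at this
          omega
        · exact (hfull q2 hq2W).1 hq2
        · rw [mem_insert]
          rintro (h | h)
          · exact hq12 h.symm
          · exact (hfull q1 hq1W).1 hq1 h
      omega
    have hZeq : C.A (e + 1) = C.A (e + 2) := eq_of_subset_of_card_le hZsub (by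
      change C.S (e + 2) ≤ C.S (e + 1)
      omega)
    -- `Z` is joined to `Q` in colour `g`
    have hZQ : ∀ z ∈ C.A (e + 1), ∀ q ∈ C.A e, C.c z q = g := by
      intro z hz q hq
      have hqW := C.A_sub _ hq
      apply st1 z q hz hqW
      · rw [← hZeq]
        exact (hfull q hqW).1 hq
      · rintro rfl
        exact (hfull z hqW).1 hq hz
    have hbound : ∀ z ∈ C.A (e + 1), C.w + C.cnt g z ≤ C.n := by
      intro z hz
      have hzW := C.A_sub _ hz
      have := C.degW_ge' g hzW (C.A e) (C.A_sub _) (fun h => (hfull z hzW).1 h hz)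
        (fun q hq => hZQ z hz q hq)
      change C.S e + _ ≤ _ at this
      omega
    have hce : ∀ z ∈ C.A (e + 1), C.c (C.p e) z = g := by
      intro z hz
      have hzW := C.A_sub _ hz
      exact (C.notMem_A hzW).1 (fun h => (hfull z hzW).1 h hz)
    have hce1 : ∀ z ∈ C.A (e + 1), C.c (C.p (e + 1)) z = g := by
      intro z hz
      have := (C.mem_A.1 hz).2
      rwa [hg1, Bool.not_not] at this
    -- before the plateau
    have hbefore : ∀ i, i + 1 = e → ∃ z ∈ C.A (e + 1), C.c (C.p i) z = g := by
      intro i hi
      have hf := hlow i (by omega)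
      obtain ⟨z, hz, hz'⟩ : ∃ z ∈ C.A i, z ∉ C.A e := by
        by_contra hcon
        push Not at hcon
        have := card_le_card hcon
        change C.S i ≤ C.S e at this
        unfold f at hf
        omega
      have hzW := C.A_sub _ hz
      refine ⟨z, ?_, ?_⟩
      · by_contra h
        exact hz' ((hfull z hzW).2 h)
      · have h5 := (C.mem_A.1 hz).2
        have h6 : col e = !col i := by rw [← hi, col_succ]
        rw [h5, ← h6]
  · -- `l = 2`
    rcases Nat.eq_zero_or_pos e with he0 | he0
    · subst he0
      have hf4 := hhigh 4 (by omega) (by omega)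
      obtain ⟨z, hz, hz'⟩ : ∃ z ∈ C.A (0 + 1), z ∉ C.A 4 := by
        by_contra hcon
        push Not at hcon
        have := card_le_card hcon
        change C.S (0 + 1) ≤ C.S 4 at this
        unfold f at hf4
        omega
      have hzW := C.A_sub _ hz
      have hc4 : C.c (C.p 4) z = g := by
        rw [(C.notMem_A hzW).1 hz', hg]
        decide
      have hcnt : 3 ≤ C.cnt g z := by
        apply C.cnt_ge {0, 1, 4}
        · intro k hk; simp only [mem_insert, mem_singleton] at hk; omega
        · intro k hk
          simp only [mem_insert, mem_singleton] at hk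
          rcases hk with rfl | rfl | rfl
          · exact hce z hz
          · exact hce1 z hz
          · exact hc4
      have := hbound z hz
      omega
    · obtain ⟨i, rfl⟩ : ∃ i, e = i + 1 := ⟨e - 1, by omega⟩
      obtain ⟨z, hz, hc⟩ := hbefore i rfl
      have hcnt : 3 ≤ C.cnt g z := by
        have : ({i, i + 1, i + 1 + 1} : Finset ℕ).card = 3 := by
          rw [card_insert_of_notMem, card_insert_of_notMem, card_singleton]
          · simp
          · simp only [mem_insert, mem_singleton]; omega
        rw [← this]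
        apply C.cnt_ge
        · intro k hk; simp only [mem_insert, mem_singleton] at hk; omega
        · intro k hk
          simp only [mem_insert, mem_singleton] at hk
          rcases hk with rfl | rfl | rfl
          · exact hc
          · exact hce z hz
          · exact hce1 z hz
      have := hbound z hz
      omega
  · -- `l = 3`, `e = 2`
    subst he2
    obtain ⟨z, hz, hc⟩ := hbefore 1 rfl
    have hzW := C.A_sub _ hz
    -- `z ∉ A_6`
    have hz6 : z ∉ C.A 6 := by
      intro h6
      have c5 : col 5 = !g := by rw [hg]; decide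
      have c4 : col 4 = g := by rw [hg]; decide
      have h5 := C.F1 (i := 5) (by omega) h6
      rw [c5] at h5
      have h4 := C.F1 (i := 4) (by omega) h5
      rw [c4] at h4
      have h4' : C.τ g (C.τ (!g) z) ∈ C.A (2 + 1) := by
        rw [hZeq]; exact h4
      -- `τ̄ z ∈ Q`
      have hQz : C.τ (!g) z ∈ C.A 2 := (hT0 _).2 h4'
      have hz3 : z ∈ C.A 3 := hz
      have : C.τ (!g) z ∈ C.A (2 + 2) := (hT1 z).1 hz
      rw [← hZeq] at this
      exact (hfull _ (C.τ_mem hzW)).1 hQz this
    have hc6 : C.c (C.p 6) z = g := by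
      rw [(C.notMem_A hzW).1 hz6, hg]
      decide
    have hcnt : 4 ≤ C.cnt g z := by
      apply C.cnt_ge {1, 2, 3, 6}
      · intro k hk; simp only [mem_insert, mem_singleton] at hk; omega
      · intro k hk
        simp only [mem_insert, mem_singleton] at hk
        rcases hk with rfl | rfl | rfl | rfl
        · exact hc
        · exact hce z hz
        · exact hce1 z hz
        · exact hc6
    have := hbound z hz
    omega

/-- **Maximal configurations do not exist.** -/
theorem no_config (hl : 1 ≤ C.l) : False := by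
  rcases (C.num hl).cases with ⟨h, h0, h1, h2⟩ | ⟨h, h1, h2, h0⟩ | ⟨h, h0, h1, h3, h4⟩ |
    ⟨e, he, h0, h1, h2, hlow, hhigh, hcase⟩
  · exact C.case1 h h0 h1 h2
  · have m0 := C.mirror_f (i := 0) (by omega)
    have m1 := C.mirror_f (i := 1) (by omega)
    have m2 := C.mirror_f (i := 2) (by omega)
    rw [h] at m0 m1 m2
    norm_num at m0 m1 m2
    exact C.mirror.case1 h (by rw [m0, h2]; norm_num) (by rw [m1, h1]; norm_num)
      (by rw [m2]; omega)
  · exact C.case2 h h0 h1 h3 h4
  · have s0 := C.S_of_f h0
    have s1 := C.S_of_f h1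
    have s2 := C.S_of_f h2
    have t0 : C.S e = C.S (e + 1) := by omega
    have t1 : C.S (e + 1) = C.S (e + 2) := by omega
    by_cases hA : ∃ x ∈ C.A e, x ∈ C.A (e + 1)
    · -- the second edge is full
      obtain ⟨x, hx, hx'⟩ := hA
      have hcov : ∀ y ∈ C.W, y ∉ C.A (e + 1) → y ∈ C.A (e + 2) := by
        intro y hy hy'
        by_contra hy''
        have hxy : x ≠ y := by
          rintro rfl
          exact hy' hx'
        have e1 := C.star_tight (by omega) t0 hx hy hy' hxy
        have e2 := C.star_tight (i := e + 1) (by omega) t1 hx' hy hy'' hxy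
        rw [col_succ, Bool.not_not, e1] at e2
        exact not_col_ne e e2
      have heq : C.W \ C.A (e + 1) = C.A (e + 2) := by
        apply eq_of_subset_of_card_le
        · intro y hy
          rw [mem_sdiff] at hy
          exact hcov y hy.1 hy.2
        · rw [C.card_compl_A]
          change C.S (e + 2) ≤ _
          omega
      have hfull : ∀ y ∈ C.W, (y ∉ C.A (e + 2) ↔ y ∈ C.A (e + 1)) := by
        intro y hy
        rw [← heq, mem_sdiff]
        constructor
        · intro h
          by_contra h'
          exact h ⟨hy, h'⟩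
        · intro h h'
          exact h'.2 h
      have mf : ∀ i, i ≤ 2 * C.l → C.mirror.f i = - C.f (2 * C.l - i) := fun i hi => C.mirror_f hi
      refine C.mirror.case3 (e := 2 * C.l - (e + 2)) ?_ ?_ ?_ ?_ ?_ ?_ ?_ ?_
      · rw [mirror_l]; omega
      · rw [mf _ (by omega), show 2 * C.l - (2 * C.l - (e + 2)) = e + 2 by omega, h2]
        norm_num
      · rw [mf _ (by omega), show 2 * C.l - (2 * C.l - (e + 2) + 1) = e + 1 by omega, h1]
        norm_num
      · rw [mf _ (by omega), show 2 * C.l - (2 * C.l - (e + 2) + 2) = e by omega, h0]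
        norm_num
      · intro i hi
        rw [mf _ (by omega)]
        have := hhigh (2 * C.l - i) (by omega) (by omega)
        omega
      · intro i hi hi'
        rw [mirror_l] at hi'
        rw [mf _ (by omega)]
        have := hlow (2 * C.l - i) (by omega)
        omega
      · intro y hy
        rw [mirror_W] at hy
        rw [C.mirror_mem_A (by omega), C.mirror_mem_A (by omega),
          show 2 * C.l - (2 * C.l - (e + 2)) = e + 2 by omega,
          show 2 * C.l - (2 * C.l - (e + 2) + 1) = e + 1 by omega]
        have h5 := hfull y hy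
        constructor
        · rintro ⟨-, h6⟩ ⟨-, h7⟩
          exact h7 (h5.1 h6)
        · intro h6
          refine ⟨hy, h5.2 ?_⟩
          by_contra h7
          exact h6 ⟨hy, h7⟩
      · rw [mirror_l]
        rcases hcase with h | ⟨h, h'⟩ | ⟨h, h', h'', h'''⟩
        · exact Or.inl h
        · exact Or.inr (Or.inl ⟨h, by omega⟩)
        · refine Or.inr (Or.inr ⟨h, by omega, ?_⟩)
          rw [mf _ (by omega), h]
          norm_num
          rw [h''']
          norm_num
    · push Not at hA
      have heq : C.A e = C.W \ C.A (e + 1) := by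
        apply eq_of_subset_of_card_le
        · intro y hy
          rw [mem_sdiff]
          exact ⟨C.A_sub _ hy, hA y hy⟩
        · rw [C.card_compl_A]
          change _ ≤ C.S e
          omega
      refine C.case3 he h0 h1 h2 hlow hhigh ?_ ?_
      · intro y hy
        rw [heq, mem_sdiff]
        exact ⟨fun h => h.2, fun h => ⟨hy, h⟩⟩
      · rcases hcase with h | ⟨h, h'⟩ | ⟨h, h', h'', h'''⟩
        · exact Or.inl h
        · exact Or.inr (Or.inl ⟨h, h'⟩)
        · exact Or.inr (Or.inr ⟨h, h', h''⟩)

end Config

end Pool.Agent.MP_dd0645_co
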