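import Mathlib

/-!
# Switching pairs of an involution; near perfect matchings in balanced colourings
-/

namespace Pool.Agent.MP_dd0645_co

open Finset

variable {V : Type} [DecidableEq V]

/-- Replace the pairs `{a, m a}`, `{b, m b}` by `{a, m b}`, `{b, m a}`. -/
def sw (m : V → V) (a b : V) : V → V := fun x => Equiv.swap a b (m (Equiv.swap a b x))

lemma sw_invol {m : V → V} (hm : ∀ x, m (m x) = x) (a b : V) (x : V) :
    sw m a b (sw m a b x) = x := by
  simp [sw, hm]

lemma sw_of_ne {m : V → V} (hm : ∀ x, m (m x) = x) {a b x : V} (h1 : x ≠ a) (h2 : x ≠ b)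
    (h3 : x ≠ m a) (h4 : x ≠ m b) : sw m a b x = m x := by
  have h5 : m x ≠ a := fun h => h3 (by rw [← h, hm])
  have h6 : m x ≠ b := fun h => h4 (by rw [← h, hm])
  simp [sw, Equiv.swap_apply_of_ne_of_ne, h1, h2, h5, h6]

lemma sw_left {m : V → V} {a b : V} (h1 : m b ≠ a) (h2 : m b ≠ b) : sw m a b a = m b := by
  simp [sw, Equiv.swap_apply_of_ne_of_ne h1 h2]

lemma sw_right {m : V → V} {a b : V} (h1 : m a ≠ a) (h2 : m a ≠ b) : sw m a b b = m a := by
  simp [sw, Equiv.swap_apply_of_ne_of_ne h1 h2]

lemma sw_mleft {m : V → V} (hm : ∀ x, m (m x) = x) {a b : V} (h1 : m a ≠ a) (h2 : m a ≠ b) :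
    sw m a b (m a) = b := by
  simp [sw, Equiv.swap_apply_of_ne_of_ne h1 h2, hm]

lemma sw_mright {m : V → V} (hm : ∀ x, m (m x) = x) {a b : V} (h1 : m b ≠ a) (h2 : m b ≠ b) :
    sw m a b (m b) = a := by
  simp [sw, Equiv.swap_apply_of_ne_of_ne h1 h2, hm]

omit [DecidableEq V] in
lemma even_card_of_invol (S : Finset V) (m : V → V) (h1 : ∀ x ∈ S, m x ∈ S)
    (h2 : ∀ x ∈ S, m (m x) = x) (h3 : ∀ x ∈ S, m x ≠ x) : Even S.card := by
  have h : ∑ x ∈ S, (1 : ZMod 2) = 0 :=
    Finset.sum_involution (fun x _ => m x) (fun x _ => by decide) (fun x hx _ => h3 x hx)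
      (fun x hx => h1 x hx) (fun x hx => h2 x hx)
  rw [Finset.sum_const, nsmul_eq_mul, mul_one] at h
  exact (ZMod.natCast_eq_zero_iff_even).1 h

variable [Fintype V]

/-- a matching in colour `g` avoiding `v₀` -/
def PMat (c : V → V → Bool) (g : Bool) (v₀ : V) (m : V → V) : Prop :=
  (∀ x, m (m x) = x) ∧ m v₀ = v₀ ∧ ∀ x, m x ≠ x → c x (m x) = g

/-- the fixed points (unmatched vertices) -/
def fixd (m : V → V) : Finset V := univ.filter (fun x => m x = x)

lemma mem_fixd {m : V → V} {x : V} : x ∈ fixd m ↔ m x = x := by simp [fixd]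

/-- a maximum matching -/
def MinM (c : V → V → Bool) (g : Bool) (v₀ : V) (m : V → V) : Prop :=
  PMat c g v₀ m ∧ ∀ m', PMat c g v₀ m' → (fixd m).card ≤ (fixd m').card

variable {c : V → V → Bool} {g : Bool} {v₀ : V}

lemma exists_minM (c : V → V → Bool) (g : Bool) (v₀ : V) : ∃ m, MinM c g v₀ m := by
  classical
  have hne : (univ.filter (fun m : V → V => PMat c g v₀ m)).Nonempty :=
    ⟨id, mem_filter.2 ⟨mem_univ _, fun _ => rfl, rfl, fun x hx => absurd rfl hx⟩⟩
  obtain ⟨m, hm, hmin⟩ := Finset.exists_min_image _ (fun m => (fixd m).card) hne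
  rw [mem_filter] at hm
  exact ⟨m, hm.2, fun m' hm' => hmin m' (by rw [mem_filter]; exact ⟨mem_univ _, hm'⟩)⟩

lemma MinM.nonadj (hsymm : ∀ x y, c x y = c y x) {m : V → V} (hm : MinM c g v₀ m) {x y : V}
    (hxy : x ≠ y) (hx : m x = x) (hy : m y = y) (hxv : x ≠ v₀) (hyv : y ≠ v₀) : c x y ≠ g := by
  intro hc
  obtain ⟨⟨h1, h2, h3⟩, hmin⟩ := hm
  let m' : V → V := fun z => Equiv.swap x y (m z)
  have ex : m' x = y := by simp [m', hx]
  have ey : m' y = x := by simp [m', hy]
  have eo : ∀ z, z ≠ x → z ≠ y → m' z = m z := by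
    intro z hzx hzy
    have h5 : m z ≠ x := fun h => hzx (by rw [← h1 z, h, hx])
    have h6 : m z ≠ y := fun h => hzy (by rw [← h1 z, h, hy])
    simp [m', Equiv.swap_apply_of_ne_of_ne h5 h6]
  have hP : PMat c g v₀ m' := by
    refine ⟨?_, ?_, ?_⟩
    · intro z
      by_cases hzx : z = x
      · subst hzx; rw [ex, ey]
      by_cases hzy : z = y
      · subst hzy; rw [ey, ex]
      have h5 : m z ≠ x := fun h => hzx (by rw [← h1 z, h, hx])
      have h6 : m z ≠ y := fun h => hzy (by rw [← h1 z, h, hy])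
      rw [eo z hzx hzy, eo _ h5 h6, h1]
    · rw [eo v₀ hxv.symm hyv.symm, h2]
    · intro z hz
      by_cases hzx : z = x
      · subst hzx; rw [ex]; exact hc
      by_cases hzy : z = y
      · subst hzy; rw [ey, hsymm]; exact hc
      rw [eo z hzx hzy] at hz ⊢
      exact h3 z hz
  have hlt : (fixd m').card < (fixd m).card := by
    apply card_lt_card
    rw [ssubset_iff_of_subset]
    · refine ⟨x, mem_fixd.2 hx, ?_⟩
      rw [mem_fixd, ex]
      exact hxy.symm
    · intro z hz
      rw [mem_fixd] at hz ⊢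
      by_cases hzx : z = x
      · subst hzx; exact hx
      by_cases hzy : z = y
      · subst hzy; exact hy
      rwa [eo z hzx hzy] at hz
  exact absurd (hmin m' hP) (not_le.2 hlt)

lemma MinM.switch (hsymm : ∀ x y, c x y = c y x) {m : V → V} (hm : MinM c g v₀ m) {x a : V}
    (hx : m x = x) (hxv : x ≠ v₀) (ha : m a ≠ a) (hc : c x a = g) :
    MinM c g v₀ (sw m x (m a)) ∧ sw m x (m a) (m a) = m a ∧ sw m x (m a) x = a ∧
      sw m x (m a) a = x ∧ ∀ z, z ≠ x → z ≠ a → z ≠ m a → sw m x (m a) z = m z := by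
  obtain ⟨⟨h1, h2, h3⟩, hmin⟩ := hm
  have hax : a ≠ x := fun h => ha (by rw [h, hx])
  have hbx : m a ≠ x := fun h => hax (by rw [← h1 a, h, hx])
  have e1 : sw m x (m a) (m a) = m a := by simp [sw, hx]
  have e2 : sw m x (m a) x = a := by
    simp only [sw, Equiv.swap_apply_left, h1]
    exact Equiv.swap_apply_of_ne_of_ne hax ha.symm
  have e3 : sw m x (m a) a = x := by
    simp only [sw]
    rw [Equiv.swap_apply_of_ne_of_ne hax ha.symm, Equiv.swap_apply_right]
  have e4 : ∀ z, z ≠ x → z ≠ a → z ≠ m a → sw m x (m a) z = m z := by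
    intro z hzx hza hzb
    apply sw_of_ne h1 hzx hzb
    · rw [hx]; exact hzx
    · rw [h1]; exact hza
  have hav : a ≠ v₀ := fun h => ha (by rw [h, h2])
  have hbv : m a ≠ v₀ := fun h => hav (by rw [← h1 a, h, h2])
  have hP : PMat c g v₀ (sw m x (m a)) := by
    refine ⟨sw_invol h1 _ _, ?_, ?_⟩
    · rw [e4 v₀ hxv.symm hav.symm hbv.symm, h2]
    · intro z hz
      by_cases hzx : z = x
      · subst hzx; rw [e2]; exact hc
      by_cases hza : z = a
      · subst hza; rw [e3, hsymm]; exact hc
      by_cases hzb : z = m a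
      · subst hzb; exact absurd e1 hz
      rw [e4 z hzx hza hzb] at hz ⊢
      exact h3 z hz
  refine ⟨⟨hP, fun m' hm' => ?_⟩, e1, e2, e3, e4⟩
  refine le_trans (le_of_eq ?_) (hmin m' hm')
  apply card_bij (fun z _ => Equiv.swap x (m a) z)
  · intro z hz
    rw [mem_fixd] at hz ⊢
    simp only [sw] at hz
    have := congrArg (Equiv.swap x (m a)) hz
    rwa [Equiv.swap_apply_self] at this
  · intro z _ z' _ h
    exact (Equiv.swap x (m a)).injective h
  · intro z hz
    rw [mem_fixd] at hz
    refine ⟨Equiv.swap x (m a) z, ?_, Equiv.swap_apply_self _ _ _⟩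
    rw [mem_fixd]
    simp [sw, hz]

/-- the main count for two unmatched vertices of a maximum matching -/
lemma MinM.count (hsymm : ∀ x y, c x y = c y x) {n : ℕ} (hn : 1 ≤ n)
    (hdeg : ∀ x, (univ.filter (fun y => y ≠ x ∧ c x y = g)).card = n)
    (hcard : Fintype.card V = 2 * n + 1) {m : V → V}
    (hm : MinM c g v₀ m) {x y : V} (hxy : x ≠ y) (hx : m x = x) (hy : m y = y) (hxv : x ≠ v₀)
    (hyv : y ≠ v₀) :
    c x v₀ = g ∧ c y v₀ = g ∧ (univ.filter (fun a => m a ≠ a ∧ c x a = g)).card + 1 = n ∧
      ∀ a, m a ≠ a → (c y a = g ↔ ¬ c x (m a) = g) := by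
  have hm' := hm
  obtain ⟨⟨h1, h2, h3⟩, hmin⟩ := hm'
  set M := univ.filter (fun a => m a ≠ a) with hM
  have hMcard : M.card + 3 ≤ 2 * n + 1 := by
    have e1 : M.card + (fixd m).card = 2 * n + 1 := by
      rw [← hcard, ← card_univ, hM, fixd]
      rw [add_comm]
      exact card_filter_add_card_filter_not (fun a => m a = a)
    have e2 : 3 ≤ (fixd m).card := by
      have : ({v₀, x, y} : Finset V) ⊆ fixd m := by
        intro z hz
        simp only [mem_insert, mem_singleton] at hz
        rw [mem_fixd]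
        rcases hz with rfl | rfl | rfl
        · exact h2
        · exact hx
        · exact hy
      have h3 : ({v₀, x, y} : Finset V).card = 3 := by
        rw [card_insert_of_notMem, card_insert_of_notMem, card_singleton]
        · simpa using hxy
        · simp [hxv.symm, hyv.symm]
      rw [← h3]
      exact card_le_card this
    omega
  have hnb : ∀ z w : V, z ≠ w → m z = z → m w = w → z ≠ v₀ → w ≠ v₀ →
      n ≤ (univ.filter (fun a => m a ≠ a ∧ c z a = g)).card + (if c z v₀ = g then 1 else 0) := by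
    intro z w _ hz _ hzv _
    rw [← hdeg z]
    have hsub : univ.filter (fun y => y ≠ z ∧ c z y = g) ⊆
        univ.filter (fun a => m a ≠ a ∧ c z a = g) ∪ (if c z v₀ = g then {v₀} else ∅) := by
      intro y hy
      simp only [mem_filter, mem_univ, true_and] at hy
      rw [mem_union, mem_filter]
      by_cases hmy : m y = y
      · by_cases hyv : y = v₀
        · subst hyv
          right
          rw [if_pos hy.2]
          simp
        · exact absurd hy.2 (hm.nonadj hsymm hy.1.symm hz hmy hzv hyv)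
      · exact Or.inl ⟨mem_univ _, hmy, hy.2⟩
    refine (card_le_card hsub).trans ((card_union_le _ _).trans ?_)
    apply Nat.add_le_add_left
    split_ifs <;> simp
  have hnx := hnb x y hxy hx hy hxv hyv
  have hny := hnb y x hxy.symm hy hx hyv hxv
  set Nx := univ.filter (fun a => m a ≠ a ∧ c x a = g) with hNx
  set Ny := univ.filter (fun a => m a ≠ a ∧ c y a = g) with hNy
  have hdisj : Disjoint (Nx.image m) Ny := by
    rw [disjoint_left]
    intro b hb hb'
    rw [mem_image] at hb
    obtain ⟨a, ha, rfl⟩ := hb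
    simp only [hNx, hNy, mem_filter, mem_univ, true_and] at ha hb'
    obtain ⟨hm1, e1, e2, e3, e4⟩ := hm.switch hsymm hx hxv ha.1 ha.2
    have hya : y ≠ a := fun h => ha.1 (by rw [← h, hy])
    have hyb : y ≠ m a := by
      intro h
      apply hb'.1
      rw [← h, hy]
    have hmav : m a ≠ v₀ := by
      intro h
      apply hb'.1
      rw [h, h2]
    have e5 : sw m x (m a) y = y := by rw [e4 y hxy.symm hya hyb, hy]
    exact hm1.nonadj hsymm hyb e5 e1 hyv hmav hb'.2
  have hcardx : (Nx.image m).card = Nx.card := by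
    apply card_image_of_injective
    intro a b hab
    rw [← h1 a, hab, h1]
  have hsub : Nx.image m ∪ Ny ⊆ M := by
    intro b hb
    rw [mem_union, mem_image] at hb
    rw [hM, mem_filter]
    refine ⟨mem_univ _, ?_⟩
    rcases hb with ⟨a, ha, rfl⟩ | hb
    · simp only [hNx, mem_filter, mem_univ, true_and] at ha
      intro h
      rw [h1] at h
      exact ha.1 h.symm
    · simp only [hNy, mem_filter, mem_univ, true_and] at hb
      exact hb.1
  have hle : Nx.card + Ny.card ≤ M.card := by
    rw [← hcardx, ← card_union_of_disjoint hdisj]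
    exact card_le_card hsub
  have hcx : c x v₀ = g := by
    by_contra h
    rw [if_neg h] at hnx
    split_ifs at hny <;> omega
  have hcy : c y v₀ = g := by
    by_contra h
    rw [if_neg h] at hny
    split_ifs at hnx <;> omega
  rw [if_pos hcx] at hnx
  rw [if_pos hcy] at hny
  refine ⟨hcx, hcy, by omega, ?_⟩
  have heq : Nx.image m ∪ Ny = M := by
    apply eq_of_subset_of_card_le hsub
    rw [card_union_of_disjoint hdisj, hcardx]
    omega
  intro a ha
  have haM : a ∈ M := by rw [hM, mem_filter]; exact ⟨mem_univ _, ha⟩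
  have hma : m (m a) ≠ m a := by rw [h1]; exact ha.symm
  constructor
  · intro hca hcx'
    rw [disjoint_left] at hdisj
    apply hdisj (a := a)
    · rw [mem_image]
      refine ⟨m a, ?_, h1 a⟩
      simp only [hNx, mem_filter, mem_univ, true_and]
      exact ⟨hma, hcx'⟩
    · simp only [hNy, mem_filter, mem_univ, true_and]
      exact ⟨ha, hca⟩
  · intro hcx'
    rw [← heq, mem_union, mem_image] at haM
    rcases haM with ⟨b, hb, rfl⟩ | hb
    · exfalso
      apply hcx'
      rw [h1]
      simp only [hNx, mem_filter, mem_univ, true_and] at hb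
      exact hb.2
    · simp only [hNy, mem_filter, mem_univ, true_and] at hb
      exact hb.2

/-- **Near perfect matchings.** If every vertex has exactly `n` neighbours in colour `g`, there
are `2n+1` vertices and `n` is even, then there is a perfect matching in colour `g` of the
vertices different from `v₀`. -/
theorem exists_matching (hsymm : ∀ x y, c x y = c y x) {n : ℕ} (hn : 1 ≤ n) (heven : Even n)
    (hdeg : ∀ x, (univ.filter (fun y => y ≠ x ∧ c x y = g)).card = n)
    (hcard : Fintype.card V = 2 * n + 1) (v₀ : V) :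
    ∃ m : V → V, (∀ x, m (m x) = x) ∧ m v₀ = v₀ ∧ (∀ x, x ≠ v₀ → m x ≠ x) ∧
      ∀ x, x ≠ v₀ → c x (m x) = g := by
  obtain ⟨m, hm⟩ := exists_minM c g v₀
  have hm' := hm
  obtain ⟨⟨h1, h2, h3⟩, hmin⟩ := hm'
  by_cases hall : ∀ x, x ≠ v₀ → m x ≠ x
  · exact ⟨m, h1, h2, hall, fun x hx => h3 x (hall x hx)⟩
  exfalso
  push Not at hall
  obtain ⟨x, hxv, hx⟩ := hall
  -- a third unmatched vertex
  obtain ⟨y, hxy, hyv, hy⟩ : ∃ y, x ≠ y ∧ y ≠ v₀ ∧ m y = y := by
    by_contra hcon
    push Not at hcon
    have hfix : fixd m = {v₀, x} := by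
      ext z
      rw [mem_fixd, mem_insert, mem_singleton]
      constructor
      · intro hz
        by_contra hne
        push Not at hne
        exact hcon z hne.2.symm hne.1 hz
      · rintro (rfl | rfl)
        · exact h2
        · exact hx
    have e1 : (univ.filter (fun a => m a ≠ a)).card + (fixd m).card = 2 * n + 1 := by
      rw [← hcard, ← card_univ, fixd, add_comm]
      exact card_filter_add_card_filter_not (fun a => m a = a)
    rw [hfix, card_pair hxv.symm] at e1
    have e2 : Even (univ.filter (fun a => m a ≠ a)).card := by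
      apply even_card_of_invol _ m
      · intro a ha
        simp only [mem_filter, mem_univ, true_and] at ha ⊢
        rw [h1]
        exact ha.symm
      · intro a _
        exact h1 a
      · intro a ha
        simp only [mem_filter, mem_univ, true_and] at ha
        exact ha
    obtain ⟨k, hk⟩ := e2
    omega
  obtain ⟨hcx, hcy, hNx, hL⟩ := hm.count hsymm hn hdeg hcard hxy hx hy hxv hyv
  set Nx := univ.filter (fun a => m a ≠ a ∧ c x a = g) with hNxdef
  -- every type one pair gives a neighbour of `v₀`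
  have key : ∀ a, m a ≠ a → c x a = g → ¬ c x (m a) = g → c (m a) v₀ = g ∧
      ∀ z, m z ≠ z → z ≠ a → z ≠ m a → (c x z = g ↔ c y z = g) := by
    intro a ha hca hcb
    have hcya : c y a = g := (hL a ha).2 hcb
    have hax : a ≠ x := fun h => ha (by rw [h, hx])
    have hay : a ≠ y := fun h => ha (by rw [h, hy])
    have hbx : m a ≠ x := fun h => hax (by rw [← h1 a, h, hx])
    have hby : m a ≠ y := fun h => hay (by rw [← h1 a, h, hy])
    have hav : a ≠ v₀ := fun h => ha (by rw [h, h2])
    have hbv : m a ≠ v₀ := fun h => hav (by rw [← h1 a, h, h2])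
    obtain ⟨hm1, e1, e2, e3, e4⟩ := hm.switch hsymm hx hxv ha hca
    obtain ⟨hm2, f1, f2, f3, f4⟩ := hm.switch hsymm hy hyv ha hcya
    have e5 : sw m x (m a) y = y := by rw [e4 y hxy.symm hay.symm hby.symm, hy]
    have f5 : sw m y (m a) x = x := by rw [f4 x hxy hax.symm hbx.symm, hx]
    obtain ⟨hb1, -, -, hL1⟩ := hm1.count hsymm hn hdeg hcard hby e1 e5 hbv hyv
    obtain ⟨-, -, -, hL2⟩ := hm2.count hsymm hn hdeg hcard hbx f1 f5 hbv hxv
    refine ⟨hb1, ?_⟩
    intro z hz hza hzb
    have hzx : z ≠ x := fun h => hz (by rw [h, hx])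
    have hzy : z ≠ y := fun h => hz (by rw [h, hy])
    have g1 := hL1 z (by rw [e4 z hzx hza hzb]; exact hz)
    have g2 := hL2 z (by rw [f4 z hzy hza hzb]; exact hz)
    rw [e4 z hzx hza hzb] at g1
    rw [f4 z hzy hza hzb] at g2
    rw [g1, g2]
  -- a type one pair exists
  obtain ⟨a, ha, hca, hcb⟩ : ∃ a, m a ≠ a ∧ c x a = g ∧ ¬ c x (m a) = g := by
    by_contra hcon
    push Not at hcon
    have : Even Nx.card := by
      apply even_card_of_invol _ m
      · intro a ha
        simp only [hNxdef, mem_filter, mem_univ, true_and] at ha ⊢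
        refine ⟨?_, hcon a ha.1 ha.2⟩
        rw [h1]
        exact ha.1.symm
      · intro a _
        exact h1 a
      · intro a ha
        simp only [hNxdef, mem_filter, mem_univ, true_and] at ha
        exact ha.1
    obtain ⟨k, hk⟩ := this
    obtain ⟨k', hk'⟩ := heven
    omega
  have hone : ∀ z, m z ≠ z → (c x z = g ↔ ¬ c x (m z) = g) := by
    intro z hz
    by_cases hza : z = a
    · subst hza
      exact ⟨fun _ => hcb, fun _ => hca⟩
    by_cases hzb : z = m a
    · subst hzb
      rw [h1]
      exact ⟨fun h => absurd h hcb, fun h => absurd hca h⟩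
    rw [(key a ha hca hcb).2 z hz hza hzb, hL z hz]
  have hsub : insert x (insert y (Nx.image m)) ⊆
      univ.filter (fun z => z ≠ v₀ ∧ c v₀ z = g) := by
    intro z hz
    rw [mem_insert, mem_insert, mem_image] at hz
    rw [mem_filter]
    refine ⟨mem_univ _, ?_⟩
    rcases hz with rfl | rfl | ⟨b, hb, rfl⟩
    · exact ⟨hxv, by rw [hsymm]; exact hcx⟩
    · exact ⟨hyv, by rw [hsymm]; exact hcy⟩
    · simp only [hNxdef, mem_filter, mem_univ, true_and] at hb
      refine ⟨?_, ?_⟩
      · intro h
        apply hb.1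
        have : m b = b := by
          have h5 := h1 b
          rw [h, h2] at h5
          rw [h, h5]
        exact this
      · rw [hsymm]
        exact (key b hb.1 hb.2 ((hone b hb.1).1 hb.2)).1
  have hc1 : (insert x (insert y (Nx.image m))).card = Nx.card + 2 := by
    have hinj : (Nx.image m).card = Nx.card := by
      apply card_image_of_injective
      intro a b hab
      rw [← h1 a, hab, h1]
    have hnot : ∀ z, m z = z → z ∉ Nx.image m := by
      intro z hz hz'
      rw [mem_image] at hz'
      obtain ⟨b, hb, rfl⟩ := hz'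
      simp only [hNxdef, mem_filter, mem_univ, true_and] at hb
      apply hb.1
      rw [h1] at hz
      exact hz.symm
    rw [card_insert_of_notMem, card_insert_of_notMem (hnot y hy), hinj]
    rw [mem_insert]
    rintro (h | h)
    · exact hxy h
    · exact hnot x hx h
  have := card_le_card hsub
  rw [hc1, hdeg] at this
  omega

end Pool.Agent.MP_dd0645_co
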