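import Mathlib
import Pool.Agent.Lib.MP_dd0645_co.Cases
import Pool.Agent.Lib.MP_dd0645_co.Match

/-!
# Pairs of near perfect matchings and the path joining the two exceptional vertices
-/

namespace Pool.Agent.MP_dd0645_co

open Finset

/-- A matching of colour `false` missing exactly `v`, and a matching of colour `true` missing
exactly `u`. -/
structure Sys (V : Type) (c : V → V → Bool) (u v : V) where
  m : Bool → V → V
  invol : ∀ g x, m g (m g x) = x
  fix : ∀ g x, m g x = x ↔ x = cond g u v
  colr : ∀ g x, m g x ≠ x → c x (m g x) = g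

namespace Sys

variable {V : Type} {c : V → V → Bool} {u v : V} (S : Sys V c u v)

/-- the alternating walk starting at `u` -/
def walk : ℕ → V
  | 0 => u
  | i + 1 => S.m (col i) (walk i)

lemma walk_zero : S.walk 0 = u := rfl

lemma walk_succ (i : ℕ) : S.walk (i + 1) = S.m (col i) (S.walk i) := rfl

lemma walk_back (i : ℕ) : S.m (col i) (S.walk (i + 1)) = S.walk i := by
  rw [walk_succ, S.invol]

lemma m_u : S.m true u = u := (S.fix true u).2 rfl

lemma m_v : S.m false v = v := (S.fix false v).2 rfl

lemma range_closed (g : Bool) (i : ℕ) : ∃ j, S.walk j = S.m g (S.walk i) := by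
  by_cases hg : g = col i
  · exact ⟨i + 1, by rw [S.walk_succ, hg]⟩
  · rcases i with _ | k
    · have hg' : g = true := by
        have : col 0 = false := by decide
        rw [this] at hg
        cases g
        · exact absurd rfl hg
        · rfl
      refine ⟨0, ?_⟩
      rw [S.walk_zero, hg', S.m_u]
    · refine ⟨k, ?_⟩
      have : g = col k := by
        rw [col_succ] at hg
        revert hg
        cases g <;> cases col k <;> simp
      rw [this, S.walk_back]

lemma reach [Fintype V] [DecidableEq V] : ∃ j, S.walk j = v := by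
  classical
  by_contra hcon
  push Not at hcon
  let R : Finset V := univ.filter (fun x => ∃ i, S.walk i = x)
  have memR : ∀ x, x ∈ R ↔ ∃ i, S.walk i = x := by
    intro x
    simp only [R, mem_filter, mem_univ, true_and]
  have hR : ∀ g x, x ∈ R → S.m g x ∈ R := by
    intro g x hx
    rw [memR] at hx ⊢
    obtain ⟨i, rfl⟩ := hx
    exact S.range_closed g i
  have hu : u ∈ R := (memR u).2 ⟨0, rfl⟩
  have e1 : Even R.card := even_card_of_invol R (S.m false) (hR false) (fun x _ => S.invol _ x)
    (fun x hx h => by
      rw [S.fix] at h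
      obtain ⟨i, hi⟩ := (memR x).1 hx
      exact hcon i (hi.trans h))
  have e2 : Even (R.erase u).card := even_card_of_invol (R.erase u) (S.m true)
    (fun x hx => by
      rw [mem_erase] at hx ⊢
      refine ⟨?_, hR _ _ hx.2⟩
      intro h
      apply hx.1
      rw [← S.invol true x, h, S.m_u])
    (fun x _ => S.invol _ x)
    (fun x hx h => by
      rw [S.fix] at h
      rw [mem_erase] at hx
      exact hx.1 h)
  rw [card_erase_of_mem hu] at e2
  have hpos : 0 < R.card := card_pos.2 ⟨u, hu⟩
  obtain ⟨a, ha⟩ := e1
  obtain ⟨b, hb⟩ := e2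
  omega

variable [Fintype V] [DecidableEq V]

lemma exists_l : ∃ l, S.walk (2 * l) = v ∧ ∀ j < 2 * l, S.walk j ≠ v := by
  have h1 := Nat.find_spec S.reach
  have h2 := fun j (hj : j < Nat.find S.reach) => Nat.find_min S.reach hj
  generalize Nat.find S.reach = j at h1 h2
  rcases Nat.even_or_odd' j with ⟨l, h | h⟩
  · subst h
    exact ⟨l, h1, h2⟩
  · exfalso
    subst h
    have hc : col (2 * l) = false := by
      have : col 0 = false := by decide
      rw [← this, col_eq_iff]
      omega
    rw [S.walk_succ, hc] at h1
    have h3 : S.walk (2 * l) = v := by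
      rw [← S.invol false (S.walk (2 * l)), h1, S.m_v]
    exact h2 (2 * l) (by omega) h3

/-- half of the length of the path -/
noncomputable def l : ℕ := Classical.choose S.exists_l

lemma walk_l : S.walk (2 * S.l) = v := (Classical.choose_spec S.exists_l).1

lemma walk_ne {j : ℕ} (hj : j < 2 * S.l) : S.walk j ≠ v :=
  (Classical.choose_spec S.exists_l).2 j hj

lemma col_true {i : ℕ} (h : col i = true) : i % 2 = 1 := by
  have : col 1 = true := by decide
  rw [← this, col_eq_iff] at h
  omega

lemma odd_ne : ∀ r, r % 2 = 1 → r < 2 * S.l → S.walk r ≠ u := by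
  intro r
  induction r using Nat.strong_induction_on with
  | _ r ih =>
    intro hr hr' h
    have key : ∀ t, t ≤ r → S.walk t = S.walk (r - t) := by
      intro t
      induction t with
      | zero => intro _; rw [Nat.sub_zero, h, S.walk_zero]
      | succ t iht =>
        intro ht
        have h1 := iht (by omega)
        have h2 : col t = col (r - (t + 1)) := by rw [col_eq_iff]; omega
        have h3 := S.walk_back (r - (t + 1))
        rw [show r - (t + 1) + 1 = r - t by omega, ← h1, ← h2] at h3
        exact h3
    have h4 := key (r / 2) (by omega)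
    rw [show r - r / 2 = r / 2 + 1 by omega, S.walk_succ] at h4
    cases hc : col (r / 2) with
    | false =>
      rw [hc] at h4
      exact S.walk_ne (by omega) ((S.fix false _).1 h4.symm)
    | true =>
      rw [hc] at h4
      exact ih (r / 2) (by omega) (col_true hc) (by omega) ((S.fix true _).1 h4.symm)

lemma walk_inj_aux {a b : ℕ} (hab : a < b) (hb : b ≤ 2 * S.l) : S.walk a ≠ S.walk b := by
  intro h
  by_cases hpar : a % 2 = b % 2
  · have key : ∀ t, S.walk (a + t) = S.walk (b + t) := by
      intro t
      induction t with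
      | zero => exact h
      | succ t ih =>
        rw [← add_assoc, ← add_assoc, S.walk_succ, S.walk_succ, ih,
          (col_eq_iff (a + t) (b + t)).2 (by omega)]
    have h1 := key (2 * S.l - b)
    rw [show b + (2 * S.l - b) = 2 * S.l by omega, S.walk_l] at h1
    exact S.walk_ne (by omega) h1
  · have key : ∀ t, t ≤ b → S.walk (a + t) = S.walk (b - t) := by
      intro t
      induction t with
      | zero => intro _; exact h
      | succ t iht =>
        intro ht
        have h1 := iht (by omega)
        have h2 : col (a + t) = col (b - (t + 1)) := by rw [col_eq_iff]; omega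
        have h3 := S.walk_back (b - (t + 1))
        rw [show b - (t + 1) + 1 = b - t by omega, ← h1, ← h2] at h3
        exact h3
    have h4 := key ((b - a) / 2) (by omega)
    rw [show b - (b - a) / 2 = a + (b - a) / 2 + 1 by omega, S.walk_succ] at h4
    cases hc : col (a + (b - a) / 2) with
    | false =>
      rw [hc] at h4
      exact S.walk_ne (by omega) ((S.fix false _).1 h4.symm)
    | true =>
      rw [hc] at h4
      exact S.odd_ne _ (col_true hc) (by omega) ((S.fix true _).1 h4.symm)

lemma walk_inj {a b : ℕ} (ha : a ≤ 2 * S.l) (hb : b ≤ 2 * S.l) (hab : a ≠ b) :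
    S.walk a ≠ S.walk b := by
  rcases lt_or_gt_of_ne hab with h | h
  · exact S.walk_inj_aux h hb
  · exact (S.walk_inj_aux h ha).symm

/-- the component of the path -/
noncomputable def comp : Finset V := (range (2 * S.l + 1)).image S.walk

lemma mem_comp {x : V} : x ∈ S.comp ↔ ∃ i ≤ 2 * S.l, S.walk i = x := by
  rw [comp, mem_image]
  constructor
  · rintro ⟨i, hi, h⟩
    rw [mem_range] at hi
    exact ⟨i, by omega, h⟩
  · rintro ⟨i, hi, h⟩
    exact ⟨i, by rw [mem_range]; omega, h⟩

lemma card_comp : S.comp.card = 2 * S.l + 1 := by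
  rw [comp, card_image_of_injOn, card_range]
  intro i hi j hj h
  rw [mem_coe, mem_range] at hi hj
  by_contra hij
  exact S.walk_inj (by omega) (by omega) hij h

lemma u_mem : u ∈ S.comp := S.mem_comp.2 ⟨0, by omega, rfl⟩

lemma v_mem : v ∈ S.comp := S.mem_comp.2 ⟨2 * S.l, le_rfl, S.walk_l⟩

lemma closed (g : Bool) {x : V} (hx : x ∈ S.comp) : S.m g x ∈ S.comp := by
  rw [mem_comp] at hx ⊢
  obtain ⟨i, hi, rfl⟩ := hx
  by_cases hg : g = col i
  · rcases Nat.lt_or_ge i (2 * S.l) with h | h
    · exact ⟨i + 1, by omega, by rw [S.walk_succ, hg]⟩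
    · have hi' : i = 2 * S.l := by omega
      refine ⟨i, hi, ?_⟩
      have hc : col i = false := by
        have : col 0 = false := by decide
        rw [← this, col_eq_iff]
        omega
      rw [hg, hc, hi', S.walk_l, S.m_v]
  · rcases i with _ | k
    · have hg' : g = true := by
        have : col 0 = false := by decide
        rw [this] at hg
        cases g
        · exact absurd rfl hg
        · rfl
      refine ⟨0, by omega, ?_⟩
      rw [S.walk_zero, hg', S.m_u]
    · refine ⟨k, by omega, ?_⟩
      have : g = col k := by
        rw [col_succ] at hg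
        revert hg
        cases g <;> cases col k <;> simp
      rw [this, S.walk_back]

lemma l_le : 2 * S.l + 1 ≤ Fintype.card V := by
  rw [← S.card_comp, ← card_univ]
  exact card_le_card (subset_univ _)

/-- a system with the longest path -/
lemma exists_max (h : Nonempty (Sys V c u v)) : ∃ S : Sys V c u v, ∀ S' : Sys V c u v,
    S'.l ≤ S.l := by
  obtain ⟨S₀⟩ := h
  have hb : BddAbove (Set.range (fun S : Sys V c u v => S.l)) := by
    refine ⟨Fintype.card V, ?_⟩
    rintro _ ⟨S, rfl⟩
    have := S.l_le
    change S.l ≤ _
    omega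
  have hne : (Set.range (fun S : Sys V c u v => S.l)).Nonempty := ⟨_, S₀, rfl⟩
  obtain ⟨S, hS⟩ := Nat.sSup_mem hne hb
  refine ⟨S, fun S' => ?_⟩
  have h1 := le_csSup hb ⟨S', rfl⟩
  rw [← hS] at h1
  exact h1

end Sys

end Pool.Agent.MP_dd0645_co
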