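import Mathlib
import Pool.Agent.Lib.MP_dd0645_co.Sys

/-!
# Exchanges, and the existence of alternating Hamilton paths
-/

namespace Pool.Agent.MP_dd0645_co

open Finset

section Ap

variable {V : Type} [DecidableEq V]

/-- the list of all entries of a list of pairs -/
def flat : List (V × V) → List V
  | [] => []
  | (a, b) :: L => a :: b :: flat L

/-- the involution `m` with the pairs in the list replaced -/
def ap (m : V → V) : List (V × V) → V → V
  | [], x => m x
  | (a, b) :: L, x => if x = a then b else if x = b then a else ap m L x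

lemma ap_notMem (m : V → V) (L : List (V × V)) {x : V} (hx : x ∉ flat L) : ap m L x = m x := by
  induction L with
  | nil => rfl
  | cons ab L ih =>
    obtain ⟨a, b⟩ := ab
    simp only [flat, List.mem_cons, not_or] at hx
    rw [ap, if_neg hx.1, if_neg hx.2.1, ih hx.2.2]

omit [DecidableEq V] in
lemma mem_flat {L : List (V × V)} {x : V} : x ∈ flat L ↔ ∃ a b, (a, b) ∈ L ∧ (x = a ∨ x = b) := by
  induction L with
  | nil => simp [flat]
  | cons ab L ih =>
    obtain ⟨a, b⟩ := ab
    simp only [flat, List.mem_cons, ih, Prod.mk.injEq]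
    constructor
    · rintro (h | h | ⟨a', b', h, h'⟩)
      · exact ⟨a, b, Or.inl ⟨rfl, rfl⟩, Or.inl h⟩
      · exact ⟨a, b, Or.inl ⟨rfl, rfl⟩, Or.inr h⟩
      · exact ⟨a', b', Or.inr h, h'⟩
    · rintro ⟨a', b', (⟨rfl, rfl⟩ | h), h'⟩
      · rcases h' with h' | h'
        · exact Or.inl h'
        · exact Or.inr (Or.inl h')
      · exact Or.inr (Or.inr ⟨a', b', h, h'⟩)

lemma ap_pair (m : V → V) (L : List (V × V)) (hnd : (flat L).Nodup) {a b : V} (hab : (a, b) ∈ L) :
    ap m L a = b ∧ ap m L b = a ∧ a ≠ b := by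
  induction L with
  | nil => simp at hab
  | cons ab L ih =>
    obtain ⟨a', b'⟩ := ab
    simp only [flat, List.nodup_cons, List.mem_cons, not_or] at hnd
    obtain ⟨⟨h1, h2⟩, h3, h4⟩ := hnd
    rw [List.mem_cons] at hab
    rcases hab with hab | hab
    · rw [Prod.mk.injEq] at hab
      obtain ⟨rfl, rfl⟩ := hab
      refine ⟨by rw [ap, if_pos rfl], ?_, h1⟩
      rw [ap, if_neg (fun h => h1 h.symm), if_pos rfl]
    · have ha : a ∈ flat L := mem_flat.2 ⟨a, b, hab, Or.inl rfl⟩
      have hb : b ∈ flat L := mem_flat.2 ⟨a, b, hab, Or.inr rfl⟩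
      obtain ⟨i1, i2, i3⟩ := ih h4 hab
      refine ⟨?_, ?_, i3⟩
      · rw [ap, if_neg, if_neg, i1]
        · rintro rfl; exact h3 ha
        · rintro rfl; exact h2 ha
      · rw [ap, if_neg, if_neg, i2]
        · rintro rfl; exact h3 hb
        · rintro rfl; exact h2 hb

end Ap

namespace Sys

variable {V : Type} [Fintype V] [DecidableEq V] {c : V → V → Bool} {u v : V} (S : Sys V c u v)

omit [Fintype V] in
lemma exists_switch (hsymm : ∀ x y, c x y = c y x) (g : Bool) (L : List (V × V))
    (hnd : (flat L).Nodup)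
    (hcl : ∀ x ∈ flat L, S.m g x ∈ flat L) (hfix : ∀ x ∈ flat L, S.m g x ≠ x)
    (hcol : ∀ a b, (a, b) ∈ L → c a b = g) :
    ∃ S' : Sys V c u v, S'.m (!g) = S.m (!g) ∧ (∀ x, x ∉ flat L → S'.m g x = S.m g x) ∧
      ∀ a b, (a, b) ∈ L → S'.m g a = b ∧ S'.m g b = a := by
  have hcl' : ∀ x, x ∉ flat L → S.m g x ∉ flat L := by
    intro x hx h
    apply hx
    rw [← S.invol g x]
    exact hcl _ h
  have hmem : ∀ x, x ∈ flat L → ∃ y, ap (S.m g) L x = y ∧ ap (S.m g) L y = x ∧ y ≠ x ∧
      c x y = g := by
    intro x hx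
    obtain ⟨a, b, hab, h⟩ := mem_flat.1 hx
    obtain ⟨h1, h2, h3⟩ := ap_pair (S.m g) L hnd hab
    rcases h with rfl | rfl
    · exact ⟨b, h1, h2, h3.symm, hcol _ _ hab⟩
    · exact ⟨a, h2, h1, h3, by rw [hsymm]; exact hcol _ _ hab⟩
  refine ⟨⟨fun g' => if g' = g then ap (S.m g) L else S.m g', ?_, ?_, ?_⟩, ?_, ?_, ?_⟩
  · intro g' x
    by_cases hg : g' = g
    · simp only [if_pos hg]
      by_cases hx : x ∈ flat L
      · obtain ⟨y, h1, h2, -, -⟩ := hmem x hx
        rw [h1, h2]
      · rw [ap_notMem _ _ hx, ap_notMem _ _ (hcl' x hx), S.invol]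
    · simp only [if_neg hg]
      exact S.invol _ _
  · intro g' x
    by_cases hg : g' = g
    · simp only [if_pos hg]
      by_cases hx : x ∈ flat L
      · obtain ⟨y, h1, h2, h3, -⟩ := hmem x hx
        rw [h1]
        constructor
        · intro h
          exact absurd h h3
        · intro h
          rw [hg, ← S.fix g x] at h
          exact absurd h (hfix x hx)
      · rw [ap_notMem _ _ hx, hg]
        exact S.fix g x
    · simp only [if_neg hg]
      exact S.fix g' x
  · intro g' x
    by_cases hg : g' = g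
    · simp only [if_pos hg]
      by_cases hx : x ∈ flat L
      · obtain ⟨y, h1, h2, h3, h4⟩ := hmem x hx
        rw [h1]
        intro _
        rw [h4, hg]
      · rw [ap_notMem _ _ hx, hg]
        exact S.colr g x
    · simp only [if_neg hg]
      exact S.colr g' x
  · have : ¬ (!g) = g := by cases g <;> decide
    simp only [if_neg this]
  · intro x hx
    simp only [if_true]
    exact ap_notMem _ _ hx
  · intro a b hab
    simp only [if_true]
    have := ap_pair (S.m g) L hnd hab
    exact ⟨this.1, this.2.1⟩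

lemma seg (S' : Sys V c u v) {a b : ℕ}
    (h : ∀ k, a ≤ k → k < b → S'.m (col k) (S.walk k) = S.walk (k + 1)) {k : ℕ} (hk : a ≤ k)
    (hk' : k ≤ b) : S.walk a ∈ S'.comp ↔ S.walk k ∈ S'.comp := by
  induction k, hk using Nat.le_induction with
  | base => exact Iff.rfl
  | succ k hk ih =>
    rw [ih (by omega)]
    have h1 := h k hk (by omega)
    constructor
    · intro h2
      rw [← h1]
      exact S'.closed _ h2
    · intro h2
      rw [← S'.invol (col k) (S.walk k), h1]
      exact S'.closed _ h2

lemma too_big (hmax : ∀ S' : Sys V c u v, S'.l ≤ S.l) (S' : Sys V c u v)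
    (h : ∀ k ≤ 2 * S.l, S.walk k ∈ S'.comp) {x : V} (hx : ∀ k ≤ 2 * S.l, S.walk k ≠ x)
    (hx' : x ∈ S'.comp) : False := by
  have h1 : insert x S.comp ⊆ S'.comp := by
    intro y hy
    rw [mem_insert, mem_comp] at hy
    rcases hy with rfl | ⟨i, hi, rfl⟩
    · exact hx'
    · exact h i hi
  have h2 := card_le_card h1
  rw [card_insert_of_notMem, S.card_comp, S'.card_comp] at h2
  · have := hmax S'
    omega
  · rw [mem_comp]
    rintro ⟨i, hi, h⟩
    exact hx i hi h

lemma out (g : Bool) {x : V} (hx : ∀ k ≤ 2 * S.l, S.walk k ≠ x) :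
    ∀ k ≤ 2 * S.l, S.walk k ≠ S.m g x := by
  intro k hk h
  have h1 : S.m g x ∈ S.comp := S.mem_comp.2 ⟨k, hk, h⟩
  have h2 := S.closed g h1
  rw [S.invol, S.mem_comp] at h2
  obtain ⟨i, hi, h3⟩ := h2
  exact hx i hi h3

lemma out_ne (g : Bool) {x : V} (hx : ∀ k ≤ 2 * S.l, S.walk k ≠ x) : S.m g x ≠ x := by
  intro h
  rw [S.fix] at h
  cases g with
  | false => exact hx (2 * S.l) le_rfl (by rw [S.walk_l, h]; rfl)
  | true => exact hx 0 (by omega) (by rw [S.walk_zero, h]; rfl)

lemma col_or (g : Bool) (k : ℕ) : col k = g ∨ col k = !g := by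
  cases col k <;> cases g <;> simp

lemma E1 (hsymm : ∀ x y, c x y = c y x) (hmax : ∀ S' : Sys V c u v, S'.l ≤ S.l)
    (i : ℕ) (hi : i < 2 * S.l) (x : V)
    (hx : ∀ k ≤ 2 * S.l, S.walk k ≠ x) (h1 : c (S.walk (i + 1)) x = col i)
    (h2 : c (S.walk i) (S.m (col i) x) = col i) : False := by
  have hx' := S.out (col i) hx
  have hxn := S.out_ne (col i) hx
  have hp : ∀ a b, a ≤ 2 * S.l → b ≤ 2 * S.l → a ≠ b → S.walk a ≠ S.walk b :=
    fun a b ha hb hab => S.walk_inj ha hb hab
  have e1 : S.m (col i) (S.walk i) = S.walk (i + 1) := rfl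
  have e2 := S.walk_back i
  have e3 := S.invol (col i) x
  obtain ⟨S', s1, s2, s3⟩ := S.exists_switch hsymm (col i)
    [(S.walk i, S.m (col i) x), (S.walk (i + 1), x)]
    (by
      simp only [flat, List.nodup_cons, List.mem_cons, List.not_mem_nil, not_or, or_false,
        List.nodup_nil, and_true, not_false_eq_true]
      repeat' apply And.intro
      all_goals
        first
        | exact hp _ _ (by omega) (by omega) (by omega)
        | exact hx _ (by omega)
        | exact (hx _ (by omega)).symm
        | exact hx' _ (by omega)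
        | exact (hx' _ (by omega)).symm
        | exact hxn)
    (by
      intro y hy
      simp only [flat, List.mem_cons, List.not_mem_nil, or_false] at hy ⊢
      rcases hy with rfl | rfl | rfl | rfl
      · rw [e1]; simp
      · rw [e3]; simp
      · rw [e2]; simp
      · simp)
    (by
      intro y hy
      simp only [flat, List.mem_cons, List.not_mem_nil, or_false] at hy
      rcases hy with rfl | rfl | rfl | rfl
      · rw [e1]; exact hp _ _ (by omega) (by omega) (by omega)
      · rw [e3]; exact hxn.symm
      · rw [e2]; exact hp _ _ (by omega) (by omega) (by omega)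
      · exact hxn)
    (by
      intro a b hab
      simp only [List.mem_cons, Prod.mk.injEq, List.not_mem_nil, or_false] at hab
      rcases hab with ⟨rfl, rfl⟩ | ⟨rfl, rfl⟩
      · exact h2
      · exact h1)
  have hseg : ∀ k, k < 2 * S.l → k ≠ i → S'.m (col k) (S.walk k) = S.walk (k + 1) := by
    intro k hk hki
    rcases col_or (col i) k with h | h
    · rw [h, s2]
      · rw [← h]; rfl
      · rw [col_eq_iff] at h
        simp only [flat, List.mem_cons, List.not_mem_nil, not_or, or_false]
        refine ⟨hp _ _ (by omega) (by omega) hki, hx' _ (by omega),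
          hp _ _ (by omega) (by omega) (by omega), hx _ (by omega)⟩
    · rw [h, s1, ← h]; rfl
  have t1 : ∀ k, k ≤ i → S.walk k ∈ S'.comp := by
    intro k hk
    rw [← S.seg S' (a := 0) (b := i) (fun k _ hk => hseg k (by omega) (by omega)) (by omega) hk]
    exact S'.u_mem
  have t2 : ∀ k, i + 1 ≤ k → k ≤ 2 * S.l → S.walk k ∈ S'.comp := by
    intro k hk hk'
    have hs := fun k (hk : i + 1 ≤ k) (hk' : k ≤ 2 * S.l) =>
      S.seg S' (a := i + 1) (b := 2 * S.l) (fun k hk hk' => hseg k (by omega) (by omega)) hk hk'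
    rw [← hs k hk hk', hs (2 * S.l) (by omega) le_rfl, S.walk_l]
    exact S'.v_mem
  refine S.too_big hmax S' ?_ hx ?_
  · intro k hk
    rcases Nat.lt_or_ge i k with h | h
    · exact t2 k (by omega) hk
    · exact t1 k h
  · have := (s3 (S.walk (i + 1)) x (by simp)).1
    rw [← this]
    exact S'.closed _ (t2 (i + 1) le_rfl (by omega))

lemma E2a (hsymm : ∀ x y, c x y = c y x) (hmax : ∀ S' : Sys V c u v, S'.l ≤ S.l)
    (i j : ℕ) (hij : i < j) (hj : j < 2 * S.l) (hcij : col i = col j) (x : V)
    (hx : ∀ k ≤ 2 * S.l, S.walk k ≠ x) (h1 : c (S.walk i) x = col i)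
    (h2 : c (S.walk j) (S.m (col i) x) = col i)
    (h3 : c (S.walk (i + 1)) (S.walk (j + 1)) = col i) : False := by
  have hpar := (col_eq_iff i j).1 hcij
  have hx' := S.out (col i) hx
  have hxn := S.out_ne (col i) hx
  have hp : ∀ a b, a ≤ 2 * S.l → b ≤ 2 * S.l → a ≠ b → S.walk a ≠ S.walk b :=
    fun a b ha hb hab => S.walk_inj ha hb hab
  have e1 : S.m (col i) (S.walk i) = S.walk (i + 1) := rfl
  have e2 := S.walk_back i
  have e3 := S.invol (col i) x
  have e4 : S.m (col i) (S.walk j) = S.walk (j + 1) := by rw [hcij]; rfl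
  have e5 : S.m (col i) (S.walk (j + 1)) = S.walk j := by rw [hcij]; exact S.walk_back j
  obtain ⟨S', s1, s2, s3⟩ := S.exists_switch hsymm (col i)
    [(S.walk i, x), (S.walk j, S.m (col i) x), (S.walk (i + 1), S.walk (j + 1))]
    (by
      simp only [flat, List.nodup_cons, List.mem_cons, List.not_mem_nil, not_or, or_false,
        List.nodup_nil, and_true, not_false_eq_true]
      repeat' apply And.intro
      all_goals
        first
        | exact hp _ _ (by omega) (by omega) (by omega)
        | exact hx _ (by omega)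
        | exact (hx _ (by omega)).symm
        | exact hx' _ (by omega)
        | exact (hx' _ (by omega)).symm
        | exact hxn.symm)
    (by
      intro y hy
      simp only [flat, List.mem_cons, List.not_mem_nil, or_false] at hy ⊢
      rcases hy with rfl | rfl | rfl | rfl | rfl | rfl
      · rw [e1]; simp
      · simp
      · rw [e4]; simp
      · rw [e3]; simp
      · rw [e2]; simp
      · rw [e5]; simp)
    (by
      intro y hy
      simp only [flat, List.mem_cons, List.not_mem_nil, or_false] at hy
      rcases hy with rfl | rfl | rfl | rfl | rfl | rfl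
      · rw [e1]; exact hp _ _ (by omega) (by omega) (by omega)
      · exact hxn
      · rw [e4]; exact hp _ _ (by omega) (by omega) (by omega)
      · rw [e3]; exact hxn.symm
      · rw [e2]; exact hp _ _ (by omega) (by omega) (by omega)
      · rw [e5]; exact hp _ _ (by omega) (by omega) (by omega))
    (by
      intro a b hab
      simp only [List.mem_cons, Prod.mk.injEq, List.not_mem_nil, or_false] at hab
      rcases hab with ⟨rfl, rfl⟩ | ⟨rfl, rfl⟩ | ⟨rfl, rfl⟩
      · exact h1
      · exact h2
      · exact h3)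
  have hseg : ∀ k, k < 2 * S.l → k ≠ i → k ≠ j → S'.m (col k) (S.walk k) = S.walk (k + 1) := by
    intro k hk hki hkj
    rcases col_or (col i) k with h | h
    · rw [h, s2]
      · rw [← h]; rfl
      · rw [col_eq_iff] at h
        simp only [flat, List.mem_cons, List.not_mem_nil, not_or, or_false]
        refine ⟨hp _ _ (by omega) (by omega) hki, hx _ (by omega),
          hp _ _ (by omega) (by omega) hkj, hx' _ (by omega),
          hp _ _ (by omega) (by omega) (by omega), hp _ _ (by omega) (by omega) (by omega)⟩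
    · rw [h, s1, ← h]; rfl
  have t1 : ∀ k, k ≤ i → S.walk k ∈ S'.comp := by
    intro k hk
    rw [← S.seg S' (a := 0) (b := i) (fun k _ hk => hseg k (by omega) (by omega) (by omega))
      (by omega) hk]
    exact S'.u_mem
  have t3 : ∀ k, j + 1 ≤ k → k ≤ 2 * S.l → S.walk k ∈ S'.comp := by
    intro k hk hk'
    have hs := fun k (hk : j + 1 ≤ k) (hk' : k ≤ 2 * S.l) =>
      S.seg S' (a := j + 1) (b := 2 * S.l)
        (fun k hk hk' => hseg k (by omega) (by omega) (by omega)) hk hk'
    rw [← hs k hk hk', hs (2 * S.l) (by omega) le_rfl, S.walk_l]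
    exact S'.v_mem
  have t2 : ∀ k, i + 1 ≤ k → k ≤ j → S.walk k ∈ S'.comp := by
    intro k hk hk'
    rw [← S.seg S' (a := i + 1) (b := j)
      (fun k hk hk' => hseg k (by omega) (by omega) (by omega)) hk hk']
    have := (s3 (S.walk (i + 1)) (S.walk (j + 1)) (by simp)).2
    rw [← this]
    exact S'.closed _ (t3 (j + 1) le_rfl (by omega))
  refine S.too_big hmax S' ?_ hx ?_
  · intro k hk
    rcases Nat.lt_or_ge i k with h | h
    · rcases Nat.lt_or_ge j k with h' | h'
      · exact t3 k (by omega) hk
      · exact t2 k (by omega) h'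
    · exact t1 k h
  · have := (s3 (S.walk i) x (by simp)).1
    rw [← this]
    exact S'.closed _ (t1 i le_rfl)

lemma E2b (hsymm : ∀ x y, c x y = c y x) (hmax : ∀ S' : Sys V c u v, S'.l ≤ S.l)
    (i j : ℕ) (hij : i < j) (hj : j < 2 * S.l) (hcij : col i = col j) (x : V)
    (hx : ∀ k ≤ 2 * S.l, S.walk k ≠ x) (h1 : c (S.walk (i + 1)) x = col i)
    (h2 : c (S.walk (j + 1)) (S.m (col i) x) = col i)
    (h3 : c (S.walk i) (S.walk j) = col i) : False := by
  have hpar := (col_eq_iff i j).1 hcij
  have hx' := S.out (col i) hx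
  have hxn := S.out_ne (col i) hx
  have hp : ∀ a b, a ≤ 2 * S.l → b ≤ 2 * S.l → a ≠ b → S.walk a ≠ S.walk b :=
    fun a b ha hb hab => S.walk_inj ha hb hab
  have e1 : S.m (col i) (S.walk i) = S.walk (i + 1) := rfl
  have e2 := S.walk_back i
  have e3 := S.invol (col i) x
  have e4 : S.m (col i) (S.walk j) = S.walk (j + 1) := by rw [hcij]; rfl
  have e5 : S.m (col i) (S.walk (j + 1)) = S.walk j := by rw [hcij]; exact S.walk_back j
  obtain ⟨S', s1, s2, s3⟩ := S.exists_switch hsymm (col i)
    [(S.walk (i + 1), x), (S.walk (j + 1), S.m (col i) x), (S.walk i, S.walk j)]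
    (by
      simp only [flat, List.nodup_cons, List.mem_cons, List.not_mem_nil, not_or, or_false,
        List.nodup_nil, and_true, not_false_eq_true]
      repeat' apply And.intro
      all_goals
        first
        | exact hp _ _ (by omega) (by omega) (by omega)
        | exact hx _ (by omega)
        | exact (hx _ (by omega)).symm
        | exact hx' _ (by omega)
        | exact (hx' _ (by omega)).symm
        | exact hxn.symm)
    (by
      intro y hy
      simp only [flat, List.mem_cons, List.not_mem_nil, or_false] at hy ⊢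
      rcases hy with rfl | rfl | rfl | rfl | rfl | rfl
      · rw [e2]; simp
      · simp
      · rw [e5]; simp
      · rw [e3]; simp
      · rw [e1]; simp
      · rw [e4]; simp)
    (by
      intro y hy
      simp only [flat, List.mem_cons, List.not_mem_nil, or_false] at hy
      rcases hy with rfl | rfl | rfl | rfl | rfl | rfl
      · rw [e2]; exact hp _ _ (by omega) (by omega) (by omega)
      · exact hxn
      · rw [e5]; exact hp _ _ (by omega) (by omega) (by omega)
      · rw [e3]; exact hxn.symm
      · rw [e1]; exact hp _ _ (by omega) (by omega) (by omega)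
      · rw [e4]; exact hp _ _ (by omega) (by omega) (by omega))
    (by
      intro a b hab
      simp only [List.mem_cons, Prod.mk.injEq, List.not_mem_nil, or_false] at hab
      rcases hab with ⟨rfl, rfl⟩ | ⟨rfl, rfl⟩ | ⟨rfl, rfl⟩
      · exact h1
      · exact h2
      · exact h3)
  have hseg : ∀ k, k < 2 * S.l → k ≠ i → k ≠ j → S'.m (col k) (S.walk k) = S.walk (k + 1) := by
    intro k hk hki hkj
    rcases col_or (col i) k with h | h
    · rw [h, s2]
      · rw [← h]; rfl
      · rw [col_eq_iff] at h
        simp only [flat, List.mem_cons, List.not_mem_nil, not_or, or_false]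
        refine ⟨hp _ _ (by omega) (by omega) (by omega), hx _ (by omega),
          hp _ _ (by omega) (by omega) (by omega), hx' _ (by omega),
          hp _ _ (by omega) (by omega) hki, hp _ _ (by omega) (by omega) hkj⟩
    · rw [h, s1, ← h]; rfl
  have t1 : ∀ k, k ≤ i → S.walk k ∈ S'.comp := by
    intro k hk
    rw [← S.seg S' (a := 0) (b := i) (fun k _ hk => hseg k (by omega) (by omega) (by omega))
      (by omega) hk]
    exact S'.u_mem
  have t3 : ∀ k, j + 1 ≤ k → k ≤ 2 * S.l → S.walk k ∈ S'.comp := by
    intro k hk hk'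
    have hs := fun k (hk : j + 1 ≤ k) (hk' : k ≤ 2 * S.l) =>
      S.seg S' (a := j + 1) (b := 2 * S.l)
        (fun k hk hk' => hseg k (by omega) (by omega) (by omega)) hk hk'
    rw [← hs k hk hk', hs (2 * S.l) (by omega) le_rfl, S.walk_l]
    exact S'.v_mem
  have t2 : ∀ k, i + 1 ≤ k → k ≤ j → S.walk k ∈ S'.comp := by
    intro k hk hk'
    have hs := fun k (hk : i + 1 ≤ k) (hk' : k ≤ j) => S.seg S' (a := i + 1) (b := j)
      (fun k hk hk' => hseg k (by omega) (by omega) (by omega)) hk hk'
    rw [← hs k hk hk', hs j (by omega) le_rfl]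
    have := (s3 (S.walk i) (S.walk j) (by simp)).1
    rw [← this]
    exact S'.closed _ (t1 i le_rfl)
  refine S.too_big hmax S' ?_ hx ?_
  · intro k hk
    rcases Nat.lt_or_ge i k with h | h
    · rcases Nat.lt_or_ge j k with h' | h'
      · exact t3 k (by omega) hk
      · exact t2 k (by omega) h'
    · exact t1 k h
  · have := (s3 (S.walk (i + 1)) x (by simp)).1
    rw [← this]
    exact S'.closed _ (t2 (i + 1) le_rfl (by omega))

lemma E3 (hsymm : ∀ x y, c x y = c y x) (hmax : ∀ S' : Sys V c u v, S'.l ≤ S.l)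
    (i : ℕ) (hi : i < 2 * S.l) (y z : V)
    (hy : ∀ k ≤ 2 * S.l, S.walk k ≠ y) (hz : ∀ k ≤ 2 * S.l, S.walk k ≠ z) (hyz : y ≠ z)
    (hyz' : S.m (col i) y ≠ z) (h1 : c (S.walk i) (S.m (col i) y) = col i)
    (h2 : c (S.walk (i + 1)) (S.m (col i) z) = col i) (h3 : c y z = col i) : False := by
  have hy' := S.out (col i) hy
  have hyn := S.out_ne (col i) hy
  have hz' := S.out (col i) hz
  have hzn := S.out_ne (col i) hz
  have hp : ∀ a b, a ≤ 2 * S.l → b ≤ 2 * S.l → a ≠ b → S.walk a ≠ S.walk b :=
    fun a b ha hb hab => S.walk_inj ha hb hab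
  have e1 : S.m (col i) (S.walk i) = S.walk (i + 1) := rfl
  have e2 := S.walk_back i
  have e3 := S.invol (col i) y
  have e4 := S.invol (col i) z
  have hq : S.m (col i) y ≠ S.m (col i) z := fun h => hyz (by rw [← e3, h, e4])
  have hq' : S.m (col i) z ≠ y := fun h => hyz' (by rw [← h, e4])
  obtain ⟨S', s1, s2, s3⟩ := S.exists_switch hsymm (col i)
    [(S.walk i, S.m (col i) y), (S.walk (i + 1), S.m (col i) z), (y, z)]
    (by
      simp only [flat, List.nodup_cons, List.mem_cons, List.not_mem_nil, not_or, or_false,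
        List.nodup_nil, and_true, not_false_eq_true]
      repeat' apply And.intro
      all_goals
        first
        | exact hp _ _ (by omega) (by omega) (by omega)
        | exact hy _ (by omega)
        | exact (hy _ (by omega)).symm
        | exact hy' _ (by omega)
        | exact (hy' _ (by omega)).symm
        | exact hz _ (by omega)
        | exact (hz _ (by omega)).symm
        | exact hz' _ (by omega)
        | exact (hz' _ (by omega)).symm
        | exact hyn
        | exact hzn
        | exact hq
        | exact hq'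
        | exact hyz
        | exact hyz')
    (by
      intro x hx
      simp only [flat, List.mem_cons, List.not_mem_nil, or_false] at hx ⊢
      rcases hx with rfl | rfl | rfl | rfl | rfl | rfl
      · rw [e1]; simp
      · rw [e3]; simp
      · rw [e2]; simp
      · rw [e4]; simp
      · simp
      · simp)
    (by
      intro x hx
      simp only [flat, List.mem_cons, List.not_mem_nil, or_false] at hx
      rcases hx with rfl | rfl | rfl | rfl | rfl | rfl
      · rw [e1]; exact hp _ _ (by omega) (by omega) (by omega)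
      · rw [e3]; exact hyn.symm
      · rw [e2]; exact hp _ _ (by omega) (by omega) (by omega)
      · rw [e4]; exact hzn.symm
      · exact hyn
      · exact hzn)
    (by
      intro a b hab
      simp only [List.mem_cons, Prod.mk.injEq, List.not_mem_nil, or_false] at hab
      rcases hab with ⟨rfl, rfl⟩ | ⟨rfl, rfl⟩ | ⟨rfl, rfl⟩
      · exact h1
      · exact h2
      · exact h3)
  have hseg : ∀ k, k < 2 * S.l → k ≠ i → S'.m (col k) (S.walk k) = S.walk (k + 1) := by
    intro k hk hki
    rcases col_or (col i) k with h | h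
    · rw [h, s2]
      · rw [← h]; rfl
      · rw [col_eq_iff] at h
        simp only [flat, List.mem_cons, List.not_mem_nil, not_or, or_false]
        refine ⟨hp _ _ (by omega) (by omega) hki, hy' _ (by omega),
          hp _ _ (by omega) (by omega) (by omega), hz' _ (by omega), hy _ (by omega),
          hz _ (by omega)⟩
    · rw [h, s1, ← h]; rfl
  have t1 : ∀ k, k ≤ i → S.walk k ∈ S'.comp := by
    intro k hk
    rw [← S.seg S' (a := 0) (b := i) (fun k _ hk => hseg k (by omega) (by omega)) (by omega) hk]
    exact S'.u_mem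
  have t2 : ∀ k, i + 1 ≤ k → k ≤ 2 * S.l → S.walk k ∈ S'.comp := by
    intro k hk hk'
    have hs := fun k (hk : i + 1 ≤ k) (hk' : k ≤ 2 * S.l) =>
      S.seg S' (a := i + 1) (b := 2 * S.l) (fun k hk hk' => hseg k (by omega) (by omega)) hk hk'
    rw [← hs k hk hk', hs (2 * S.l) (by omega) le_rfl, S.walk_l]
    exact S'.v_mem
  refine S.too_big hmax S' ?_ hy' ?_
  · intro k hk
    rcases Nat.lt_or_ge i k with h | h
    · exact t2 k (by omega) hk
    · exact t1 k h
  · have := (s3 (S.walk i) (S.m (col i) y) (by simp)).1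
    rw [← this]
    exact S'.closed _ (t1 i le_rfl)

lemma E4 (hsymm : ∀ x y, c x y = c y x) (hmax : ∀ S' : Sys V c u v, S'.l ≤ S.l)
    (j : ℕ) (hj : j + 3 ≤ 2 * S.l) (y z : V)
    (hy : ∀ k ≤ 2 * S.l, S.walk k ≠ y) (hz : ∀ k ≤ 2 * S.l, S.walk k ≠ z) (hyz : y ≠ z)
    (hyz' : S.m (col j) y ≠ z) (h1 : c (S.walk j) y = col j)
    (h2 : c (S.walk (j + 1)) (S.m (col j) z) = col j) (h3 : c (S.walk (j + 2)) z = col j)
    (h4 : c (S.walk (j + 3)) (S.m (col j) y) = col j) : False := by
  have hy' := S.out (col j) hy
  have hyn := S.out_ne (col j) hy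
  have hz' := S.out (col j) hz
  have hzn := S.out_ne (col j) hz
  have hp : ∀ a b, a ≤ 2 * S.l → b ≤ 2 * S.l → a ≠ b → S.walk a ≠ S.walk b :=
    fun a b ha hb hab => S.walk_inj ha hb hab
  have e1 : S.m (col j) (S.walk j) = S.walk (j + 1) := rfl
  have e2 := S.walk_back j
  have e3 := S.invol (col j) y
  have e4 := S.invol (col j) z
  have hc2 : col j = col (j + 2) := (col_add_two j).symm
  have e5 : S.m (col j) (S.walk (j + 2)) = S.walk (j + 3) := by
    rw [hc2]; rfl
  have e6 : S.m (col j) (S.walk (j + 3)) = S.walk (j + 2) := by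
    rw [hc2]; exact S.walk_back (j + 2)
  have hq : S.m (col j) z ≠ S.m (col j) y := fun h => hyz (by rw [← e4, h, e3])
  have hq' : S.m (col j) z ≠ y := fun h => hyz' (by rw [← h, e4])
  obtain ⟨S', s1, s2, s3⟩ := S.exists_switch hsymm (col j)
    [(S.walk j, y), (S.walk (j + 1), S.m (col j) z), (S.walk (j + 2), z),
      (S.walk (j + 3), S.m (col j) y)]
    (by
      simp only [flat, List.nodup_cons, List.mem_cons, List.not_mem_nil, not_or, or_false,
        List.nodup_nil, and_true, not_false_eq_true]
      repeat' apply And.intro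
      all_goals
        first
        | exact hp _ _ (by omega) (by omega) (by omega)
        | exact hy _ (by omega)
        | exact (hy _ (by omega)).symm
        | exact hy' _ (by omega)
        | exact (hy' _ (by omega)).symm
        | exact hz _ (by omega)
        | exact (hz _ (by omega)).symm
        | exact hz' _ (by omega)
        | exact (hz' _ (by omega)).symm
        | exact hyn.symm
        | exact hzn
        | exact hq
        | exact hq'.symm
        | exact hyz
        | exact hyz'.symm)
    (by
      intro x hx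
      simp only [flat, List.mem_cons, List.not_mem_nil, or_false] at hx ⊢
      rcases hx with rfl | rfl | rfl | rfl | rfl | rfl | rfl | rfl
      · rw [e1]; simp
      · simp
      · rw [e2]; simp
      · rw [e4]; simp
      · rw [e5]; simp
      · simp
      · rw [e6]; simp
      · rw [e3]; simp)
    (by
      intro x hx
      simp only [flat, List.mem_cons, List.not_mem_nil, or_false] at hx
      rcases hx with rfl | rfl | rfl | rfl | rfl | rfl | rfl | rfl
      · rw [e1]; exact hp _ _ (by omega) (by omega) (by omega)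
      · exact hyn
      · rw [e2]; exact hp _ _ (by omega) (by omega) (by omega)
      · rw [e4]; exact hzn.symm
      · rw [e5]; exact hp _ _ (by omega) (by omega) (by omega)
      · exact hzn
      · rw [e6]; exact hp _ _ (by omega) (by omega) (by omega)
      · rw [e3]; exact hyn.symm)
    (by
      intro a b hab
      simp only [List.mem_cons, Prod.mk.injEq, List.not_mem_nil, or_false] at hab
      rcases hab with ⟨rfl, rfl⟩ | ⟨rfl, rfl⟩ | ⟨rfl, rfl⟩ | ⟨rfl, rfl⟩
      · exact h1
      · exact h2
      · exact h3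
      · exact h4)
  have hseg : ∀ k, k < 2 * S.l → k ≠ j → k ≠ j + 2 →
      S'.m (col k) (S.walk k) = S.walk (k + 1) := by
    intro k hk hki hki2
    rcases col_or (col j) k with h | h
    · rw [h, s2]
      · rw [← h]; rfl
      · rw [col_eq_iff] at h
        simp only [flat, List.mem_cons, List.not_mem_nil, not_or, or_false]
        refine ⟨hp _ _ (by omega) (by omega) hki, hy _ (by omega),
          hp _ _ (by omega) (by omega) (by omega), hz' _ (by omega),
          hp _ _ (by omega) (by omega) hki2, hz _ (by omega),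
          hp _ _ (by omega) (by omega) (by omega), hy' _ (by omega)⟩
    · rw [h, s1, ← h]; rfl
  have t1 : ∀ k, k ≤ j → S.walk k ∈ S'.comp := by
    intro k hk
    rw [← S.seg S' (a := 0) (b := j) (fun k _ hk => hseg k (by omega) (by omega) (by omega))
      (by omega) hk]
    exact S'.u_mem
  have t2 : ∀ k, j + 3 ≤ k → k ≤ 2 * S.l → S.walk k ∈ S'.comp := by
    intro k hk hk'
    have hs := fun k (hk : j + 3 ≤ k) (hk' : k ≤ 2 * S.l) =>
      S.seg S' (a := j + 3) (b := 2 * S.l)
        (fun k hk hk' => hseg k (by omega) (by omega) (by omega)) hk hk'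
    rw [← hs k hk hk', hs (2 * S.l) (by omega) le_rfl, S.walk_l]
    exact S'.v_mem
  have y1 : y ∈ S'.comp := by
    have := (s3 (S.walk j) y (by simp)).1
    rw [← this]
    exact S'.closed _ (t1 j le_rfl)
  have y2 : S.m (col j) y ∈ S'.comp := by
    have := (s3 (S.walk (j + 3)) (S.m (col j) y) (by simp)).1
    rw [← this]
    exact S'.closed _ (t2 (j + 3) le_rfl (by omega))
  have y3 : S.m (!col j) y ∈ S'.comp := by
    rw [← s1]
    exact S'.closed _ y1
  have hy'' := S.out (!col j) hy
  have hyn' := S.out_ne (!col j) hy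
  have hne : S.m (col j) y ≠ S.m (!col j) y := by
    intro h
    have i1 := S.colr _ _ hyn
    have i2 := S.colr _ _ hyn'
    rw [h, i2] at i1
    exact not_col_ne j i1
  have hsub : insert y (insert (S.m (col j) y) (insert (S.m (!col j) y)
      ((S.comp.erase (S.walk (j + 1))).erase (S.walk (j + 2))))) ⊆ S'.comp := by
    intro x hx
    simp only [mem_insert, mem_erase, mem_comp] at hx
    rcases hx with rfl | rfl | rfl | ⟨hx1, hx2, i, hi, rfl⟩
    · exact y1
    · exact y2
    · exact y3
    · have n1 : i ≠ j + 2 := by rintro rfl; exact hx1 rfl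
      have n2 : i ≠ j + 1 := by rintro rfl; exact hx2 rfl
      rcases Nat.lt_or_ge j i with h | h
      · exact t2 i (by omega) hi
      · exact t1 i h
  have hcard := card_le_card hsub
  have hnotin : ∀ x, (∀ k ≤ 2 * S.l, S.walk k ≠ x) →
      x ∉ (S.comp.erase (S.walk (j + 1))).erase (S.walk (j + 2)) := by
    intro x hx h
    rw [mem_erase, mem_erase, mem_comp] at h
    obtain ⟨-, -, i, hi, h⟩ := h
    exact hx i hi h
  rw [card_insert_of_notMem, card_insert_of_notMem, card_insert_of_notMem (hnotin _ hy''),
    card_erase_of_mem, card_erase_of_mem, S.card_comp, S'.card_comp] at hcard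
  · have := hmax S'
    omega
  · exact S.mem_comp.2 ⟨j + 1, by omega, rfl⟩
  · rw [mem_erase]
    exact ⟨hp _ _ (by omega) (by omega) (by omega), S.mem_comp.2 ⟨j + 2, by omega, rfl⟩⟩
  · rw [mem_insert]
    rintro (h | h)
    · exact hne h
    · exact hnotin _ hy' h
  · rw [mem_insert, mem_insert]
    rintro (h | h | h)
    · exact hyn h.symm
    · exact hyn' h.symm
    · exact hnotin _ hy h

/-- A maximal system which does not cover everything gives a configuration. -/
noncomputable def config (hsymm : ∀ x y, c x y = c y x) {n : ℕ}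
    (hdeg : ∀ x g, (univ.filter (fun y => y ≠ x ∧ c x y = g)).card = n)
    (hmax : ∀ S' : Sys V c u v, S'.l ≤ S.l) (hne : ∃ x, ∀ i ≤ 2 * S.l, S.walk i ≠ x) :
    Config V where
  c := c
  n := n
  l := S.l
  p := S.walk
  τ := S.m
  symm := hsymm
  deg := hdeg
  inj := by
    intro i j hi hj h
    by_contra hij
    exact S.walk_inj hi hj hij h
  ττ := S.invol
  τW := fun g x hx => S.out g hx
  τne := fun g x hx => S.out_ne g hx
  τcol := fun g x hx => S.colr g x (S.out_ne g hx)
  nonempty := hne
  E1 := S.E1 hsymm hmax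
  E2a := S.E2a hsymm hmax
  E2b := S.E2b hsymm hmax
  E3 := S.E3 hsymm hmax
  E4 := S.E4 hsymm hmax

/-- a maximal system covers everything -/
theorem covers (hsymm : ∀ x y, c x y = c y x) {n : ℕ} (huv : u ≠ v)
    (hdeg : ∀ x g, (univ.filter (fun y => y ≠ x ∧ c x y = g)).card = n)
    (hmax : ∀ S' : Sys V c u v, S'.l ≤ S.l) : ∀ x, ∃ i ≤ 2 * S.l, S.walk i = x := by
  by_contra hcon
  push Not at hcon
  refine (S.config hsymm hdeg hmax hcon).no_config ?_
  change 1 ≤ S.l
  by_contra hl
  have h0 : S.l = 0 := by omega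
  have := S.walk_l
  rw [h0] at this
  exact huv this

end Sys

end Pool.Agent.MP_dd0645_co
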