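import Mathlib
import Pool.Agent.Lib.MP_dd0645_co.Exch

/-!
# Alternating Hamilton paths, as sequences of vertices and as walks
-/

namespace Pool.Agent.MP_dd0645_co

open Finset

variable {V : Type} [Fintype V] [DecidableEq V]

/-- the number of vertices divided by two is even -/
lemma even_n {c : V → V → Bool} (hsymm : ∀ x y, c x y = c y x) {n : ℕ}
    (hdeg : ∀ x g, (univ.filter (fun y => y ≠ x ∧ c x y = g)).card = n)
    (hcard : Fintype.card V = 2 * n + 1) : Even n := by
  have h1 : Even ((univ : Finset V).sigma
      (fun x => univ.filter (fun y => y ≠ x ∧ c x y = true))).card := by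
    apply even_card_of_invol _ (fun z => ⟨z.2, z.1⟩)
    · rintro ⟨x, y⟩ h
      simp only [mem_sigma, mem_univ, mem_filter, true_and] at h ⊢
      exact ⟨h.1.symm, by rw [hsymm]; exact h.2⟩
    · rintro ⟨x, y⟩ _
      rfl
    · rintro ⟨x, y⟩ h h'
      simp only [mem_sigma, mem_univ, mem_filter, true_and] at h
      simp only [Sigma.mk.injEq, heq_eq_eq] at h'
      exact h.1 h'.1
  rw [card_sigma] at h1
  simp only [hdeg, sum_const, card_univ, hcard, smul_eq_mul] at h1
  rw [Nat.even_mul] at h1
  rcases h1 with h1 | h1
  · exfalso
    obtain ⟨k, hk⟩ := h1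
    omega
  · exact h1

/-- **Alternating Hamilton paths**, as sequences of vertices. -/
theorem exists_seq {c : V → V → Bool} (hsymm : ∀ x y, c x y = c y x) {n : ℕ} (hn : 1 ≤ n)
    (hdeg : ∀ x g, (univ.filter (fun y => y ≠ x ∧ c x y = g)).card = n)
    (hcard : Fintype.card V = 2 * n + 1) {u v : V} (huv : u ≠ v) :
    ∃ p : ℕ → V, p 0 = u ∧ p (2 * n) = v ∧ (∀ x, ∃ i ≤ 2 * n, p i = x) ∧
      (∀ i j, i ≤ 2 * n → j ≤ 2 * n → p i = p j → i = j) ∧
      ∀ i < 2 * n, c (p i) (p (i + 1)) = col i := by
  have heven := even_n hsymm hdeg hcard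
  obtain ⟨m1, a1, a2, a3, a4⟩ := exists_matching (g := false) hsymm hn heven
    (fun x => hdeg x false) hcard v
  obtain ⟨m2, b1, b2, b3, b4⟩ := exists_matching (g := true) hsymm hn heven
    (fun x => hdeg x true) hcard u
  have hS : Nonempty (Sys V c u v) := by
    refine ⟨⟨fun g => cond g m2 m1, ?_, ?_, ?_⟩⟩
    · intro g x
      cases g
      · exact a1 x
      · exact b1 x
    · intro g x
      cases g
      · constructor
        · intro h
          by_contra hne
          exact a3 x hne h
        · rintro rfl
          exact a2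
      · constructor
        · intro h
          by_contra hne
          exact b3 x hne h
        · rintro rfl
          exact b2
    · intro g x
      cases g
      · intro h
        apply a4
        rintro rfl
        exact h a2
      · intro h
        apply b4
        rintro rfl
        exact h b2
  obtain ⟨S, hmax⟩ := Sys.exists_max hS
  have hcov := S.covers hsymm huv hdeg hmax
  have hl : S.l = n := by
    have h1 : S.comp = univ := by
      rw [eq_univ_iff_forall]
      intro x
      exact S.mem_comp.2 (hcov x)
    have h2 := S.card_comp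
    rw [h1, card_univ, hcard] at h2
    omega
  subst hl
  refine ⟨S.walk, rfl, S.walk_l, hcov, ?_, ?_⟩
  · intro i j hi hj h
    by_contra hij
    exact S.walk_inj hi hj hij h
  · intro i hi
    have h1 : S.m (col i) (S.walk i) ≠ S.walk i := by
      rw [← S.walk_succ]
      exact S.walk_inj (by omega) (by omega) (by omega)
    exact S.colr _ _ h1

omit [Fintype V] [DecidableEq V] in
/-- a sequence of vertices as a walk in the complete graph -/
lemma exists_walk (p : ℕ → V) : ∀ m : ℕ, (∀ i < m, p i ≠ p (i + 1)) →
    ∃ w : (⊤ : SimpleGraph V).Walk (p 0) (p m), w.support = (List.range (m + 1)).map p ∧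
      w.edges = (List.range m).map (fun i => s(p i, p (i + 1))) := by
  intro m
  induction m with
  | zero =>
    intro _
    exact ⟨SimpleGraph.Walk.nil, by simp, by simp⟩
  | succ m ih =>
    intro h
    obtain ⟨w, h1, h2⟩ := ih (fun i hi => h i (by omega))
    have hadj : (⊤ : SimpleGraph V).Adj (p m) (p (m + 1)) := h m (by omega)
    refine ⟨w.concat hadj, ?_, ?_⟩
    · rw [SimpleGraph.Walk.support_concat, h1, List.range_succ (n := m + 1), List.map_append]
      rfl
    · rw [SimpleGraph.Walk.edges_concat, h2, List.range_succ (n := m), List.map_append,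
        List.concat_eq_append]
      rfl

end Pool.Agent.MP_dd0645_co
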